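import Pool.Agent.Run7.h782.WQ.Defs
import Pool.Agent.Run7.h744.WS.Al
import Pool.Agent.Run7.h744.WS.GeoQ

/-!
Piece Q0: elementary properties of the norms of stresses and fields.
-/

set_option autoImplicit false

open MeasureTheory Set Filter Topology
open scoped ContDiff ENNReal ComplexConjugate

namespace Pool.Agent.Run7.h744.WQ

open H459R3.NS Pool.Agent.Run7.h782 Pool.Agent.Run7.h782.GD Pool.Agent.Run7.h782.GS
open Pool.Agent.Run7.h782.WS Pool.Agent.Run7.h782.WQ
open Pool.Agent.Run7.h744.WS (rpow_add_le anti_comm norm_anti_le summable_anti)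

instance isProb_cube : IsProbabilityMeasure (volume.restrict cube) :=
  ⟨by rw [Measure.restrict_apply_univ, volume_cube]⟩

theorem integral_cube_const (c : ℝ) : ∫ _x in cube, c = c := by
  rw [integral_const, Measure.real, Measure.restrict_apply_univ, volume_cube]
  simp

theorem S_add {a b : K3 → ℂ} (ha : Summable a) (hb : Summable b) (x : V) :
    S (fun k => a k + b k) x = S a x + S b x := by
  rw [S, S, S, ← (summable_term ha x).tsum_add (summable_term hb x)]
  exact tsum_congr fun k => add_mul _ _ _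

theorem S_sub {a b : K3 → ℂ} (ha : Summable a) (hb : Summable b) (x : V) :
    S (fun k => a k - b k) x = S a x - S b x := by
  rw [S, S, S, ← (summable_term ha x).tsum_sub (summable_term hb x)]
  exact tsum_congr fun k => sub_mul _ _ _

section mf

variable {r r' : Mf}

theorem r1s (h : R1 r) (i j : Fin 3) : Summable (r i j) := (h i j).of_norm

theorem r1add (h : R1 r) (h' : R1 r') : R1 (r + r') := fun i j =>
  Summable.of_nonneg_of_le (fun _ => norm_nonneg _) (fun _ => norm_add_le _ _)
    ((h i j).add (h' i j))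

theorem r1sub (h : R1 r) (h' : R1 r') : R1 (r - r') := fun i j =>
  Summable.of_nonneg_of_le (fun _ => norm_nonneg _) (fun _ => norm_sub_le _ _)
    ((h i j).add (h' i j))

theorem rn_nonneg (r : Mf) (x : V) : 0 ≤ rn r x :=
  Finset.sum_nonneg fun _ _ => Finset.sum_nonneg fun _ _ => norm_nonneg _

theorem rn_continuous (h : R1 r) : Continuous (rn r) := by
  unfold rn
  exact continuous_finsetSum _ fun i _ => continuous_finsetSum _ fun j _ =>
    (S_continuous (r1s h i j)).norm

theorem rn_add_le (h : R1 r) (h' : R1 r') (x : V) : rn (r + r') x ≤ rn r x + rn r' x := by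
  rw [rn, rn, rn, ← Finset.sum_add_distrib]
  refine Finset.sum_le_sum fun i _ => ?_
  rw [← Finset.sum_add_distrib]
  refine Finset.sum_le_sum fun j _ => ?_
  have : S ((r + r') i j) x = S (r i j) x + S (r' i j) x := S_add (r1s h i j) (r1s h' i j) x
  rw [this]
  exact norm_add_le _ _

theorem rN_nonneg (r : Mf) : 0 ≤ rN r :=
  Finset.sum_nonneg fun _ _ => Finset.sum_nonneg fun _ _ => tsum_nonneg fun _ => norm_nonneg _

theorem rn_le_rN (h : R1 r) (x : V) : rn r x ≤ rN r :=
  Finset.sum_le_sum fun i _ => Finset.sum_le_sum fun j _ => norm_S_le (r1s h i j) x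

theorem rp_nonneg (p : ℝ) (r : Mf) : 0 ≤ rp p r :=
  integral_nonneg fun x => Real.rpow_nonneg (rn_nonneg r x) p

end mf

section cf

variable {c d : Cf}

theorem _root_.Pool.Agent.Run7.h782.GD.L1.comp (h : L1 c) (i : Fin 3) : Summable fun k => c k i :=
  Summable.of_norm (Summable.of_nonneg_of_le (fun _ => norm_nonneg _)
    (fun k => norm_le_pi_norm (c k) i) h)

theorem fn_nonneg (c : Cf) (x : V) : 0 ≤ fn c x := Finset.sum_nonneg fun _ _ => norm_nonneg _

theorem fn_continuous (h : L1 c) : Continuous (fn c) := by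
  unfold fn
  exact continuous_finsetSum _ fun i _ => (S_continuous (h.comp i)).norm

theorem fn_add_le (h : L1 c) (h' : L1 d) (x : V) : fn (c + d) x ≤ fn c x + fn d x := by
  rw [fn, fn, fn, ← Finset.sum_add_distrib]
  refine Finset.sum_le_sum fun i _ => ?_
  have : S (fun k => (c + d) k i) x = S (fun k => c k i) x + S (fun k => d k i) x :=
    S_add (h.comp i) (h'.comp i) x
  rw [this]
  exact norm_add_le _ _

theorem fn_le (h : L1 c) (x : V) : fn c x ≤ 3 * ∑' k, ‖c k‖ := by
  rw [fn]
  calc ∑ i, ‖S (fun k => c k i) x‖ ≤ ∑ _i : Fin 3, ∑' k, ‖c k‖ := by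
        refine Finset.sum_le_sum fun i _ => (norm_S_le (h.comp i) x).trans ?_
        exact (h.comp i).norm.tsum_le_tsum (fun k => norm_le_pi_norm (c k) i) h
    _ = _ := by rw [Finset.sum_const, Finset.card_univ, Fintype.card_fin, nsmul_eq_mul]; norm_num

theorem fp_nonneg (p : ℝ) (c : Cf) : 0 ≤ fp p c :=
  integral_nonneg fun x => Real.rpow_nonneg (fn_nonneg c x) p

theorem fn_sub_le (h : L1 c) (h' : L1 d) (x : V) :
    |fn c x - fn d x| ≤ 3 * ∑' k, ‖c k - d k‖ := by
  have h1 : L1 (fun k => c k - d k) := h.sub h'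
  refine le_trans ?_ (fn_le h1 x)
  rw [fn, fn, fn, ← Finset.sum_sub_distrib]
  refine (Finset.abs_sum_le_sum_abs _ _).trans (Finset.sum_le_sum fun i _ => ?_)
  have : S (fun k => (c k - d k) i) x = S (fun k => c k i) x - S (fun k => d k i) x :=
    S_sub (h.comp i) (h'.comp i) x
  rw [this]
  exact abs_norm_sub_norm_le _ _

end cf

section gen

variable {f g : V → ℝ}

theorem int_rpow {p : ℝ} (hp : 0 < p) (hf : Continuous f) :
    IntegrableOn (fun x => f x ^ p) cube :=
  integrableOn_cube (hf.rpow_const fun _ => Or.inr hp.le)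

theorem mono_rpow {p : ℝ} (hp : 0 < p) (hf : Continuous f) (hg : Continuous g)
    (hf0 : ∀ x, 0 ≤ f x) (h : ∀ x, f x ≤ g x) :
    ∫ x in cube, f x ^ p ≤ ∫ x in cube, g x ^ p :=
  integral_mono (int_rpow hp hf) (int_rpow hp hg) fun x => Real.rpow_le_rpow (hf0 x) (h x) hp.le

theorem jensen_rpow {p q : ℝ} (hp : 0 < p) (hpq : p ≤ q) (hf : Continuous f)
    (hf0 : ∀ x, 0 ≤ f x) :
    ∫ x in cube, f x ^ p ≤ (∫ x in cube, f x ^ q) ^ (p / q) := by
  have hq : 0 < q := hp.trans_le hpq
  have h1 : (∫ x in cube, f x ^ p) ^ (q / p) ≤ ∫ x in cube, (f x ^ p) ^ (q / p) := by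
    have h := (convexOn_rpow (show (1 : ℝ) ≤ q / p by rwa [le_div_iff₀ hp, one_mul])).map_integral_le
      (μ := volume.restrict cube) (f := fun x => f x ^ p)
      (by
        refine ContinuousOn.rpow_const continuousOn_id fun _ _ => Or.inr ?_
        positivity)
      isClosed_Ici (Eventually.of_forall fun x => Real.rpow_nonneg (hf0 x) p) (int_rpow hp hf)
      (int_rpow (show 0 < q / p by positivity) (hf.rpow_const fun _ => Or.inr hp.le))
    exact h
  have h2 : ∀ x, (f x ^ p) ^ (q / p) = f x ^ q := fun x => by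
    rw [← Real.rpow_mul (hf0 x)]
    congr 1
    field_simp
  simp_rw [h2] at h1
  have h0 : 0 ≤ ∫ x in cube, f x ^ p := integral_nonneg fun x => Real.rpow_nonneg (hf0 x) p
  calc ∫ x in cube, f x ^ p = ((∫ x in cube, f x ^ p) ^ (q / p)) ^ (p / q) := by
        rw [← Real.rpow_mul h0]
        have : q / p * (p / q) = 1 := by field_simp
        rw [this, Real.rpow_one]
    _ ≤ _ := Real.rpow_le_rpow (Real.rpow_nonneg h0 _) h1 (by positivity)

theorem mink {q : ℝ} (hq : 1 ≤ q) (hf : Continuous f) (hg : Continuous g)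
    (hf0 : ∀ x, 0 ≤ f x) (hg0 : ∀ x, 0 ≤ g x) :
    (∫ x in cube, (f x + g x) ^ q) ^ (1 / q)
      ≤ (∫ x in cube, f x ^ q) ^ (1 / q) + (∫ x in cube, g x ^ q) ^ (1 / q) := by
  have hq0 : 0 < q := by linarith
  have hm : ∀ {u : V → ℝ}, Continuous u → MemLp u (ENNReal.ofReal q) (volume.restrict cube) := by
    intro u hu
    obtain ⟨C, hC⟩ := (isCompact_Icc (a := (0 : V)) (b := 1)).exists_bound_of_continuousOn
      hu.continuousOn
    refine MemLp.of_bound hu.aestronglyMeasurable C ?_
    exact (ae_restrict_iff' measurableSet_Icc).2 (Eventually.of_forall fun x hx => hC x hx)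
  have hp1 : ENNReal.ofReal q ≠ 0 := by
    rw [Ne, ENNReal.ofReal_eq_zero]; linarith
  have hn : ∀ {u : V → ℝ}, Continuous u → (∀ x, 0 ≤ u x) →
      eLpNorm u (ENNReal.ofReal q) (volume.restrict cube)
        = ENNReal.ofReal ((∫ x in cube, u x ^ q) ^ (1 / q)) := by
    intro u hu hu0
    rw [(hm hu).eLpNorm_eq_integral_rpow_norm hp1 ENNReal.ofReal_ne_top,
      ENNReal.toReal_ofReal hq0.le, one_div]
    simp_rw [Real.norm_of_nonneg (hu0 _)]
  have h := eLpNorm_add_le (p := ENNReal.ofReal q) (hm hf).aestronglyMeasurable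
    (hm hg).aestronglyMeasurable (by rw [← ENNReal.ofReal_one]; exact ENNReal.ofReal_le_ofReal hq)
  have e := hn (u := f + g) (hf.add hg) fun x => add_nonneg (hf0 x) (hg0 x)
  rw [e, hn hf hf0, hn hg hg0,
    ← ENNReal.ofReal_add (Real.rpow_nonneg (integral_nonneg fun x => Real.rpow_nonneg (hf0 x) q) _)
      (Real.rpow_nonneg (integral_nonneg fun x => Real.rpow_nonneg (hg0 x) q) _)] at h
  refine (ENNReal.ofReal_le_ofReal_iff ?_).1 h
  exact add_nonneg (Real.rpow_nonneg (integral_nonneg fun x => Real.rpow_nonneg (hf0 x) q) _)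
    (Real.rpow_nonneg (integral_nonneg fun x => Real.rpow_nonneg (hg0 x) q) _)

/-- A small change of a bounded function. -/
theorem small_rpow {p M θ : ℝ} (hp : 0 < p) (hθ : 0 < θ) :
    ∃ η : ℝ, 0 < η ∧ ∀ a b : ℝ, 0 ≤ a → 0 ≤ b → a ≤ M → b ≤ a + η → b ^ p ≤ a ^ p + θ := by
  have hc : UniformContinuousOn (fun x : ℝ => x ^ p) (Icc 0 (M + 1)) :=
    isCompact_Icc.uniformContinuousOn_of_continuous
      (ContinuousOn.rpow_const continuousOn_id fun _ _ => Or.inr hp.le)
  obtain ⟨δ, hδ, h⟩ := Metric.uniformContinuousOn_iff.1 hc θ hθ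
  refine ⟨min (δ / 2) 1, by positivity, fun a b ha hb haM hba => ?_⟩
  have h1 : min (δ / 2) 1 ≤ δ / 2 := min_le_left _ _
  have h2 : min (δ / 2) 1 ≤ 1 := min_le_right _ _
  rcases le_total b a with hab | hab
  · have := Real.rpow_le_rpow hb hab hp.le
    linarith
  · have h3 := h b ⟨hb, by linarith⟩ a ⟨ha, by linarith⟩ (by
      rw [Real.dist_eq, abs_of_nonneg (by linarith)]
      linarith)
    rw [Real.dist_eq] at h3
    linarith [(abs_lt.1 h3).2]

end gen

/-- **Piece Q0.** -/
theorem stmQ0 : StmQ0 := by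
  refine ⟨?_, ?_, ?_, ?_, ?_, ?_, ?_, ?_, ?_, ?_, ?_⟩
  · intro p r r' hp hr hr'
    have c1 := rn_continuous hr
    have c2 := rn_continuous hr'
    calc rp p (r + r') ≤ ∫ x in cube, 2 ^ p * (rn r x ^ p + rn r' x ^ p) := by
          refine integral_mono (int_rpow hp (rn_continuous (r1add hr hr')))
            (((int_rpow hp c1).add (int_rpow hp c2)).const_mul _) fun x => ?_
          exact (Real.rpow_le_rpow (rn_nonneg _ x) (rn_add_le hr hr' x) hp.le).trans
            (rpow_add_le hp (rn_nonneg _ x) (rn_nonneg _ x))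
      _ = _ := by
          rw [integral_const_mul, integral_add (int_rpow hp c1) (int_rpow hp c2)]
          rfl
  · intro p r hp hr
    have h := mono_rpow hp (rn_continuous hr) (continuous_const (y := rN r)) (rn_nonneg r)
      (rn_le_rN hr)
    rwa [integral_cube_const] at h
  · intro p q r hp hpq hr
    exact jensen_rpow hp hpq (rn_continuous hr) (rn_nonneg r)
  · intro p q r hp hpq hr
    have c1 := rn_continuous hr
    have hq : 0 < q := hp.trans_le hpq
    calc rp p r ≤ ∫ x in cube, (1 + rn r x ^ q) := by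
          refine integral_mono (int_rpow hp c1) ((integrableOn_cube continuous_const).add
            (int_rpow hq c1)) fun x => ?_
          have h0 := rn_nonneg r x
          rcases le_total (rn r x) 1 with h | h
          · have h1 := Real.rpow_le_one h0 h hp.le
            have h2 := Real.rpow_nonneg h0 q
            simp only
            linarith
          · have h1 := Real.rpow_le_rpow_of_exponent_le h hpq
            simp only
            linarith
      _ = _ := by
          rw [integral_add (integrableOn_cube continuous_const) (int_rpow hq c1),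
            integral_cube_const]
          rfl
  · intro p r hp hr θ hθ
    obtain ⟨η, hη, h⟩ := small_rpow (M := rN r) hp hθ
    refine ⟨η, hη, fun r' hr' hrr => ?_⟩
    calc rp p r' ≤ ∫ x in cube, (rn r x ^ p + θ) := by
          refine integral_mono (int_rpow hp (rn_continuous hr')) ((int_rpow hp
            (rn_continuous hr)).add (integrableOn_cube continuous_const)) fun x => ?_
          refine h _ _ (rn_nonneg r x) (rn_nonneg r' x) (rn_le_rN hr x) ?_
          have h1 := rn_add_le hr (r1sub hr' hr) x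
          have h2 := rn_le_rN (r1sub hr' hr) x
          rw [add_sub_cancel] at h1
          linarith
      _ = _ := by
          rw [integral_add (int_rpow hp (rn_continuous hr)) (integrableOn_cube continuous_const),
            integral_cube_const]
          rfl
  · intro p c hp hc
    have h := mono_rpow hp (fn_continuous hc) (continuous_const (y := 3 * ∑' k, ‖c k‖))
      (fn_nonneg c) (fn_le hc)
    rwa [integral_cube_const] at h
  · intro q c d hq hc hd
    have hq0 : 0 < q := by linarith
    refine le_trans ?_ (mink hq (fn_continuous hc) (fn_continuous hd) (fn_nonneg c) (fn_nonneg d))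
    refine Real.rpow_le_rpow (fp_nonneg _ _) ?_ (by positivity)
    exact mono_rpow hq0 (fn_continuous (hc.add hd)) ((fn_continuous hc).add (fn_continuous hd))
      (fn_nonneg _) (fn_add_le hc hd)
  · intro q c hq hc c' hc' ht
    have h1 : ∀ᶠ m in atTop, ∑' k, ‖c' m k - c k‖ ≤ 1 := ht.eventually (ge_mem_nhds one_pos)
    refine tendsto_integral_filter_of_dominated_convergence
      (fun _ => (3 * ∑' k, ‖c k‖ + 3) ^ q) ?_ ?_ (integrableOn_cube continuous_const) ?_
    · exact Eventually.of_forall fun m => (int_rpow hq (fn_continuous (hc' m))).aestronglyMeasurable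
    · filter_upwards [h1] with m hm
      refine Eventually.of_forall fun x => ?_
      rw [Real.norm_of_nonneg (Real.rpow_nonneg (fn_nonneg _ x) q)]
      refine Real.rpow_le_rpow (fn_nonneg _ x) ?_ hq.le
      have h2 := (abs_le.1 (fn_sub_le (hc' m) hc x)).2
      have h3 := fn_le hc x
      linarith
    · refine Eventually.of_forall fun x => ?_
      have h2 : Tendsto (fun m => fn (c' m) x) atTop (𝓝 (fn c x)) := by
        rw [tendsto_iff_norm_sub_tendsto_zero]
        have h3 := ht.const_mul 3
        rw [mul_zero] at h3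
        exact squeeze_zero (fun _ => norm_nonneg _) (fun m => fn_sub_le (hc' m) hc x) h3
      exact h2.rpow_const (Or.inr hq.le)
  · intro c hc
    have hpi := Real.pi_pos
    have h1 : R1 (anti c) := fun i j => (summable_anti hc i j).norm
    refine ⟨h1, ?_⟩
    have h0 : 0 ≤ ∑' k, ‖c k‖ / len k := tsum_nonneg fun k => div_nonneg (norm_nonneg _)
      (GD.len_nonneg k)
    calc rN (anti c) ≤ ∑ _i : Fin 3, ∑ _j : Fin 3, 1 / Real.pi * ∑' k, ‖c k‖ / len k := by
          refine Finset.sum_le_sum fun i _ => Finset.sum_le_sum fun j _ => ?_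
          rw [← tsum_mul_left]
          exact (h1 i j).tsum_le_tsum (norm_anti_le c i j) (hc.mul_left _)
      _ = 9 / Real.pi * ∑' k, ‖c k‖ / len k := by
          simp only [Finset.sum_const, Finset.card_univ, Fintype.card_fin, nsmul_eq_mul]
          push_cast
          ring
      _ ≤ _ := by
          have : 9 / Real.pi ≤ 18 := by
            rw [div_le_iff₀ hpi]
            nlinarith [Real.pi_gt_three]
          gcongr
  · intro c hc
    refine ⟨fun i j k => congrFun (anti_comm c i j) k, fun i j k => ?_⟩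
    have h1 := hc k i
    have h2 := hc k j
    have h3 : GD.sq (-k) = GD.sq k := by simp [GD.sq]
    simp only [anti, h3, h1, h2, Pi.neg_apply, Int.cast_neg, map_div₀, map_add, map_mul,
      map_intCast, Complex.conj_I, Complex.conj_ofReal, map_ofNat]
    rw [show (starRingEnd ℂ) (c k i) * -(k j : ℂ) + -(k i : ℂ) * (starRingEnd ℂ) (c k j)
      = -((starRingEnd ℂ) (c k i) * (k j : ℂ) + (k i : ℂ) * (starRingEnd ℂ) (c k j)) by ring,
      show (2 * (Real.pi : ℂ) * -Complex.I * (GD.sq k : ℂ))
        = -(2 * (Real.pi : ℂ) * Complex.I * (GD.sq k : ℂ)) by ring, neg_div, div_neg]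
  · intro c hd h0
    funext k
    by_cases hk : k = 0
    · subst hk
      rw [h0, dvr]
      have e0 : (fun i : Fin 3 => ∑ j, ((0 : K3) j : ℂ) * anti c i j 0) = 0 := by
        funext i
        simp
      rw [e0]
      have : prj (0 : K3) 0 = 0 := by
        have h := prj_smul (0 : K3) (0 : ℂ) (0 : C3)
        simpa using h
      rw [this, smul_zero]
    have hsq := (sq_pos' hk).ne'
    have hsqc : (GD.sq k : ℂ) ≠ 0 := by exact_mod_cast hsq
    have hpi : (2 * Real.pi * Complex.I : ℂ) ≠ 0 := by
      simp [Real.pi_ne_zero]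
    have hdk := hd k
    rw [kd] at hdk
    have e5 : ∀ i, ∑ j, (k j : ℂ) * anti c i j k = c k i / (2 * Real.pi * Complex.I) := by
      intro i
      have e6 : ∀ j, (k j : ℂ) * anti c i j k
          = (c k i * (k j : ℂ) ^ 2 + (k i : ℂ) * ((k j : ℂ) * c k j))
            / (2 * Real.pi * Complex.I * (GD.sq k : ℂ)) := by
        intro j
        rw [anti]
        ring
      simp_rw [e6]
      rw [← Finset.sum_div, Finset.sum_add_distrib, ← Finset.mul_sum, ← Finset.mul_sum, hdk,
        mul_zero, add_zero]
      have e7 : ∑ j, (k j : ℂ) ^ 2 = (GD.sq k : ℂ) := by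
        rw [GD.sq]; push_cast; rfl
      rw [e7]
      field_simp
    rw [dvr, ← prj_smul]
    have e : ((2 * Real.pi * Complex.I : ℂ) • fun i => ∑ j, (k j : ℂ) * anti c i j k) = c k := by
      funext i
      rw [Pi.smul_apply, e5, smul_eq_mul]
      field_simp
    rw [e, prj_of_kd_eq_zero (hd k)]

end Pool.Agent.Run7.h744.WQ
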