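import Pool.Agent.Run7.h782.WQ.Defs
import Pool.Agent.Run7.h744.WS.Geo

/-!
Piece GeoQ: the geometric decomposition of an arbitrary symmetric matrix field, with pointwise
bounds of the profiles.
-/

set_option autoImplicit false

open MeasureTheory Set Filter Topology
open scoped ContDiff ComplexConjugate

namespace Pool.Agent.Run7.h744.WQ

open H459R3.NS Pool.Agent.Run7.h782 Pool.Agent.Run7.h782.GD Pool.Agent.Run7.h782.GS
open Pool.Agent.Run7.h782.WS Pool.Agent.Run7.h32.GD Pool.Agent.Run7.h782.WQ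
open Pool.Agent.Run7.h744.WS (xi nn cf nn_ne xi_le nn_xi sum_cf cf_bd rs l1_rs norm_rs_le herm_rs
  exists_rs)

section real

variable (R : Mf)

/-- The entries. -/
noncomputable def rr (i j : Fin 3) (x : V) : ℝ := (S (R i j) x).re

variable {R} {Z : Finset K3} (hZ : ∀ i j, ∀ k ∉ Z, R i j k = 0) (hR : Sy R)

include hR in
theorem rr_comm (i j : Fin 3) : rr R i j = rr R j i := by
  funext x
  rw [rr, rr, funext (hR.sym i j)]

include hZ in
theorem R_summable (i j : Fin 3) : Summable (R i j) :=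
  summable_of_ne_finset_zero fun _ hk => hZ i j _ hk

include hZ in
theorem S_R (i j : Fin 3) (x : V) : S (R i j) x = ∑ k ∈ Z, R i j k * ee k x := by
  rw [S]
  exact tsum_eq_sum fun k hk => by rw [hZ i j k hk, zero_mul]

include hZ in
theorem sp_rr (i j : Fin 3) : SP (rr R i j) where
  smooth := by
    have h : rr R i j = fun x => (∑ k ∈ Z, R i j k * ee k x).re := by
      funext x
      rw [rr, S_R hZ]
    rw [h]
    exact Complex.reCLM.contDiff.comp (ContDiff.sum fun k _ => contDiff_const.mul (ee_contDiff k))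
  per := by
    intro m x
    rw [rr, rr, S_R hZ, S_R hZ]
    simp_rw [ee_per _ m x]

include hZ hR in
theorem fr_rr (i j : Fin 3) (k : K3) : fr (rr R i j) k = R i j k :=
  fr_S (R_summable hZ i j) (hR.herm i j) k

end real

/-- The square root of the sum of squares. -/
noncomputable def qq (R : Mf) (θ : ℝ) (x : V) : ℝ :=
  Real.sqrt (θ ^ 2 + ∑ i, ∑ j, rr R i j x ^ 2)

theorem arg_pos (R : Mf) {θ : ℝ} (hθ : 0 < θ) (x : V) :
    0 < θ ^ 2 + ∑ i, ∑ j, rr R i j x ^ 2 := by positivity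

theorem qq_pos (R : Mf) {θ : ℝ} (hθ : 0 < θ) (x : V) : 0 < qq R θ x :=
  Real.sqrt_pos.2 (arg_pos R hθ x)

theorem rr_le (R : Mf) {θ : ℝ} (i j : Fin 3) (x : V) :
    |rr R i j x| ≤ qq R θ x := by
  refine Real.abs_le_sqrt ?_
  have h1 : rr R i j x ^ 2 ≤ ∑ j, rr R i j x ^ 2 :=
    Finset.single_le_sum (f := fun j => rr R i j x ^ 2) (fun _ _ => by positivity)
      (Finset.mem_univ j)
  have h2 : ∑ j, rr R i j x ^ 2 ≤ ∑ i, ∑ j, rr R i j x ^ 2 :=
    Finset.single_le_sum (f := fun i => ∑ j, rr R i j x ^ 2) (fun _ _ => by positivity)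
      (Finset.mem_univ i)
  have h3 : 0 ≤ θ ^ 2 := by positivity
  linarith

theorem qq_le (R : Mf) {θ : ℝ} (hθ : 0 < θ) (x : V) :
    qq R θ x ≤ θ + ∑ i, ∑ j, |rr R i j x| := by
  refine Real.sqrt_le_iff.2 ⟨by positivity, ?_⟩
  have h0 : ∀ i j, 0 ≤ |rr R i j x| := fun i j => abs_nonneg _
  have h1 : ∑ i, ∑ j, rr R i j x ^ 2 ≤ (∑ i, ∑ j, |rr R i j x|) ^ 2 := by
    calc ∑ i, ∑ j, rr R i j x ^ 2 = ∑ i, ∑ j, |rr R i j x| ^ 2 := by simp_rw [sq_abs]
      _ ≤ ∑ i, (∑ j, |rr R i j x|) ^ 2 :=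
          Finset.sum_le_sum fun i _ => WS.sum_sq_le_sq fun j _ => h0 i j
      _ ≤ (∑ i, ∑ j, |rr R i j x|) ^ 2 :=
          WS.sum_sq_le_sq fun i _ => Finset.sum_nonneg fun j _ => h0 i j
  have h2 : 0 ≤ ∑ i, ∑ j, |rr R i j x| := by positivity
  nlinarith

theorem sp_qq {R : Mf} {Z : Finset K3} (hZ : ∀ i j, ∀ k ∉ Z, R i j k = 0) {θ : ℝ} (hθ : 0 < θ) :
    SP (qq R θ) where
  smooth := by
    refine ContDiff.sqrt ?_ fun x => (arg_pos R hθ x).ne'
    refine contDiff_const.add (ContDiff.sum fun i _ => ContDiff.sum fun j _ => ?_)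
    exact (sp_rr hZ i j).smooth.pow 2
  per := by
    intro m x
    simp only [qq]
    simp_rw [(sp_rr hZ _ _).per m x]

/-- The nine positive functions. -/
noncomputable def cc (R : Mf) (θ : ℝ) (m : Fin 9) (x : V) : ℝ :=
  cf (2 * qq R θ x) (fun i j => rr R i j x) m

theorem cc_bd (R : Mf) (θ : ℝ) (m : Fin 9) (x : V) :
    qq R θ x ≤ cc R θ m x ∧ cc R θ m x ≤ 3 * qq R θ x :=
  cf_bd rfl (fun i j => rr_le R i j x) m

theorem sp_cc {R : Mf} {Z : Finset K3} (hZ : ∀ i j, ∀ k ∉ Z, R i j k = 0) {θ : ℝ} (hθ : 0 < θ)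
    (m : Fin 9) : SP (cc R θ m) where
  smooth := by
    have hq := (sp_qq hZ hθ).smooth
    have hr := fun i j => (sp_rr hZ i j).smooth
    have e : ∀ i j : Fin 3, ContDiff ℝ ∞ fun x => 2 * qq R θ x + rr R i j x := fun i j =>
      (contDiff_const.mul hq).add (hr i j)
    have e1 : ∀ i j : Fin 3, ContDiff ℝ ∞ fun x => 2 * qq R θ x + rr R i j x / 2 := fun i j =>
      (contDiff_const.mul hq).add ((hr i j).div_const 2)
    have e2 : ∀ i j : Fin 3, ContDiff ℝ ∞ fun x => 2 * qq R θ x - rr R i j x / 2 := fun i j =>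
      (contDiff_const.mul hq).sub ((hr i j).div_const 2)
    fin_cases m
    exacts [e 0 0, e 1 1, e 2 2, e1 0 1, e2 0 1, e1 0 2, e2 0 2, e1 1 2, e2 1 2]
  per := by
    intro i x
    simp only [cc]
    rw [(sp_qq hZ hθ).per i x]
    simp_rw [(sp_rr hZ _ _).per i x]

/-- Their roots. -/
noncomputable def aa (R : Mf) (θ : ℝ) (m : Fin 9) (x : V) : ℝ := Real.sqrt (cc R θ m x)

theorem cc_pos (R : Mf) {θ : ℝ} (hθ : 0 < θ) (m : Fin 9) (x : V) : 0 < cc R θ m x :=
  (qq_pos R hθ x).trans_le (cc_bd R θ m x).1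

theorem aa_sq (R : Mf) {θ : ℝ} (hθ : 0 < θ) (m : Fin 9) (x : V) :
    aa R θ m x ^ 2 = cc R θ m x := Real.sq_sqrt (cc_pos R hθ m x).le

theorem sp_aa {R : Mf} {Z : Finset K3} (hZ : ∀ i j, ∀ k ∉ Z, R i j k = 0) {θ : ℝ} (hθ : 0 < θ)
    (m : Fin 9) : SP (aa R θ m) where
  smooth := (sp_cc hZ hθ m).smooth.sqrt fun x => (cc_pos R hθ m x).ne'
  per := by
    intro i x
    simp only [aa]
    rw [(sp_cc hZ hθ m).per i x]

/-- The profiles. -/
noncomputable def sf (R : Mf) (θ : ℝ) (m : Fin 9) : Cf :=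
  fun p i => fr (aa R θ m) p * (xi m i : ℂ)

section main

variable {R : Mf} {Z : Finset K3} (hZ : ∀ i j, ∀ k ∉ Z, R i j k = 0) {θ : ℝ} (hθ : 0 < θ)

theorem norm_sf_le (m : Fin 9) (p : K3) : ‖sf R θ m p‖ ≤ ‖fr (aa R θ m) p‖ := by
  refine (pi_norm_le_iff_of_nonneg (norm_nonneg _)).2 fun i => ?_
  rw [sf, norm_mul]
  refine mul_le_of_le_one_right (norm_nonneg _) ?_
  rw [Complex.norm_intCast]
  exact_mod_cast xi_le m i

include hZ hθ in
theorem summable_fra (m : Fin 9) : Summable (fr (aa R θ m)) :=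
  (rap_fr (sp_aa hZ hθ m)).summable

include hZ hθ in
theorem l1_sf (m : Fin 9) : L1 (sf R θ m) :=
  Summable.of_nonneg_of_le (fun _ => norm_nonneg _) (norm_sf_le m) (summable_fra hZ hθ m).norm

theorem herm_sf (m : Fin 9) : Herm (sf R θ m) := by
  intro k i
  simp only [sf, fr_neg, map_mul, map_intCast]

theorem kd_sf (m : Fin 9) (k p : K3) :
    kd k (sf R θ m p) = fr (aa R θ m) p * ((∑ j, k j * xi m j : ℤ) : ℂ) := by
  simp only [kd, sf]
  push_cast
  rw [Finset.mul_sum]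
  exact Finset.sum_congr rfl fun j _ => by ring

/-- The nonlinear term of a profile. -/
theorem nl_sf (hZ : ∀ i j, ∀ k ∉ Z, R i j k = 0) (hθ : 0 < θ) (m : Fin 9) (k : K3) :
    nl (sf R θ m) (sf R θ m) k = prj k (fun i => (2 * Real.pi * Complex.I : ℂ)
      * ∑ j, (k j : ℂ) * (((xi m j : ℝ) * (xi m i : ℝ) : ℝ) : ℂ) * fr (cc R θ m) k) := by
  have hs := summable_fra hZ hθ m
  have h := integral_ee_S_S (-k) hs hs
  have e1 : (∫ x in cube, ee (-k) x * (S (fr (aa R θ m)) x * S (fr (aa R θ m)) x))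
      = fr (cc R θ m) k := by
    change _ = ∫ x in cube, ee (-k) x * ((cc R θ m x : ℝ) : ℂ)
    refine integral_congr_ae (Eventually.of_forall fun x => ?_)
    simp only [S_fr (sp_aa hZ hθ m), ← aa_sq R hθ m x]
    push_cast
    ring
  rw [e1] at h
  have hc : HasSum (fun p => kd k (sf R θ m p) • sf R θ m (k - p))
      (fun i => ((∑ j, k j * xi m j : ℤ) : ℂ) * (xi m i : ℂ) * fr (cc R θ m) k) := by
    rw [Pi.hasSum]
    intro i
    have h2 := h.mul_left (((∑ j, k j * xi m j : ℤ) : ℂ) * (xi m i : ℂ))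
    have e3 : (fun p => (kd k (sf R θ m p) • sf R θ m (k - p)) i)
        = fun p => ((∑ j, k j * xi m j : ℤ) : ℂ) * (xi m i : ℂ)
          * (fr (aa R θ m) p * fr (aa R θ m) (- -k - p)) := by
      funext p
      rw [Pi.smul_apply, kd_sf, sf, smul_eq_mul, neg_neg]
      ring
    rw [e3]
    exact h2
  rw [nl, hc.tsum_eq, ← prj_smul]
  congr 1
  funext i
  rw [Pi.smul_apply, smul_eq_mul, ← Finset.sum_mul]
  push_cast
  rw [Finset.sum_mul]
  congr 2
  exact Finset.sum_congr rfl fun j _ => by ring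

/-- The sum of the nine terms. -/
theorem sum_nl (hZ : ∀ i j, ∀ k ∉ Z, R i j k = 0) (hR : Sy R) (hθ : 0 < θ)
    (k : K3) : ∑ m, nl (sf R θ m) (sf R θ m) k = dvr R k := by
  by_cases hk : k = 0
  · subst hk
    simp only [nl_zero_mode, Finset.sum_const_zero]
    rw [dvr]
    have e0 : (fun i : Fin 3 => ∑ j, ((0 : K3) j : ℂ) * R i j 0) = 0 := by
      funext i
      simp
    rw [e0]
    have : prj (0 : K3) 0 = 0 := by
      have h := prj_smul (0 : K3) (0 : ℂ) (0 : C3)
      simpa using h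
    rw [this, smul_zero]
  have hsq := (sq_pos' hk).ne'
  have hsqc : (GD.sq k : ℂ) ≠ 0 := by exact_mod_cast hsq
  have key : ∀ i j : Fin 3, ∑ m, (((xi m j : ℝ) * (xi m i : ℝ) : ℝ) : ℂ) * fr (cc R θ m) k
      = R i j k + if i = j then 5 * (2 * fr (qq R θ) k) else 0 := by
    intro i j
    have hc : ∀ f : V → ℝ, SP f → Integrable (fun x => ee (-k) x * ((f x : ℝ) : ℂ))
        (volume.restrict cube) := fun f hf =>
      integrableOn_cube ((ee_continuous _).mul (Complex.continuous_ofReal.comp hf.smooth.continuous))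
    have e1 : ∀ m, (((xi m j : ℝ) * (xi m i : ℝ) : ℝ) : ℂ) * fr (cc R θ m) k
        = ∫ x in cube, (((xi m j : ℝ) * (xi m i : ℝ) : ℝ) : ℂ)
          * (ee (-k) x * ((cc R θ m x : ℝ) : ℂ)) := fun m => (integral_const_mul _ _).symm
    have e2 : R i j k = ∫ x in cube, ee (-k) x * ((rr R i j x : ℝ) : ℂ) :=
      (fr_rr hZ hR i j k).symm
    have e3 : (if i = j then 5 * (2 * fr (qq R θ) k) else 0 : ℂ)
        = ∫ x in cube, (if i = j then 10 else 0 : ℂ) * (ee (-k) x * ((qq R θ x : ℝ) : ℂ)) := by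
      rw [integral_const_mul]
      change _ = _ * fr (qq R θ) k
      split_ifs <;> ring
    rw [Finset.sum_congr rfl fun m _ => e1 m, e2, e3,
      ← integral_finsetSum _ fun m _ => (hc _ (sp_cc hZ hθ m)).const_mul _,
      ← integral_add (hc _ (sp_rr hZ i j)) ((hc _ (sp_qq hZ hθ)).const_mul _)]
    refine integral_congr_ae (Eventually.of_forall fun x => ?_)
    have h := sum_cf (2 * qq R θ x) (fun i j => rr R i j x)
      (fun i j => by rw [rr_comm hR]) i j
    have h' := congrArg (fun y : ℝ => ee (-k) x * (y : ℂ)) h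
    simp only at h' ⊢
    push_cast at h' ⊢
    rw [Finset.mul_sum] at h'
    convert h' using 1
    · exact Finset.sum_congr rfl fun m _ => by simp only [cc]; ring
    · split_ifs <;> push_cast <;> ring
  rw [Finset.sum_congr rfl fun m _ => nl_sf hZ hθ m k]
  have e : (∑ m, prj k (fun i => (2 * Real.pi * Complex.I : ℂ)
      * ∑ j, (k j : ℂ) * (((xi m j : ℝ) * (xi m i : ℝ) : ℝ) : ℂ) * fr (cc R θ m) k))
      = prj k ((2 * Real.pi * Complex.I : ℂ) • (fun i => ∑ j, (k j : ℂ) * R i j k)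
        + (2 * Real.pi * Complex.I * (5 * (2 * fr (qq R θ) k)) : ℂ)
        • fun i => (k i : ℂ)) := by
    simp_rw [← prjL_apply]
    rw [← map_sum]
    congr 1
    funext i
    rw [Finset.sum_apply, ← Finset.mul_sum, Finset.sum_comm]
    have e4 : ∀ j, ∑ m, (k j : ℂ) * (((xi m j : ℝ) * (xi m i : ℝ) : ℝ) : ℂ) * fr (cc R θ m) k
        = (k j : ℂ) * (R i j k + if i = j then 5 * (2 * fr (qq R θ) k) else 0) := by
      intro j
      rw [← key i j, Finset.mul_sum]
      exact Finset.sum_congr rfl fun m _ => by ring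
    simp_rw [e4]
    have e5 : ∑ j, (k j : ℂ) * (R i j k + if i = j then 5 * (2 * fr (qq R θ) k) else 0)
        = ∑ j, (k j : ℂ) * R i j k + (k i : ℂ) * (5 * (2 * fr (qq R θ) k)) := by
      have e6 : ∀ j, (k j : ℂ) * (R i j k + if i = j then 5 * (2 * fr (qq R θ) k) else 0)
          = (k j : ℂ) * R i j k
            + if i = j then (k i : ℂ) * (5 * (2 * fr (qq R θ) k)) else 0 := by
        intro j
        split_ifs with hij
        · subst hij; ring
        · ring
      simp_rw [e6]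
      rw [Finset.sum_add_distrib, Finset.sum_ite_eq, if_pos (Finset.mem_univ i)]
    rw [e5, Pi.add_apply, Pi.smul_apply, Pi.smul_apply, smul_eq_mul, smul_eq_mul]
    ring
  rw [e, prj_add, prj_smul, prj_smul, dvr]
  have e8 : prj k (fun i => (k i : ℂ)) = 0 := by
    funext i
    have e9 : kd k (fun i => (k i : ℂ)) = (GD.sq k : ℂ) := by
      rw [kd, GD.sq]; push_cast
      exact Finset.sum_congr rfl fun j _ => by ring
    rw [prj, e9, div_self hsqc, mul_one, sub_self, Pi.zero_apply]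
  rw [e8, smul_zero, add_zero]

/-- The sup norm of the truncation. -/
theorem norm_S_rs_le (hZ : ∀ i j, ∀ k ∉ Z, R i j k = 0) (hθ : 0 < θ)
    (m : Fin 9) (P : Finset K3) (i : Fin 3) (x : V) :
    ‖S (fun k => rs P (sf R θ m) k i) x‖ ≤ aa R θ m x + N0 (sf R θ m - rs P (sf R θ m)) := by
  have h1 := l1_sf hZ hθ m
  have h2 : L1 (rs P (sf R θ m)) := l1_rs P _
  have s1 : Summable fun k => sf R θ m k i :=
    Summable.of_norm (Summable.of_nonneg_of_le (fun _ => norm_nonneg _)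
      (fun k => norm_le_pi_norm (sf R θ m k) i) h1)
  have s2 : Summable fun k => rs P (sf R θ m) k i :=
    Summable.of_norm (Summable.of_nonneg_of_le (fun _ => norm_nonneg _)
      (fun k => norm_le_pi_norm (rs P (sf R θ m) k) i) h2)
  have h3 : L1 (sf R θ m - rs P (sf R θ m)) := h1.sub h2
  have e : S (fun k => rs P (sf R θ m) k i) x
      = S (fun k => sf R θ m k i) x - S (fun k => (sf R θ m - rs P (sf R θ m)) k i) x := by
    rw [S, S, S, ← (summable_term s1 x).tsum_sub]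
    · exact tsum_congr fun k => by simp only [Pi.sub_apply]; ring
    · refine summable_term ?_ x
      exact s1.sub s2
  have e2 : S (fun k => sf R θ m k i) x = (xi m i : ℂ) * (aa R θ m x : ℂ) := by
    rw [← S_fr (sp_aa hZ hθ m) x, S, S, ← tsum_mul_left]
    exact tsum_congr fun k => by rw [sf]; ring
  have e3 : ‖S (fun k => sf R θ m k i) x‖ ≤ aa R θ m x := by
    rw [e2, norm_mul, Complex.norm_intCast, Complex.norm_real,
      Real.norm_of_nonneg (show 0 ≤ aa R θ m x from Real.sqrt_nonneg _)]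
    refine mul_le_of_le_one_left (Real.sqrt_nonneg _) ?_
    exact_mod_cast xi_le m i
  have e4 : ‖S (fun k => (sf R θ m - rs P (sf R θ m)) k i) x‖
      ≤ N0 (sf R θ m - rs P (sf R θ m)) := by
    refine (norm_S_le (s1.sub s2) x).trans ?_
    rw [N0_eq]
    exact (s1.sub s2).norm.tsum_le_tsum
      (fun k => norm_le_pi_norm ((sf R θ m - rs P (sf R θ m)) k) i) h3
  rw [e]
  exact (norm_sub_le _ _).trans (add_le_add e3 e4)

end main

/-- **Piece GeoQ.** -/
theorem stmGeoQ : StmGeoQ := by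
  refine ⟨72, by norm_num, ?_⟩
  intro Z r hZ hr θ hθ
  set M : ℝ := ∑ m, N0 (sf r θ m) with hM
  have hN0 : ∀ m, 0 ≤ N0 (sf r θ m) := fun m => by
    rw [N0_eq]; exact tsum_nonneg fun _ => norm_nonneg _
  have hMm : ∀ m, N0 (sf r θ m) ≤ M := fun m =>
    Finset.single_le_sum (f := fun m => N0 (sf r θ m)) (fun m _ => hN0 m) (Finset.mem_univ m)
  have hM0 : 0 ≤ M := Finset.sum_nonneg fun m _ => hN0 m
  have hpi := Real.pi_pos
  obtain ⟨P, hP, hPs'⟩ := exists_rs (fun m => l1_sf hZ hθ m)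
    (ε := min (Real.sqrt θ) (θ / (432 * Real.pi * (M + 1)))) (lt_min (Real.sqrt_pos.2 hθ)
      (by positivity))
  have hPs : ∀ m, N0 (sf r θ m - rs P (sf r θ m)) ≤ θ / (432 * Real.pi * (M + 1)) := fun m =>
    (hPs' m).trans (min_le_right _ _)
  have hPκ : ∀ m, N0 (sf r θ m - rs P (sf r θ m)) ≤ Real.sqrt θ := fun m =>
    (hPs' m).trans (min_le_left _ _)
  refine ⟨9, nn, fun m => rs P (sf r θ m), P, by norm_num, le_rfl, nn_ne, fun m p hp => if_neg hp,
    fun m => herm_rs hP (herm_sf m), ?_, ?_, ?_⟩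
  · intro m p
    simp only [rs]
    split_ifs
    · rw [kd_sf, nn_xi, Int.cast_zero, mul_zero]
    · exact kd_zero_right _
  · intro m x
    have h0 : 0 ≤ aa r θ m x := Real.sqrt_nonneg _
    have h1 : fn (rs P (sf r θ m)) x ≤ 3 * (aa r θ m x + Real.sqrt θ) := by
      rw [fn]
      calc ∑ i, ‖S (fun k => rs P (sf r θ m) k i) x‖ ≤ ∑ _i : Fin 3, (aa r θ m x + Real.sqrt θ) :=
            Finset.sum_le_sum fun i _ => (norm_S_rs_le hZ hθ m P i x).trans (by linarith [hPκ m])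
        _ = _ := by rw [Finset.sum_const, Finset.card_univ, Fintype.card_fin, nsmul_eq_mul]; norm_num
    have h2 : 0 ≤ fn (rs P (sf r θ m)) x := Finset.sum_nonneg fun i _ => norm_nonneg _
    have h3 : cc r θ m x ≤ 3 * (θ + rn r x) := by
      refine (cc_bd r θ m x).2.trans ?_
      have h4 : ∑ i, ∑ j, |rr r i j x| ≤ rn r x :=
        Finset.sum_le_sum fun i _ => Finset.sum_le_sum fun j _ => Complex.abs_re_le_norm _
      linarith [qq_le r hθ x]
    have h4 := aa_sq r hθ m x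
    have h5 := Real.sq_sqrt hθ.le
    have h6 : 0 ≤ rn r x := Finset.sum_nonneg fun i _ => Finset.sum_nonneg fun j _ => norm_nonneg _
    have h7 : 0 ≤ Real.sqrt θ := Real.sqrt_nonneg _
    have h8 : fn (rs P (sf r θ m)) x ^ 2 ≤ (3 * (aa r θ m x + Real.sqrt θ)) ^ 2 :=
      pow_le_pow_left₀ h2 h1 2
    nlinarith [sq_nonneg (aa r θ m x - Real.sqrt θ)]
  intro B
  have hl := fun m => l1_sf hZ hθ m
  have hr' : ∀ m, L1 (rs P (sf r θ m)) := fun m => l1_rs P _
  have hrN : ∀ m, N0 (rs P (sf r θ m)) ≤ M := fun m => by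
    refine le_trans ?_ (hMm m)
    rw [N0_eq, N0_eq]
    exact Summable.tsum_le_tsum (norm_rs_le P _) (hr' m) (hl m)
  have key : ∀ k, ‖dvr r k - ∑ m, nl (rs P (sf r θ m)) (rs P (sf r θ m)) k‖ / len k
      ≤ ∑ m, (‖nl (sf r θ m - rs P (sf r θ m)) (sf r θ m) k‖ / len k
        + ‖nl (rs P (sf r θ m)) (sf r θ m - rs P (sf r θ m)) k‖ / len k) := by
    intro k
    have e : dvr r k - ∑ m, nl (rs P (sf r θ m)) (rs P (sf r θ m)) k
        = ∑ m, (nl (sf r θ m - rs P (sf r θ m)) (sf r θ m) k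
          + nl (rs P (sf r θ m)) (sf r θ m - rs P (sf r θ m)) k) := by
      rw [← sum_nl hZ hr hθ k, ← Finset.sum_sub_distrib]
      refine Finset.sum_congr rfl fun m _ => ?_
      rw [nl_sub_left (hl m) (hr' m) (hl m), nl_sub_right (hr' m) (hl m) (hr' m)]
      simp only [Pi.sub_apply]
      abel
    rw [e]
    have h1 : ‖∑ m, (nl (sf r θ m - rs P (sf r θ m)) (sf r θ m) k
          + nl (rs P (sf r θ m)) (sf r θ m - rs P (sf r θ m)) k)‖
        ≤ ∑ m, (‖nl (sf r θ m - rs P (sf r θ m)) (sf r θ m) k‖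
          + ‖nl (rs P (sf r θ m)) (sf r θ m - rs P (sf r θ m)) k‖) :=
      norm_sum_le_of_le _ fun m _ => norm_add_le _ _
    refine (div_le_div_of_nonneg_right h1 (GD.len_nonneg k)).trans (le_of_eq ?_)
    rw [Finset.sum_div]
    exact Finset.sum_congr rfl fun m _ => add_div _ _ _
  calc ∑ k ∈ B, ‖dvr r k - ∑ m, nl (rs P (sf r θ m)) (rs P (sf r θ m)) k‖ / len k
      ≤ ∑ k ∈ B, ∑ m, (‖nl (sf r θ m - rs P (sf r θ m)) (sf r θ m) k‖ / len k
        + ‖nl (rs P (sf r θ m)) (sf r θ m - rs P (sf r θ m)) k‖ / len k) :=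
        Finset.sum_le_sum fun k _ => key k
    _ = ∑ m, (∑ k ∈ B, ‖nl (sf r θ m - rs P (sf r θ m)) (sf r θ m) k‖ / len k
        + ∑ k ∈ B, ‖nl (rs P (sf r θ m)) (sf r θ m - rs P (sf r θ m)) k‖ / len k) := by
        rw [Finset.sum_comm]
        exact Finset.sum_congr rfl fun m _ => Finset.sum_add_distrib
    _ ≤ ∑ m : Fin 9, (24 * Real.pi * (θ / (432 * Real.pi * (M + 1)) * M)
        + 24 * Real.pi * (M * (θ / (432 * Real.pi * (M + 1))))) := by
        refine Finset.sum_le_sum fun m _ => add_le_add ?_ ?_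
        · refine (sum_nl_le0 ((hl m).sub (hr' m)) (hl m) B).trans ?_
          have := mul_le_mul (hPs m) (hMm m) (hN0 m) (by positivity)
          gcongr
        · refine (sum_nl_le0 (hr' m) ((hl m).sub (hr' m)) B).trans ?_
          have h3 : 0 ≤ N0 (sf r θ m - rs P (sf r θ m)) := by
            rw [N0_eq]; exact tsum_nonneg fun _ => norm_nonneg _
          have := mul_le_mul (hrN m) (hPs m) h3 hM0
          gcongr
    _ = θ * (M / (M + 1)) := by
        rw [Finset.sum_const, Finset.card_univ, Fintype.card_fin, nsmul_eq_mul]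
        push_cast
        field_simp
        ring
    _ ≤ θ := by
        refine mul_le_of_le_one_right hθ.le ?_
        rw [div_le_one (by positivity)]
        linarith

end Pool.Agent.Run7.h744.WQ
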