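import Pool.Agent.Run7.h744.WQ.LimS

/-!
Piece IterS: the infinite iteration for data `P div R`, `R ∈ L¹` (after `h969/WS/IterG`).
-/

set_option autoImplicit false

open MeasureTheory Set Filter Topology
open scoped ENNReal

namespace Pool.Agent.Run7.h744.WQ

open H459R3.NS Pool.Agent.Run7.h782 Pool.Agent.Run7.h782.GD Pool.Agent.Run7.h782.GS
open Pool.Agent.Run7.h782.WS Pool.Agent.Run7.h969.GS Pool.Agent.Run7 Pool.Agent.Run7.h308.WS
open Pool.Agent.Run7.h744.WS Pool.Agent.Run7.h969.WS Pool.Agent.Run7.h782.WQ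

/-- Boundedness of the norms of the truncations. -/
theorem SQ.bd_r {C : ℝ → ℝ} {ν δ : ℝ} {U : ℝ → Cf} {Q : ℕ → ℝ} {c : Cf} {r : ℕ → Mf} {φ : ℝ → ℝ}
    {m : ℕ → ℕ} {A : ℕ → ℝ → Cf} {ε H : ℕ → ℝ} (h : SQ C ν δ U Q c r φ m A ε H) :
    ∃ B : ℝ, 0 ≤ B ∧ ∀ j, rp 1 (r (m j)) ≤ B := by
  obtain ⟨m₀, hm₀⟩ := h.dat.cau 0 1 one_pos
  obtain ⟨N, hN⟩ := eventually_atTop.1 (h.top.eventually (eventually_ge_atTop m₀))
  refine exists_all (N := N) (C := 2 ^ (1 : ℝ) * (2 + rp 1 (r m₀))) fun j hj => ?_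
  have h1 := hm₀ (m j) m₀ (hN j hj) le_rfl
  have hr := r1sub (dat_r1 h.dat (m j)) (dat_r1 h.dat m₀)
  have h2 := stmQ0.2.2.2.1 1 (Q 0) _ one_pos (h.dat.one 0) hr
  have h3 := stmQ0.1 1 _ _ one_pos hr (dat_r1 h.dat m₀)
  rw [sub_add_cancel] at h3
  refine h3.trans (mul_le_mul_of_nonneg_left ?_ (by positivity))
  linarith

/-- The infinite iteration. -/
theorem iterS (hStep : StmStepQ) (hLim : StmLim) : StmIterS := by
  obtain ⟨C₀, hC₀, HS⟩ := exists_sq hStep
  intro ν hν U hU Q c r hdat φ hφ δ hδ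
  obtain ⟨m, A, ε, Hn, hq⟩ := HS ν hν U hU Q c r hdat φ hφ δ hδ
  have hst := hq.st
  have hsg := hq.sg
  have hε0 := hq.e0
  have hε1 := hq.e1
  have hε2 := hq.e2
  have hεa := hq.ea
  have htg := hq.tgt
  have hA0 := hq.init
  set z : ℕ → Cf := fun n => dvr (r (m n)) with hz
  have hzl : ∀ n, L1 (z n) := fun n => l1_dvr hdat _
  have hzd : ∀ n, Dv (z n) := fun n => dv_dvr _
  have hz0 : ∀ n, z n 0 = 0 := fun n => dvr_zero_mode _
  have hzc : ∀ k, Tendsto (fun n => z n k) atTop (𝓝 (c k)) := fun k => (hdat.lim k).comp hq.top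
  have hc0 : c 0 = 0 := by
    refine tendsto_nhds_unique (hzc 0) ?_
    simp_rw [hz0]
    exact tendsto_const_nhds
  obtain ⟨Kr, hKr0, hKr⟩ := hq.bd_r
  have hzb : ∀ n k, ‖z n k‖ ≤ 24 * Real.pi * len k * Kr := by
    intro n k
    refine (norm_dvr_le (dat_r1 hdat _) k).trans ?_
    have hpi := Real.pi_pos
    have hl := len_nonneg k
    exact mul_le_mul_of_nonneg_left (hKr n) (by positivity)
  obtain ⟨Kl, hKl0, hl2⟩ := hq.l2_le hC₀ hν
  obtain ⟨Ka, hKa0, hal⟩ := hq.al_le hC₀ hν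
  -- the limit
  obtain ⟨b, hb, hlim⟩ := hLim ν hν (fun j => A (j + 1)) (fun j => ε (j + 1))
    (fun j => (hst j).csol) (fun j => hε0 _) (fun i j hij => hεa (by omega))
    (by
      refine Summable.of_nonneg_of_le (fun j => (hε0 _).le) (fun j => hε1 (j + 1)) ?_
      exact (summable_nat_add_iff 1).2 (summable_geometric_of_lt_one (by norm_num) (by norm_num)))
    (fun j t ht => (hst (j + 1)).close t ht)
  have hcn : ∀ n, Cnt (A n) := fun n => h969.GS.LSol.cnt (htg n).toLSol
  have hbc : ∀ k, ContinuousOn (fun t => b t k) (Ioi 0) := by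
    intro k t ht
    have ht' : 0 < t := ht
    have h1 := ((hb (t / 2) (by positivity)).der (t / 2) (by positivity) k).continuousWithinAt
    have h2 : ContinuousWithinAt (fun s => b s k) (Ici (t / 2)) t := by
      have h3 : ContinuousWithinAt (fun s => (fun s => b (s + t / 2) k) (s - t / 2))
          (Ici (t / 2)) t := by
        refine ContinuousWithinAt.comp (t := Ici 0) (g := fun s => b (s + t / 2) k) ?_
          ((continuous_id.sub continuous_const).continuousWithinAt) fun s hs => ?_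
        · rw [show t - t / 2 = t / 2 by ring]
          exact h1
        · have : t / 2 ≤ s := hs
          simp only [mem_Ici]
          linarith
      refine h3.congr (fun s _ => ?_) ?_ <;> simp
    exact (h2.continuousAt (Ici_mem_nhds (by linarith))).continuousWithinAt
  have hbm : ∀ k, AEMeasurable (fun t => ENNReal.ofReal ‖b t k‖)
      (volume.restrict (Ioc (0 : ℝ) 1)) := fun k =>
    ENNReal.measurable_ofReal.comp_aemeasurable
      (ContinuousOn.aemeasurable ((hbc k).norm.mono fun t ht => ht.1) measurableSet_Ioc)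
  have hSm : ∀ n, AEMeasurable (fun t => Sd (A (n + 1) t) (A n t))
      (volume.restrict (Ioc (0 : ℝ) 1)) := fun n => Sd_meas (hcn _) (hcn _)
  have hsm : Measurable fun t : ℝ => ENNReal.ofReal (Real.sqrt t) :=
    ENNReal.measurable_ofReal.comp Real.continuous_sqrt.measurable
  -- bounds of the members
  have hbd : ∀ n, ∃ M : ℝ, 0 ≤ M ∧ ∀ t, 0 ≤ t → ∀ B : Finset K3, ∑ k ∈ B, ‖A n t k‖ ≤ M := by
    intro n
    obtain ⟨M, hM'⟩ := (htg n).bd
    exact ⟨M, by simpa using hM' 0 le_rfl ∅, hM'⟩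
  choose M hM0 hMn using hbd
  have hsumb : ∀ J t, 0 < t → ∑' k, ENNReal.ofReal ‖b t k‖
      ≤ ENNReal.ofReal (M J) + ∑' i, Sd (A (J + i + 1) t) (A (J + i) t) := fun J t ht =>
    sum_le (hlim t ht) (hMn J t ht.le)
  -- a common bound of the square means
  set ρ₂ : ℝ≥0∞ := ENNReal.ofReal (1 / 2) ^ (1 / (2 : ℝ)) with hρ₂
  have hρ₂1 : ρ₂ < 1 := rho_lt (by norm_num)
  have hAl0 : ∀ n, L1 (A n 0) := fun n => Maj.l1 (htg n).maj le_rfl
  have hstep : ∀ n, ∫⁻ t in Ioc (0 : ℝ) 1, Sq2 (A (n + 2) t) (A (n + 1) t)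
      ≤ ENNReal.ofReal Kl * ENNReal.ofReal ((1 / 2) ^ n) := by
    intro n
    refine (hl2 (n + 1)).trans ?_
    rw [← ENNReal.ofReal_mul hKl0]
    refine ENNReal.ofReal_le_ofReal (mul_le_mul_of_nonneg_left ?_ hKl0)
    calc ((1 : ℝ) / 4) ^ (n + 1) ≤ (1 / 4) ^ n :=
          pow_le_pow_of_le_one (by norm_num) (by norm_num) (Nat.le_succ n)
      _ ≤ (1 / 2) ^ n := pow_le_pow_left₀ (by norm_num) (by norm_num) n
  set g : ℕ → ℝ → ℝ≥0∞ := fun i t =>
    l2n (fun k => ENNReal.ofReal ‖A (i + 2) t k - A (i + 1) t k‖) with hg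
  have hgm : ∀ i, AEMeasurable (g i) (volume.restrict (Ioc (0 : ℝ) 1)) := fun i =>
    (AEMeasurable.tsum fun k => (Sq2_meas (hcn _) (hcn _) k).pow_const 2).pow_const _
  have hgq : ∀ i, Nq (volume.restrict (Ioc (0 : ℝ) 1)) 2 (g i)
      ≤ ENNReal.ofReal Kl ^ (1 / (2 : ℝ)) * ρ₂ ^ i := by
    intro i
    rw [Nq]
    have e1 : ∀ t, g i t ^ (2 : ℝ) = Sq2 (A (i + 2) t) (A (i + 1) t) := fun t => l2n_sq _
    simp_rw [e1]
    refine (ENNReal.rpow_le_rpow (hstep i) (by norm_num)).trans (le_of_eq ?_)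
    rw [ENNReal.mul_rpow_of_nonneg _ _ (by norm_num), ofReal_half_pow_rpow]
  set G₂ : ℝ → ℝ≥0∞ := fun t => ENNReal.ofReal (M 1) + ∑' i, g i t with hG₂
  have hG₂m : AEMeasurable G₂ (volume.restrict (Ioc (0 : ℝ) 1)) :=
    aemeasurable_const.add (AEMeasurable.tsum hgm)
  have hG₂fin : Nq (volume.restrict (Ioc (0 : ℝ) 1)) 2 G₂ < ⊤ := by
    calc Nq (volume.restrict (Ioc (0 : ℝ) 1)) 2 G₂
        ≤ Nq (volume.restrict (Ioc (0 : ℝ) 1)) 2 (fun _ => ENNReal.ofReal (M 1))
          + ∑' i, Nq (volume.restrict (Ioc (0 : ℝ) 1)) 2 (g i) :=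
          (Nq_add (by norm_num) aemeasurable_const (AEMeasurable.tsum hgm)).trans
            (add_le_add le_rfl (Nq_tsum (by norm_num) hgm))
      _ ≤ Nq (volume.restrict (Ioc (0 : ℝ) 1)) 2 (fun _ => ENNReal.ofReal (M 1))
          + ∑' i : ℕ, ENNReal.ofReal Kl ^ (1 / (2 : ℝ)) * ρ₂ ^ i :=
          add_le_add le_rfl (ENNReal.tsum_le_tsum hgq)
      _ < ⊤ := by
          refine ENNReal.add_lt_top.2 ⟨?_, (rho_sum hρ₂1 ?_).lt_top⟩
          · rw [Nq, lintegral_const, Measure.restrict_apply_univ, Real.volume_Ioc]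
            refine ENNReal.rpow_lt_top_of_nonneg (by norm_num) (ENNReal.mul_ne_top ?_
              ENNReal.ofReal_ne_top)
            exact ENNReal.rpow_ne_top_of_nonneg (by norm_num) ENNReal.ofReal_ne_top
          · exact ENNReal.rpow_ne_top_of_nonneg (by norm_num) ENNReal.ofReal_ne_top
  have hG₂sq : ∫⁻ s in Ioc (0 : ℝ) 1, G₂ s ^ (2 : ℝ) ≠ ⊤ := by
    rw [Nq] at hG₂fin
    exact ((ENNReal.rpow_lt_top_iff_of_pos (by norm_num)).1 hG₂fin).ne
  have hM1 : ∀ t, 0 < t → ∑' k, ENNReal.ofReal ‖A 1 t k‖ ≤ ENNReal.ofReal (M 1) := by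
    intro t ht
    refine ENNReal.summable.tsum_le_of_sum_le fun B => ?_
    rw [← ENNReal.ofReal_sum_of_nonneg fun k _ => norm_nonneg _]
    exact ENNReal.ofReal_le_ofReal (hMn 1 t ht.le B)
  have hEn : ∀ j t, 0 < t → En (A (j + 1) t) ≤ G₂ t ^ (2 : ℝ) := by
    intro j t ht
    have h1 : l2n (fun k => ENNReal.ofReal ‖A (j + 1) t k‖)
        ≤ ENNReal.ofReal (M 1) + ∑ i ∈ Finset.range j, g i t := by
      induction j with
      | zero =>
        rw [Finset.range_zero, Finset.sum_empty, add_zero]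
        exact (l2n_le_sum _).trans (hM1 t ht)
      | succ j ih =>
        rw [Finset.sum_range_succ, ← add_assoc]
        calc l2n (fun k => ENNReal.ofReal ‖A (j + 1 + 1) t k‖)
            ≤ l2n (fun k => ENNReal.ofReal ‖A (j + 1) t k‖
              + ENNReal.ofReal ‖A (j + 2) t k - A (j + 1) t k‖) := by
              refine l2n_mono fun k => ?_
              rw [← ENNReal.ofReal_add (norm_nonneg _) (norm_nonneg _)]
              refine ENNReal.ofReal_le_ofReal ?_
              have e := norm_add_le (A (j + 1) t k) (A (j + 2) t k - A (j + 1) t k)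
              rwa [add_sub_cancel] at e
          _ ≤ l2n (fun k => ENNReal.ofReal ‖A (j + 1) t k‖) + g j t := l2n_add _ _
          _ ≤ _ := add_le_add ih le_rfl
    have h2 : l2n (fun k => ENNReal.ofReal ‖A (j + 1) t k‖) ≤ G₂ t :=
      h1.trans (add_le_add le_rfl (ENNReal.sum_le_tsum _))
    calc En (A (j + 1) t) = l2n (fun k => ENNReal.ofReal ‖A (j + 1) t k‖) ^ (2 : ℝ) :=
          (l2n_sq _).symm
      _ ≤ G₂ t ^ (2 : ℝ) := ENNReal.rpow_le_rpow h2 (by norm_num)
  -- the variation of the coefficients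
  set Φ : ℝ → ℝ≥0∞ := fun t => ∫⁻ s in Ioc 0 t, (1 + G₂ s ^ (2 : ℝ)) ∂(volume.restrict (Ioc 0 1))
    with hΦ
  have htot : ∫⁻ s in Ioc (0 : ℝ) 1, (1 + G₂ s ^ (2 : ℝ)) ≠ ⊤ := by
    rw [lintegral_add_left measurable_const]
    refine ENNReal.add_ne_top.2 ⟨?_, hG₂sq⟩
    rw [lintegral_const, Measure.restrict_apply_univ, Real.volume_Ioc]
    exact ENNReal.mul_ne_top ENNReal.one_ne_top ENNReal.ofReal_ne_top
  have hΦ0 : Tendsto Φ (𝓝[>] 0) (𝓝 0) := by
    refine tendsto_setLIntegral_zero htot ?_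
    have h1 : Tendsto (fun t : ℝ => ENNReal.ofReal (t - 0)) (𝓝[>] 0) (𝓝 0) := by
      have h2 : Tendsto (fun t : ℝ => ENNReal.ofReal (t - 0)) (𝓝 0) (𝓝 (ENNReal.ofReal (0 - 0))) :=
        (ENNReal.continuous_ofReal.comp (continuous_id.sub continuous_const)).tendsto 0
      rw [sub_zero, ENNReal.ofReal_zero] at h2
      exact h2.mono_left nhdsWithin_le_nhds
    refine tendsto_of_tendsto_of_tendsto_of_le_of_le tendsto_const_nhds h1 (fun _ => zero_le) ?_
    intro t
    show volume.restrict (Ioc (0 : ℝ) 1) (Ioc 0 t) ≤ _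
    refine (Measure.restrict_apply_le _ _).trans ?_
    rw [Real.volume_Ioc]
  have hΦ1 : ∀ t, t ≤ 1 → Φ t = ∫⁻ s in Ioc 0 t, (1 + G₂ s ^ (2 : ℝ)) := by
    intro t ht
    rw [hΦ]
    simp only
    rw [Measure.restrict_restrict measurableSet_Ioc,
      inter_eq_left.2 (Ioc_subset_Ioc_right ht)]
  have hΦle : ∀ t, Φ t ≤ ∫⁻ s in Ioc (0 : ℝ) 1, (1 + G₂ s ^ (2 : ℝ)) := fun t =>
    setLIntegral_le_lintegral _ _
  have hAz : ∀ k, Tendsto (fun j => A (j + 1) 0 k) atTop (𝓝 (c k)) := by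
    intro k
    have hp : Tendsto (fun j : ℕ => ((1 : ℝ) / 2) ^ j) atTop (𝓝 0) :=
      tendsto_pow_atTop_nhds_zero_of_lt_one (by norm_num) (by norm_num)
    have h1 : Tendsto (fun j => z j k) atTop (𝓝 (c k)) := hzc k
    have h2 : Tendsto (fun j => A (j + 1) 0 k - z j k) atTop (𝓝 0) := by
      rw [tendsto_zero_iff_norm_tendsto_zero]
      have h3 : ∀ j, ‖A (j + 1) 0 k - z j k‖ ≤ 6 * Real.pi * len k * Ka * (1 / 2) ^ j := by
        intro j
        have h4 : L1 (A (j + 1) 0 - z j) := (hAl0 _).sub (hzl _)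
        have h5 : Dv (A (j + 1) 0 - z j) := by
          intro l
          have h6 := (hst j).csol.div 0 le_rfl l
          have h7 := hzd j l
          rw [Pi.sub_apply, sub_eq_add_neg, kd_add, h6, zero_add]
          rw [show -z j l = (-1 : ℂ) • z j l by rw [neg_one_smul], kd_smul, h7, mul_zero]
        have h6 : (A (j + 1) 0 - z j) 0 = 0 := by
          rw [Pi.sub_apply, (hst j).csol.zero 0 le_rfl, hz0, sub_zero]
        refine (coef_al (l1_div h4) h5 h6 k).trans ?_
        have h7 := len_nonneg k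
        have h8 := Real.pi_pos
        rw [mul_assoc (6 * Real.pi * len k)]
        exact mul_le_mul_of_nonneg_left (hal j) (by positivity)
      refine squeeze_zero (fun _ => norm_nonneg _) h3 ?_
      have := hp.const_mul (6 * Real.pi * len k * Ka)
      rwa [mul_zero] at this
    have h3 := h2.add h1
    rw [zero_add] at h3
    refine h3.congr fun j => ?_
    rw [sub_add_cancel]
  have key : ∀ t, 0 < t → t ≤ 1 → ∀ k,
      ENNReal.ofReal ‖b t k - c k‖ ≤ ENNReal.ofReal (kc ν k) * Φ t := by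
    intro t ht ht1 k
    have h1 : Tendsto (fun j => ENNReal.ofReal ‖A (j + 1) t k - A (j + 1) 0 k‖) atTop
        (𝓝 (ENNReal.ofReal ‖b t k - c k‖)) :=
      (ENNReal.continuous_ofReal.tendsto _).comp (((hlim t ht k).sub (hAz k)).norm)
    refine le_of_tendsto' h1 fun j => ?_
    refine (coef_le hν (htg (j + 1)).toLSol ht.le k).trans ?_
    refine mul_le_mul' le_rfl ?_
    rw [hΦ1 t ht1]
    refine setLIntegral_mono' measurableSet_Ioc fun s hs => ?_
    exact add_le_add le_rfl (hEn j s hs.1)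
  refine ⟨b, hb, ?_, ?_, ?_, ?_, ?_, ?_, ?_, ?_, ?_⟩
  · -- the limits of the coefficients
    intro k
    rw [tendsto_iff_norm_sub_tendsto_zero]
    have h1 : Tendsto (fun t => ENNReal.ofReal (kc ν k) * Φ t) (𝓝[>] 0) (𝓝 0) := by
      have := ENNReal.Tendsto.const_mul (a := ENNReal.ofReal (kc ν k)) hΦ0
        (Or.inr ENNReal.ofReal_ne_top)
      rwa [mul_zero] at this
    have h2 : Tendsto (fun t => ENNReal.ofReal ‖b t k - c k‖) (𝓝[>] 0) (𝓝 0) := by
      refine tendsto_of_tendsto_of_tendsto_of_le_of_le' tendsto_const_nhds h1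
        (Eventually.of_forall fun _ => zero_le) ?_
      filter_upwards [self_mem_nhdsWithin, nhdsWithin_le_nhds (ge_mem_nhds one_pos)] with t ht ht1
      exact key t ht ht1 k
    have h3 := (ENNReal.tendsto_toReal ENNReal.zero_ne_top).comp h2
    rw [ENNReal.toReal_zero] at h3
    refine h3.congr fun t => ?_
    exact ENNReal.toReal_ofReal (norm_nonneg _)
  · -- the bound of the coefficients
    set Ψ : ℝ := (∫⁻ s in Ioc (0 : ℝ) 1, (1 + G₂ s ^ (2 : ℝ))).toReal with hΨ
    have hΨ0 : 0 ≤ Ψ := ENNReal.toReal_nonneg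
    set E : ℝ := 24 * Real.pi * Kr with hE
    have hE0 : 0 ≤ E := by positivity
    have hck : ∀ k, ‖c k‖ ≤ len k * E := by
      intro k
      refine le_of_tendsto' (hzc k).norm fun n => (hzb n k).trans (le_of_eq ?_)
      rw [hE]
      ring
    have hpi := Real.pi_pos
    refine ⟨E + (4 * Real.pi ^ 2 * ν + 24 * Real.pi) * Ψ, fun t ht ht1 k => ?_⟩
    have h1 := (key t ht ht1 k).trans (mul_le_mul' le_rfl (hΦle t))
    have h2 : ‖b t k - c k‖ ≤ kc ν k * Ψ := by
      rw [← ENNReal.ofReal_toReal htot, ← hΨ, ← ENNReal.ofReal_mul (kc_nonneg hν k)] at h1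
      exact (ENNReal.ofReal_le_ofReal_iff (mul_nonneg (kc_nonneg hν k) hΨ0)).1 h1
    have hl := len_nonneg k
    have h3 : kc ν k ≤ (4 * Real.pi ^ 2 * ν + 24 * Real.pi) * (1 + len k) ^ 2 := by
      have e : kc ν k = 4 * Real.pi ^ 2 * ν * len k ^ 2 + 24 * Real.pi * len k := by
        rw [kc, lam, len_sq]
      rw [e, add_mul]
      have e1 : len k ^ 2 ≤ (1 + len k) ^ 2 := by gcongr; linarith
      have e2 : len k ≤ (1 + len k) ^ 2 := by nlinarith
      gcongr
    have h4 : ‖b t k‖ ≤ ‖c k‖ + ‖b t k - c k‖ := by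
      have := norm_add_le (c k) (b t k - c k)
      rwa [add_sub_cancel] at this
    have h5 : len k * E ≤ E * (1 + len k) ^ 2 := by
      have e2 : len k ≤ (1 + len k) ^ 2 := by nlinarith
      rw [mul_comm]
      gcongr
    calc ‖b t k‖ ≤ ‖c k‖ + ‖b t k - c k‖ := h4
      _ ≤ E * (1 + len k) ^ 2 + (4 * Real.pi ^ 2 * ν + 24 * Real.pi) * (1 + len k) ^ 2 * Ψ := by
          refine add_le_add ((hck k).trans h5) (h2.trans ?_)
          gcongr
      _ = _ := by ring
  · -- the Besov norms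
    intro hs
    have hzε : ∀ n, ∑' k, ‖c k - z n k‖ ≤ (1 / 2) ^ n := fun n => by
      simp_rw [norm_sub_rev (c _)]
      exact hq.wie hs n
    have hzs : ∀ n, Summable fun k => ‖c k - z n k‖ := fun n =>
      L1.sub (a := c) hs (hzl n)
    have hcon : ∀ n, Tendsto (fun t => ∑' k, ENNReal.ofReal ‖A n t k - A n 0 k‖) (𝓝[>] 0)
        (𝓝 0) := by
      intro n
      have hm : Maj (fun t => A n t - A n 0) := by
        refine Maj.sub (htg n).maj ?_
        intro m T
        obtain ⟨B, hB, h⟩ := (htg n).maj m 0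
        exact ⟨B, hB, fun t _ k => h 0 ⟨le_rfl, le_rfl⟩ k⟩
      have hcn' : Cnt (fun t => A n t - A n 0) := Cnt.sub (hcn n) fun k => continuousOn_const
      have h1 := (hm.cont hcn' wt_one) 0 (by simp)
      have h2 : Tendsto (fun t => ENNReal.ofReal (GS.W (fun _ => 1) (A n t - A n 0))) (𝓝[>] 0)
          (𝓝 0) := by
        have h3 : GS.W (fun _ => 1) (A n 0 - A n 0) = 0 := by
          rw [GS.W]
          simp
        have h4 : Tendsto (fun t => GS.W (fun _ => 1) (A n t - A n 0)) (𝓝[>] 0) (𝓝 0) := by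
          have h5 := (ContinuousWithinAt.mono h1 (Ioi_subset_Ici_self)).tendsto
          rwa [h3] at h5
        have := (ENNReal.continuous_ofReal.tendsto 0).comp h4
        rwa [ENNReal.ofReal_zero] at this
      refine h2.congr' ?_
      filter_upwards [self_mem_nhdsWithin] with t ht0
      have ht0' : (0 : ℝ) ≤ t := (show (0 : ℝ) < t from ht0).le
      have hl : Summable fun k => ‖A n t k - A n 0 k‖ := hm.l1 ht0'
      rw [GS.W, ← ENNReal.ofReal_tsum_of_nonneg (fun k => norm_nonneg _) hl]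
      congr 1
      exact tsum_congr fun k => by rw [one_mul, Pi.sub_apply]
    have h1 := besov hφ hlim hsg hε1 hzs hzε hc0 hz0 (fun n t ht => (htg n).zero t ht) hcon
    refine h1.congr fun t => ?_
    exact (besGC_eq hφ _ fun k => norm_nonneg _).symm
  · -- the pointwise decay
    have e0 : ∀ t, Real.sqrt t * ∑' k, ‖b t k‖
        = (ENNReal.ofReal (Real.sqrt t) * ∑' k, ENNReal.ofReal ‖b t k‖).toReal := by
      intro t
      rw [ENNReal.toReal_mul, ENNReal.toReal_ofReal (Real.sqrt_nonneg _),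
        ENNReal.tsum_toReal_eq fun k => ENNReal.ofReal_ne_top]
      congr 1
      exact tsum_congr fun k => (ENNReal.toReal_ofReal (norm_nonneg _)).symm
    simp_rw [e0]
    rw [← ENNReal.toReal_zero]
    refine (ENNReal.tendsto_toReal ENNReal.zero_ne_top).comp ?_
    rw [ENNReal.tendsto_nhds_zero]
    intro η hη
    have hη2 : 0 < η / 2 := ENNReal.div_pos hη.ne' (by simp)
    have hεs : ∑' n : ℕ, ENNReal.ofReal (ε n) ≠ ⊤ := by
      rw [← ENNReal.ofReal_tsum_of_nonneg (fun n => (hε0 n).le)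
        (Summable.of_nonneg_of_le (fun n => (hε0 n).le) hε1
          (summable_geometric_of_lt_one (by norm_num) (by norm_num)))]
      exact ENNReal.ofReal_ne_top
    obtain ⟨J, hJ⟩ := ((ENNReal.tendsto_nhds_zero.1 (ENNReal.tendsto_sum_nat_add _ hεs))
      (η / 2) hη2).exists
    have h1 : Tendsto (fun t : ℝ => ENNReal.ofReal (Real.sqrt t) * ENNReal.ofReal (M J))
        (𝓝[>] 0) (𝓝 0) := by
      have h2 : Tendsto (fun t : ℝ => ENNReal.ofReal (Real.sqrt t)) (𝓝 0)
          (𝓝 (ENNReal.ofReal (Real.sqrt 0))) :=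
        (ENNReal.continuous_ofReal.comp Real.continuous_sqrt).tendsto 0
      rw [Real.sqrt_zero, ENNReal.ofReal_zero] at h2
      have h3 := ENNReal.Tendsto.mul_const (b := ENNReal.ofReal (M J)) h2
        (Or.inr ENNReal.ofReal_ne_top)
      rw [zero_mul] at h3
      exact h3.mono_left nhdsWithin_le_nhds
    filter_upwards [(ENNReal.tendsto_nhds_zero.1 h1) (η / 2) hη2, self_mem_nhdsWithin]
      with t ht ht0
    have ht0' : 0 < t := ht0
    have hst' : 0 < Real.sqrt t := Real.sqrt_pos.2 ht0'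
    calc ENNReal.ofReal (Real.sqrt t) * ∑' k, ENNReal.ofReal ‖b t k‖
        ≤ ENNReal.ofReal (Real.sqrt t)
          * (ENNReal.ofReal (M J) + ∑' i, Sd (A (J + i + 1) t) (A (J + i) t)) :=
          mul_le_mul' le_rfl (hsumb J t ht0')
      _ = ENNReal.ofReal (Real.sqrt t) * ENNReal.ofReal (M J)
          + ∑' i, ENNReal.ofReal (Real.sqrt t) * Sd (A (J + i + 1) t) (A (J + i) t) := by
          rw [mul_add, ENNReal.tsum_mul_left]
      _ ≤ η / 2 + ∑' i, ENNReal.ofReal (ε (i + J)) := by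
          refine add_le_add ht (ENNReal.tsum_le_tsum fun i => ?_)
          calc ENNReal.ofReal (Real.sqrt t) * Sd (A (J + i + 1) t) (A (J + i) t)
              ≤ ENNReal.ofReal (Real.sqrt t) * ENNReal.ofReal (ε (J + i) / Real.sqrt t) :=
                mul_le_mul' le_rfl ((hst (J + i)).pt t ht0')
            _ = ENNReal.ofReal (ε (i + J)) := by
                rw [← ENNReal.ofReal_mul hst'.le, mul_div_cancel₀ _ hst'.ne', add_comm]
      _ ≤ η / 2 + η / 2 := add_le_add le_rfl hJ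
      _ = η := ENNReal.add_halves η
  · -- the gauge integral in time
    set G : ℝ → ℝ≥0∞ := fun t => ENNReal.ofReal (Real.sqrt t) * ∑' k, ENNReal.ofReal ‖b t k‖
      with hG
    have hGm : AEMeasurable G (volume.restrict (Ioc (0 : ℝ) 1)) :=
      hsm.aemeasurable.mul (AEMeasurable.tsum hbm)
    set Y : ℕ → ℝ → ℝ≥0∞ := fun n t => ENNReal.ofReal (Real.sqrt t) * Sd (A (n + 1) t) (A n t)
      with hY
    have hYm : ∀ n, AEMeasurable (Y n) mu1 := fun n => aem_mu1 (hsm.aemeasurable.mul (hSm n))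
    have hYε : ∀ n, ∀ᵐ t ∂mu1, Y n t ≤ ENNReal.ofReal (ε n) := by
      intro n
      refine mu1_ae fun t ht => ?_
      have hss := Real.sqrt_pos.2 ht.1
      calc Y n t ≤ ENNReal.ofReal (Real.sqrt t) * ENNReal.ofReal (ε n / Real.sqrt t) :=
            mul_le_mul' le_rfl ((hst n).pt t ht.1)
        _ = ENNReal.ofReal (ε n) := by
            rw [← ENNReal.ofReal_mul hss.le, mul_div_cancel₀ _ hss.ne']
    obtain ⟨hf, htail⟩ := tail_le hφ hYm hYε hε1 (fun n => (hsg n).time) 0
    have hfin : ∫⁻ t, Ph φ (G t) ∂mu1 < ⊤ := by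
      have h1 : ∀ᵐ t ∂mu1, Ph φ (G t)
          ≤ Ph φ (2 * (ENNReal.ofReal (Real.sqrt t) * ENNReal.ofReal (M 0)))
            + Ph φ (∑' i, 6 * Y (0 + i) t) := by
        filter_upwards [hf, mu1_ae (p := fun t => 0 < t) fun t ht => ht.1] with t ht ht0
        have h2 : G t ≤ ENNReal.ofReal (Real.sqrt t) * ENNReal.ofReal (M 0)
            + ∑' i, Y (0 + i) t := by
          rw [hG, hY]
          simp only
          rw [ENNReal.tsum_mul_left, ← mul_add]
          refine mul_le_mul' le_rfl ((hsumb 0 t ht0).trans (le_of_eq ?_))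
          rfl
        have e6Y : ∑' i, 6 * Y (0 + i) t = 6 * ∑' i, Y (0 + i) t := ENNReal.tsum_mul_left
        have h3 : 2 * ∑' i, Y (0 + i) t ≤ ∑' i, 6 * Y (0 + i) t := by
          rw [e6Y]
          have e26 : (2 : ℝ≥0∞) ≤ 6 := by
            have e2 : (2 : ℝ≥0∞) = ENNReal.ofReal 2 := by norm_num
            have e6 : (6 : ℝ≥0∞) = ENNReal.ofReal 6 := by norm_num
            rw [e2, e6]
            exact ENNReal.ofReal_le_ofReal (by norm_num)
          exact mul_le_mul' e26 le_rfl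
        have h4 : ∑' i, Y (0 + i) t ≠ ⊤ := by
          intro h
          rw [e6Y, h] at ht
          exact ht (by simp)
        have h5 : ENNReal.ofReal (Real.sqrt t) * ENNReal.ofReal (M 0) ≠ ⊤ :=
          ENNReal.mul_ne_top ENNReal.ofReal_ne_top ENNReal.ofReal_ne_top
        exact ((Ph_mono hφ h2 (ENNReal.add_ne_top.2 ⟨h5, h4⟩)).trans (Ph_add hφ h5 h4)).trans
          (add_le_add le_rfl (Ph_mono hφ h3 ht))
      have h6 : AEMeasurable (fun t => Ph φ (∑' i, 6 * Y (0 + i) t)) mu1 :=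
        (Ph_meas hφ).comp_aemeasurable (AEMeasurable.tsum fun i => (hYm _).const_mul _)
      refine lt_of_le_of_lt (lintegral_mono_ae h1) ?_
      rw [lintegral_add_right' _ h6]
      exact ENNReal.add_lt_top.2 ⟨(const_mu1 hφ (hM0 0)).lt_top,
        lt_of_le_of_lt htail ENNReal.ofReal_lt_top⟩
    have hPG : AEMeasurable (fun t => Ph φ (G t)) (volume.restrict (Ioc (0 : ℝ) 1)) :=
      (Ph_meas hφ).comp_aemeasurable hGm
    rw [lintegral_mu1 hPG] at hfin
    have e0 : ∀ t, Real.sqrt t * ∑' k, ‖b t k‖ = (G t).toReal := by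
      intro t
      rw [hG]
      simp only
      rw [ENNReal.toReal_mul, ENNReal.toReal_ofReal (Real.sqrt_nonneg _),
        ENNReal.tsum_toReal_eq fun k => ENNReal.ofReal_ne_top]
      congr 1
      exact tsum_congr fun k => (ENNReal.toReal_ofReal (norm_nonneg _)).symm
    simp_rw [e0]
    have hmeas : AEMeasurable (fun t => φ (G t).toReal / t) (volume.restrict (Ioc (0 : ℝ) 1)) := by
      have h1 : AEMeasurable (fun t => φ (max (G t).toReal 0)) (volume.restrict (Ioc (0 : ℝ) 1)) :=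
        hφ.cont.measurable.comp_aemeasurable hGm.ennreal_toReal
      have h2 : (fun t => φ (max (G t).toReal 0)) = fun t => φ (G t).toReal := by
        funext t
        rw [max_eq_left ENNReal.toReal_nonneg]
      rw [h2] at h1
      exact h1.div measurable_id.aemeasurable
    refine ⟨hmeas.aestronglyMeasurable, ?_⟩
    rw [HasFiniteIntegral]
    refine lt_of_le_of_lt ?_ hfin
    refine setLIntegral_mono' measurableSet_Ioc fun t ht => ?_
    have ht0 : 0 < t := ht.1
    rw [Real.enorm_eq_ofReal (div_nonneg (hφ.nonneg _ ENNReal.toReal_nonneg) ht0.le),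
      ENNReal.ofReal_div_of_pos ht0]
    exact le_rfl
  · -- the moments
    intro i
    exact moments hq hC₀ hν hlim i
  · -- the norm in `L²`
    set N : ℝ → ℝ≥0∞ := fun t => l2n (fun k => ENNReal.ofReal ‖b t k‖) with hN
    have hNle : ∀ t, 0 < t → N t ≤ G₂ t := by
      intro t ht
      calc N t ≤ l2n (fun k => ENNReal.ofReal ‖A 1 t k‖
            + ∑' i, ENNReal.ofReal ‖A (i + 2) t k - A (i + 1) t k‖) := by
            refine l2n_mono fun k => ?_
            have h2 := tri (b t k) (A 1 t k) 0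
            rw [sub_zero, sub_zero, add_comm] at h2
            refine h2.trans (add_le_add le_rfl ?_)
            refine (tel (hlim t ht) 1 k).trans (le_of_eq ?_)
            refine tsum_congr fun i => ?_
            rw [show 1 + i + 1 = i + 2 by omega, show 1 + i = i + 1 by omega]
        _ ≤ l2n (fun k => ENNReal.ofReal ‖A 1 t k‖)
            + l2n (fun k => ∑' i, ENNReal.ofReal ‖A (i + 2) t k - A (i + 1) t k‖) :=
            l2n_add _ _
        _ ≤ ENNReal.ofReal (M 1) + ∑' i, g i t :=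
            add_le_add ((l2n_le_sum _).trans (hM1 t ht)) (l2n_tsum _)
    have hNm : AEMeasurable (fun t => ∑' k, ENNReal.ofReal ‖b t k‖ ^ (2 : ℝ))
        (volume.restrict (Ioc (0 : ℝ) 1)) := AEMeasurable.tsum fun k => (hbm k).pow_const 2
    have hfin : Nq (volume.restrict (Ioc (0 : ℝ) 1)) 2 N < ⊤ := by
      refine lt_of_le_of_lt (Nq_mono (by norm_num) ?_) hG₂fin
      filter_upwards [self_mem_ae_restrict measurableSet_Ioc] with t ht
      exact hNle t ht.1
    rw [Nq] at hfin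
    have hfin2 := (ENNReal.rpow_lt_top_iff_of_pos (by norm_num)).1 hfin
    have e1 : ∀ t, N t ^ (2 : ℝ) = ∑' k, ENNReal.ofReal ‖b t k‖ ^ (2 : ℝ) := fun t => l2n_sq _
    simp_rw [e1] at hfin2
    have e2 : ∀ x : ℝ, 0 ≤ x → ENNReal.ofReal x ^ (2 : ℝ) = ENNReal.ofReal (x ^ 2) := by
      intro x hx
      rw [ENNReal.ofReal_rpow_of_nonneg hx (by norm_num), Real.rpow_two]
    have e0 : ∀ t, ∑' k, ‖b t k‖ ^ 2 = (∑' k, ENNReal.ofReal ‖b t k‖ ^ (2 : ℝ)).toReal := by
      intro t
      rw [ENNReal.tsum_toReal_eq fun k => ENNReal.rpow_ne_top_of_nonneg (by norm_num)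
        ENNReal.ofReal_ne_top]
      refine tsum_congr fun k => ?_
      rw [e2 _ (norm_nonneg _), ENNReal.toReal_ofReal (sq_nonneg _)]
    simp_rw [e0]
    exact integrable_toReal_of_lintegral_ne_top hNm hfin2.ne
  · -- the limit of admissible solutions
    exact ⟨_, _, limS hq hC₀ hν hlim hzb hKr0 hAz⟩
  · -- closeness
    intro t ht B
    have hnn : ∀ n, ∑ k ∈ B, ‖A n t k - U t k‖ ≤ ∑ i ∈ Finset.range n, ε i := by
      intro n
      induction n with
      | zero => simp [hA0]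
      | succ n ih =>
        rw [Finset.sum_range_succ]
        have h1 : ε n ≤ t := by
          refine (hε2 n).trans (le_trans ?_ ht)
          exact mul_le_of_le_one_right hδ.le (pow_le_one₀ (by norm_num) (by norm_num))
        calc ∑ k ∈ B, ‖A (n + 1) t k - U t k‖
            ≤ ∑ k ∈ B, (‖A (n + 1) t k - A n t k‖ + ‖A n t k - U t k‖) :=
              Finset.sum_le_sum fun k _ => norm_sub_le_norm_sub_add_norm_sub _ _ _
          _ = ∑ k ∈ B, ‖A (n + 1) t k - A n t k‖ + ∑ k ∈ B, ‖A n t k - U t k‖ :=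
              Finset.sum_add_distrib
          _ ≤ _ := by linarith [(hst n).close t h1 B]
    have hεs : ∀ n, ∑ i ∈ Finset.range n, ε i ≤ δ := by
      intro n
      calc ∑ i ∈ Finset.range n, ε i ≤ ∑ i ∈ Finset.range n, δ * (1 / 2) ^ (i + 1) :=
            Finset.sum_le_sum fun i _ => hε2 i
        _ = δ * (1 - (1 / 2) ^ n) := by
            rw [← Finset.mul_sum]
            congr 1
            induction n with
            | zero => simp
            | succ n ih =>
              rw [Finset.sum_range_succ, ih]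
              ring
        _ ≤ δ := by
            have : (0 : ℝ) ≤ (1 / 2) ^ n := by positivity
            nlinarith
    have hlim' : Tendsto (fun n => ∑ k ∈ B, ‖A (n + 1) t k - U t k‖) atTop
        (𝓝 (∑ k ∈ B, ‖b t k - U t k‖)) :=
      tendsto_finsetSum _ fun k _ =>
        ((hlim t (hδ.trans_le ht) k).sub tendsto_const_nhds).norm
    exact le_of_tendsto' hlim' fun n => (hnn (n + 1)).trans (hεs (n + 1))

end Pool.Agent.Run7.h744.WQ
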