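import Pool.Agent.Run7.h782.WQ.Defs4
import Pool.Agent.Run7.h219.WQ.NecA

/-!
Piece NecB: superpositions of heat kernels in `L^p`.
-/

set_option autoImplicit false

open MeasureTheory Set Filter Topology
open scoped ContDiff ENNReal ComplexConjugate

namespace Pool.Agent.Run7.h744.WQ

open H459R3.NS Pool.Agent.Run7.h782 Pool.Agent.Run7.h782.GD Pool.Agent.Run7.h782.GS
open Pool.Agent.Run7.h782.WS Pool.Agent.Run7.h782.WQ Pool.Agent.Run7.h219.WQ

theorem G_neg (ν τ : ℝ) (y : V) : G ν τ (-y) = G ν τ y := by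
  rw [G, G]
  congr 1
  unfold S
  rw [← (Equiv.neg K3).tsum_eq]
  refine tsum_congr fun k => ?_
  have e1 : ee (-k) (-y) = ee k y := by
    rw [ee, ee, ph_neg]
    congr 2
    simp [ph]
  have e2 : gc ν τ (-k) = gc ν τ k := by
    rw [gc, gc, lam, lam, sq_neg]
  show gc ν τ (-k) * ee (-k) (-y) = _
  rw [e1, e2]

theorem int_G' {ν τ : ℝ} (hν : 0 < ν) (hτ : 0 < τ) (x : V) :
    ∫ y in cube, G ν τ (x - y) = 1 := by
  rw [← int_G hν hτ x]
  refine integral_congr_ae (Eventually.of_forall fun y => ?_)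
  show G ν τ (x - y) = G ν τ (y - x)
  rw [← G_neg, neg_sub]

theorem lint_G {ν τ : ℝ} (hν : 0 < ν) (hτ : 0 < τ) (y : V) :
    ∫⁻ x in cube, ENNReal.ofReal (G ν τ (x - y)) = 1 := by
  have hc : Continuous fun x : V => G ν τ (x - y) := (G_cont hν hτ).comp (by fun_prop)
  rw [← ofReal_integral_eq_lintegral_ofReal (integrableOn_cube hc)
    (Eventually.of_forall fun x => G_nonneg hν hτ _), int_G hν hτ, ENNReal.ofReal_one]

theorem lint_G' {ν τ : ℝ} (hν : 0 < ν) (hτ : 0 < τ) (x : V) :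
    ∫⁻ y in cube, ENNReal.ofReal (G ν τ (x - y)) = 1 := by
  have hc : Continuous fun y : V => G ν τ (x - y) := (G_cont hν hτ).comp (by fun_prop)
  rw [← ofReal_integral_eq_lintegral_ofReal (integrableOn_cube hc)
    (Eventually.of_forall fun x => G_nonneg hν hτ _), int_G' hν hτ, ENNReal.ofReal_one]

theorem mu_eq (T : ℝ) : mu T = (volume.restrict (Ioo 0 T)).prod (volume.restrict cube) := by
  rw [mu, Measure.prod_restrict]
  rfl

/-- The norms of the slices. -/
noncomputable def Nt (p : ℝ) (w : ℝ × V → ℝ) (t : ℝ) : ℝ≥0∞ :=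
  (∫⁻ x in cube, ENNReal.ofReal (|w (t, x)| ^ p)) ^ (1 / p)

/-- The superposition with extended values. -/
noncomputable def mE (ν T : ℝ) (χ : ℝ → ℝ) (w : ℝ × V → ℝ) (x : V) : ℝ≥0∞ :=
  ∫⁻ z, ENNReal.ofReal |χ z.1| * (ENNReal.ofReal (G ν z.1 (x - z.2)) * ENNReal.ofReal |w z|) ∂(mu T)

section

variable {ν T : ℝ} (hν : 0 < ν) {χ : ℝ → ℝ} (hχ : Continuous χ)
  {w : ℝ × V → ℝ} (hw : Integrable w (mu T)) {p : ℝ}

include hw in
theorem wp_meas : AEMeasurable (fun z => ENNReal.ofReal (|w z| ^ p)) (mu T) :=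
  ENNReal.measurable_ofReal.comp_aemeasurable
    (hw.aestronglyMeasurable.aemeasurable.norm.pow_const p)

include hw in
theorem Nt_meas : AEMeasurable (Nt p w) (volume.restrict (Ioo 0 T)) := by
  have := cube_finite
  have h := wp_meas (p := p) hw
  rw [mu_eq] at h
  exact h.lintegral_prod_right'.pow_const _

theorem fst_qmp (T : ℝ) : Measure.QuasiMeasurePreserving (Prod.fst : ℝ × V → ℝ) (mu T)
    (volume.restrict (Ioo 0 T)) := by
  have := cube_finite
  rw [mu_eq]
  exact Measure.quasiMeasurePreserving_fst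

/-- Fubini's theorem for the kernel. -/
theorem swap_G (hν : 0 < ν) {b : ℝ × V → ℝ≥0∞} (hb : AEMeasurable b (mu T)) :
    ∫⁻ x in cube, ∫⁻ z, ENNReal.ofReal (G ν z.1 (x - z.2)) * b z ∂(mu T)
      = ∫⁻ z, b z ∂(mu T) := by
  have := cube_finite
  have hmem : ∀ᵐ z : ℝ × V ∂(mu T), z ∈ Ioo 0 T ×ˢ cube :=
    ae_restrict_mem (measurableSet_Ioo.prod measurableSet_Icc)
  have hgm : AEMeasurable (fun y : V × (ℝ × V) => ENNReal.ofReal (G ν y.2.1 (y.1 - y.2.2)))
      ((volume.restrict cube).prod (mu T)) :=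
    ENNReal.measurable_ofReal.comp_aemeasurable (G_meas hν).aemeasurable
  rw [lintegral_lintegral_swap (hgm.mul hb.comp_snd)]
  refine lintegral_congr_ae ?_
  filter_upwards [hmem] with z hz
  have hm : Measurable fun x : V => ENNReal.ofReal (G ν z.1 (x - z.2)) :=
    ENNReal.measurable_ofReal.comp ((G_cont hν hz.1.1).comp (by fun_prop)).measurable
  rw [lintegral_mul_const _ hm, lint_G hν hz.1.1, one_mul]

include hν hχ hw in
theorem mE_lp (hp : 1 < p) (hN : ∫⁻ t in Ioo 0 T, ENNReal.ofReal |χ t| * Nt p w t ≠ ⊤) {ε : ℝ≥0∞}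
    (hε : ε ≠ 0) (hε' : ε ≠ ⊤) :
    ∫⁻ x in cube, mE ν T χ w x ^ p
      ≤ (∫⁻ t in Ioo 0 T, ENNReal.ofReal |χ t| * (Nt p w t + ε)) ^ (p - 1)
        * ∫⁻ t in Ioo 0 T, ENNReal.ofReal |χ t| * Nt p w t := by
  have := cube_finite
  have hp0 : 0 < p := by linarith
  have hp1 : 0 < p - 1 := by linarith
  have hmem : ∀ᵐ z : ℝ × V ∂(mu T), z ∈ Ioo 0 T ×ˢ cube :=
    ae_restrict_mem (measurableSet_Ioo.prod measurableSet_Icc)
  set q : ℝ := p / (p - 1) with hq
  have hpq : p.HolderConjugate q := Real.HolderConjugate.conjExponent hp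
  have hq0 : 0 < q := hpq.symm.pos
  set X : ℝ → ℝ≥0∞ := fun t => ENNReal.ofReal |χ t| with hX
  have hXm : Measurable X := ENNReal.measurable_ofReal.comp hχ.abs.measurable
  have hXt : ∀ t, X t ≠ ⊤ := fun t => ENNReal.ofReal_ne_top
  -- the weight
  set a : ℝ → ℝ≥0∞ := fun t => Nt p w t + ε with ha
  have ham : AEMeasurable a (volume.restrict (Ioo 0 T)) := (Nt_meas hw).add_const _
  have ha0 : ∀ t, a t ≠ 0 := fun t => by
    rw [ha]
    simp [hε]
  have hafin : ∀ᵐ t ∂(volume.restrict (Ioo 0 T)), X t ≠ 0 → a t ≠ ⊤ := by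
    filter_upwards [ae_lt_top' ((hXm.aemeasurable).mul (Nt_meas hw)) hN] with t ht hX0
    refine ENNReal.add_ne_top.2 ⟨fun h => ?_, hε'⟩
    have ht' : X t * Nt p w t < ⊤ := ht
    rw [h, ENNReal.mul_top hX0] at ht'
    exact lt_irrefl _ ht'
  have hfst := fst_qmp T
  have hafin' : ∀ᵐ z ∂(mu T), X z.1 ≠ 0 → a z.1 ≠ ⊤ := hfst.ae hafin
  have ham' : AEMeasurable (fun z : ℝ × V => a z.1) (mu T) := ham.comp_quasiMeasurePreserving hfst
  have hXm' : AEMeasurable (fun z : ℝ × V => X z.1) (mu T) := (hXm.comp measurable_fst).aemeasurable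
  -- the kernel
  set g : V × (ℝ × V) → ℝ≥0∞ := fun y => ENNReal.ofReal (G ν y.2.1 (y.1 - y.2.2)) with hg
  have hgm : AEMeasurable g ((volume.restrict cube).prod (mu T)) :=
    ENNReal.measurable_ofReal.comp_aemeasurable (G_meas hν).aemeasurable
  have hgx : ∀ᵐ x ∂(volume.restrict cube), AEMeasurable (fun z => g (x, z)) (mu T) := by
    have h := hgm.aestronglyMeasurable.prodMk_left
    exact h.mono fun x hx => hx.aemeasurable
  set W : ℝ × V → ℝ≥0∞ := fun z => ENNReal.ofReal |w z| with hW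
  have hWm : AEMeasurable W (mu T) :=
    ENNReal.measurable_ofReal.comp_aemeasurable hw.aestronglyMeasurable.aemeasurable.norm
  have hWp : ∀ z, W z ^ p = ENNReal.ofReal (|w z| ^ p) := fun z => by
    rw [hW, ENNReal.ofReal_rpow_of_nonneg (abs_nonneg _) hp0.le]
  set b : ℝ × V → ℝ≥0∞ := fun z => X z.1 * (W z ^ p * a z.1 ^ (-(p - 1))) with hb
  have hbm : AEMeasurable b (mu T) := hXm'.mul ((hWm.pow_const _).mul (ham'.pow_const _))
  have hc : AEMeasurable (fun z : ℝ × V => X z.1 * a z.1) (mu T) := hXm'.mul ham'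
  have e4 : ∀ (r : ℝ), r ≠ 0 → ∀ (y : ℝ≥0∞), (y ^ (1 / r)) ^ r = y := fun r hr y => by
    rw [← ENNReal.rpow_mul, one_div_mul_cancel hr, ENNReal.rpow_one]
  have hinv : 1 / q + 1 / p = 1 := by
    have := hpq.inv_add_inv_eq_one
    rw [one_div, one_div, add_comm]
    exact this
  -- Hölder
  have key : ∀ᵐ x ∂(volume.restrict cube), mE ν T χ w x ^ p
      ≤ (∫⁻ t in Ioo 0 T, X t * a t) ^ (p - 1) * ∫⁻ z, g (x, z) * b z ∂(mu T) := by
    filter_upwards [hgx] with x hx
    have h2 : mE ν T χ w x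
        = ∫⁻ z, ((fun z => (g (x, z) * (X z.1 * a z.1)) ^ (1 / q)) *
          (fun z => (g (x, z) * b z) ^ (1 / p))) z ∂(mu T) := by
      refine lintegral_congr_ae ?_
      filter_upwards [hafin'] with z hz
      show X z.1 * (g (x, z) * W z) = (g (x, z) * (X z.1 * a z.1)) ^ (1 / q)
        * (g (x, z) * (X z.1 * (W z ^ p * a z.1 ^ (-(p - 1))))) ^ (1 / p)
      by_cases hX0 : X z.1 = 0
      · rw [hX0]
        simp [hq0, hp0]
      have hat := hz hX0
      have e1 : (-(p - 1)) * (1 / p) = -(1 / q) := by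
        have : 1 / q = 1 - 1 / p := by linarith
        rw [this]
        field_simp
      have h1q : (0 : ℝ) ≤ 1 / q := by positivity
      have h1p : (0 : ℝ) ≤ 1 / p := by positivity
      rw [ENNReal.mul_rpow_of_nonneg _ _ h1q, ENNReal.mul_rpow_of_nonneg _ _ h1q,
        ENNReal.mul_rpow_of_nonneg _ _ h1p, ENNReal.mul_rpow_of_nonneg _ _ h1p,
        ENNReal.mul_rpow_of_nonneg _ _ h1p, ← ENNReal.rpow_mul (a z.1),
        ← ENNReal.rpow_mul (W z), e1, mul_one_div_cancel hp0.ne', ENNReal.rpow_one]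
      have e2 : a z.1 ^ (1 / q) * a z.1 ^ (-(1 / q)) = 1 := by
        rw [← ENNReal.rpow_add _ _ (ha0 _) hat, add_neg_cancel, ENNReal.rpow_zero]
      have e3 : ∀ y : ℝ≥0∞, y ^ (1 / q) * y ^ (1 / p) = y := fun y => by
        rw [← ENNReal.rpow_add_of_nonneg _ _ h1q h1p, hinv, ENNReal.rpow_one]
      calc X z.1 * (g (x, z) * W z) = (X z.1 ^ (1 / q) * X z.1 ^ (1 / p))
            * ((g (x, z) ^ (1 / q) * g (x, z) ^ (1 / p)) * W z)
            * (a z.1 ^ (1 / q) * a z.1 ^ (-(1 / q))) := by rw [e2, e3, e3, mul_one]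
        _ = _ := by ring
    have h3 : mE ν T χ w x ≤ (∫⁻ z, ((g (x, z) * (X z.1 * a z.1)) ^ (1 / q)) ^ q ∂(mu T)) ^ (1 / q)
        * (∫⁻ z, ((g (x, z) * b z) ^ (1 / p)) ^ p ∂(mu T)) ^ (1 / p) :=
      h2.le.trans (ENNReal.lintegral_mul_le_Lp_mul_Lq (mu T) hpq.symm
        ((hx.mul hc).pow_const (1 / q)) ((hx.mul hbm).pow_const (1 / p)))
    have h4 : ∫⁻ z, g (x, z) * (X z.1 * a z.1) ∂(mu T) = ∫⁻ t in Ioo 0 T, X t * a t := by
      have hm : AEMeasurable (fun z : ℝ × V => g (x, z) * (X z.1 * a z.1)) (mu T) := hx.mul hc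
      rw [mu_eq] at hm
      rw [mu_eq, lintegral_prod _ hm]
      refine setLIntegral_congr_fun measurableSet_Ioo fun t ht => ?_
      have hmt : Measurable fun y : V => ENNReal.ofReal (G ν t (x - y)) :=
        ENNReal.measurable_ofReal.comp ((G_cont hν ht.1).comp (by fun_prop)).measurable
      show ∫⁻ y in cube, ENNReal.ofReal (G ν t (x - y)) * (X t * a t) = X t * a t
      rw [lintegral_mul_const _ hmt, lint_G' hν ht.1, one_mul]
    simp_rw [e4 q hq0.ne', e4 p hp0.ne'] at h3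
    rw [h4] at h3
    calc mE ν T χ w x ^ p
        ≤ ((∫⁻ t in Ioo 0 T, X t * a t) ^ (1 / q) * (∫⁻ z, g (x, z) * b z ∂(mu T)) ^ (1 / p)) ^ p :=
          ENNReal.rpow_le_rpow h3 hp0.le
      _ = _ := by
          rw [ENNReal.mul_rpow_of_nonneg _ _ hp0.le, e4 p hp0.ne', ← ENNReal.rpow_mul]
          congr 2
          rw [hq]
          field_simp
  have hgb : AEMeasurable (fun x => ∫⁻ z, g (x, z) * b z ∂(mu T)) (volume.restrict cube) :=
    (hgm.mul hbm.comp_snd).lintegral_prod_right'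
  calc ∫⁻ x in cube, mE ν T χ w x ^ p
      ≤ ∫⁻ x in cube, (∫⁻ t in Ioo 0 T, X t * a t) ^ (p - 1) * ∫⁻ z, g (x, z) * b z ∂(mu T) :=
        lintegral_mono_ae key
    _ = (∫⁻ t in Ioo 0 T, X t * a t) ^ (p - 1)
        * ∫⁻ x in cube, ∫⁻ z, g (x, z) * b z ∂(mu T) := lintegral_const_mul'' _ hgb
    _ = (∫⁻ t in Ioo 0 T, X t * a t) ^ (p - 1) * ∫⁻ z, b z ∂(mu T) := by
        rw [swap_G hν hbm]
    _ ≤ _ := by
        refine mul_le_mul' le_rfl ?_
        have hbm2 := hbm
        rw [mu_eq] at hbm2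
        rw [mu_eq, lintegral_prod _ hbm2]
        refine lintegral_mono_ae ?_
        have hWm2 : AEMeasurable (fun z => W z ^ p)
            ((volume.restrict (Ioo 0 T)).prod (volume.restrict cube)) := by
          rw [← mu_eq]
          exact hWm.pow_const _
        have hWt : ∀ᵐ t ∂(volume.restrict (Ioo 0 T)),
            AEMeasurable (fun x => W (t, x) ^ p) (volume.restrict cube) :=
          hWm2.aestronglyMeasurable.prodMk_left.mono fun x hx => hx.aemeasurable
        filter_upwards [hafin, hWt] with t hat hwt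
        show ∫⁻ x in cube, X t * (W (t, x) ^ p * a t ^ (-(p - 1))) ≤ X t * Nt p w t
        rw [lintegral_const_mul' _ _ (hXt t), lintegral_mul_const'' _ hwt]
        by_cases hX0 : X t = 0
        · rw [hX0, zero_mul, zero_mul]
        have hat' := hat hX0
        refine mul_le_mul' le_rfl ?_
        have e5 : ∫⁻ x in cube, W (t, x) ^ p = Nt p w t ^ p := by
          rw [Nt, e4 p hp0.ne']
          simp_rw [hWp]
        have hNa : Nt p w t ≤ a t := le_self_add
        have hNt : Nt p w t ≠ ⊤ := ne_top_of_le_ne_top hat' hNa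
        rw [e5]
        by_cases hN0 : Nt p w t = 0
        · rw [hN0, ENNReal.zero_rpow_of_pos hp0, zero_mul]
        calc Nt p w t ^ p * a t ^ (-(p - 1)) ≤ Nt p w t ^ p * Nt p w t ^ (-(p - 1)) := by
              refine mul_le_mul' le_rfl ?_
              rw [ENNReal.rpow_neg, ENNReal.rpow_neg]
              exact ENNReal.inv_le_inv.2 (ENNReal.rpow_le_rpow hNa hp1.le)
          _ = Nt p w t := by
              rw [← ENNReal.rpow_add _ _ hN0 hNt]
              have : p + -(p - 1) = 1 := by ring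
              rw [this, ENNReal.rpow_one]

include hν hχ hw in
/-- Minkowski's inequality with the contractivity of the kernel. -/
theorem mE_norm (hp : 1 ≤ p) :
    (∫⁻ x in cube, mE ν T χ w x ^ p) ^ (1 / p)
      ≤ ∫⁻ t in Ioo 0 T, ENNReal.ofReal |χ t| * Nt p w t := by
  have := cube_finite
  have hp0 : 0 < p := by linarith
  rcases eq_or_ne (∫⁻ t in Ioo 0 T, ENNReal.ofReal |χ t| * Nt p w t) ⊤ with hN | hN
  · rw [hN]
    exact le_top
  rcases hp.eq_or_lt with rfl | hp1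
  · -- the case `p = 1`
    have hWm : AEMeasurable (fun z : ℝ × V => ENNReal.ofReal |χ z.1| * ENNReal.ofReal |w z|)
        (mu T) := by
      have m1 : AEMeasurable (fun z : ℝ × V => ENNReal.ofReal |χ z.1|) (mu T) :=
        (ENNReal.measurable_ofReal.comp (hχ.abs.measurable.comp measurable_fst)).aemeasurable
      have m2 : AEMeasurable (fun z : ℝ × V => ENNReal.ofReal |w z|) (mu T) :=
        ENNReal.measurable_ofReal.comp_aemeasurable hw.aestronglyMeasurable.aemeasurable.norm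
      exact m1.mul m2
    simp only [ENNReal.rpow_one, one_div, inv_one]
    have e1 : ∀ x, mE ν T χ w x = ∫⁻ z, ENNReal.ofReal (G ν z.1 (x - z.2))
        * (ENNReal.ofReal |χ z.1| * ENNReal.ofReal |w z|) ∂(mu T) := fun x =>
      lintegral_congr fun z => by ring
    simp_rw [e1]
    rw [swap_G hν hWm]
    have hWm2 := hWm
    rw [mu_eq] at hWm2
    rw [mu_eq, lintegral_prod _ hWm2]
    refine lintegral_mono fun t => ?_
    simp only [Nt, Real.rpow_one, one_div, inv_one, ENNReal.rpow_one]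
    rw [lintegral_const_mul' _ _ ENNReal.ofReal_ne_top]
  · set S₀ := ∫⁻ t in Ioo 0 T, ENNReal.ofReal |χ t| * Nt p w t with hS
    obtain ⟨M, hM⟩ := (isCompact_Icc (a := (0 : ℝ)) (b := T)).exists_bound_of_continuousOn
      hχ.continuousOn
    set c : ℝ≥0∞ := ∫⁻ t in Ioo 0 T, ENNReal.ofReal |χ t| with hc
    have hcf : c ≠ ⊤ := by
      refine ne_top_of_le_ne_top (b := ∫⁻ _t in Ioo 0 T, ENNReal.ofReal M) ?_ ?_
      · rw [lintegral_const, Measure.restrict_apply_univ, Real.volume_Ioo]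
        exact ENNReal.mul_ne_top ENNReal.ofReal_ne_top ENNReal.ofReal_ne_top
      · refine setLIntegral_mono' measurableSet_Ioo fun t ht => ENNReal.ofReal_le_ofReal ?_
        exact hM t ⟨ht.1.le, ht.2.le⟩
    have hXm : Measurable fun t => ENNReal.ofReal |χ t| :=
      ENNReal.measurable_ofReal.comp hχ.abs.measurable
    have h1 : ∀ n : ℕ, ∫⁻ x in cube, mE ν T χ w x ^ p
        ≤ (S₀ + c * ((n : ℝ≥0∞) + 1)⁻¹) ^ (p - 1) * S₀ := by
      intro n
      have h2 := mE_lp hν hχ hw hp1 hN (ε := ((n : ℝ≥0∞) + 1)⁻¹)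
        (by simp) (by simp)
      refine h2.trans (le_of_eq ?_)
      congr 2
      simp_rw [mul_add]
      rw [lintegral_add_right _ (hXm.mul_const _), lintegral_mul_const _ hXm]
    have h3 : Tendsto (fun n : ℕ => (S₀ + c * ((n : ℝ≥0∞) + 1)⁻¹) ^ (p - 1) * S₀) atTop
        (𝓝 (S₀ ^ (p - 1) * S₀)) := by
      have h4 : Tendsto (fun n : ℕ => ((n : ℝ≥0∞) + 1)⁻¹) atTop (𝓝 0) := by
        have := (tendsto_add_atTop_iff_nat 1).2 ENNReal.tendsto_inv_nat_nhds_zero
        refine this.congr fun n => ?_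
        push_cast
        rfl
      have h5 := ENNReal.Tendsto.const_mul (a := c) h4 (Or.inr hcf)
      rw [mul_zero] at h5
      have h6 := (tendsto_const_nhds (x := S₀)).add h5
      rw [add_zero] at h6
      exact ENNReal.Tendsto.mul_const ((ENNReal.continuous_rpow_const (y := p - 1)).tendsto _
        |>.comp h6) (Or.inr hN)
    have h7 : ∫⁻ x in cube, mE ν T χ w x ^ p ≤ S₀ ^ p := by
      refine (ge_of_tendsto' h3 h1).trans (le_of_eq ?_)
      calc S₀ ^ (p - 1) * S₀ = S₀ ^ (p - 1) * S₀ ^ (1 : ℝ) := by rw [ENNReal.rpow_one]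
        _ = S₀ ^ p := by
            rw [← ENNReal.rpow_add_of_nonneg _ _ (by linarith) zero_le_one]
            congr 1
            ring
    calc (∫⁻ x in cube, mE ν T χ w x ^ p) ^ (1 / p) ≤ (S₀ ^ p) ^ (1 / p) :=
          ENNReal.rpow_le_rpow h7 (by positivity)
      _ = S₀ := by
          rw [← ENNReal.rpow_mul, mul_one_div_cancel hp0.ne', ENNReal.rpow_one]

end

/-- **Piece NecBq.** -/
theorem stmNecBq : StmNecBq := by
  intro ν T hν hT g hg χ hχ
  have := cube_finite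
  obtain ⟨M₀, hM₀⟩ := (isCompact_Icc (a := (0 : ℝ)) (b := T)).exists_bound_of_continuousOn
    hχ.continuousOn
  set M : ℝ := max M₀ 1 with hM
  have hM1 : 1 ≤ M := le_max_right _ _
  have hM0 : 0 < M := by linarith
  set χ₁ : ℝ → ℝ := fun t => max (-1) (min 1 (χ t / M)) with hχ₁
  have hχ₁c : Continuous χ₁ := continuous_const.max (continuous_const.min (hχ.div_const _))
  have hχ₁1 : ∀ t, |χ₁ t| ≤ 1 := fun t =>
    abs_le.2 ⟨le_max_left _ _, max_le (by norm_num) (min_le_left _ _)⟩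
  have hχ₁e : ∀ t ∈ Ioo 0 T, M * χ₁ t = χ t := by
    intro t ht
    have h1 : |χ t| ≤ M := (hM₀ t ⟨ht.1.le, ht.2.le⟩).trans (le_max_left _ _)
    have h2 : -1 ≤ χ t / M := by
      rw [le_div_iff₀ hM0]
      linarith [(abs_le.1 h1).1]
    have h3 : χ t / M ≤ 1 := by
      rw [div_le_iff₀ hM0]
      linarith [(abs_le.1 h1).2]
    rw [hχ₁]
    simp only
    rw [min_eq_right h3, max_eq_right h2]
    field_simp
  set w : ℝ × V → ℝ := fun z => g z.1 z.2 with hw'
  have hw : Integrable w (mu T) := hg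
  have hmem : ∀ᵐ z : ℝ × V ∂(mu T), z ∈ Ioo 0 T ×ˢ cube :=
    ae_restrict_mem (measurableSet_Ioo.prod measurableSet_Icc)
  refine ⟨fun x => M * mm ν T χ₁ w x, ?_, (mm_int hν hχ₁c hχ₁1 hw).const_mul M, ?_, ?_⟩
  · intro i x
    show M * mm ν T χ₁ w _ = M * mm ν T χ₁ w _
    rw [mm_per ν T χ₁ w i x]
  · intro k
    have h1 : fr (fun x => M * mm ν T χ₁ w x) k = (M : ℂ) * fr (mm ν T χ₁ w) k := by
      rw [fr, fr, fc, fc, ← integral_const_mul]
      congr 1
      funext x
      push_cast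
      ring
    rw [h1, fr_mm hν hχ₁c hχ₁1 hw k, ← integral_const_mul]
    have h2 : Integrable (fun z : ℝ × V => (M : ℂ) * ((χ₁ z.1 : ℂ) * gc ν z.1 k * ee (-k) z.2
        * (w z : ℂ))) (mu T) := by
      refine Integrable.const_mul ?_ _
      refine Integrable.bdd_mul (c := 1) hw.ofReal ?_ ?_
      · refine Continuous.aestronglyMeasurable ?_
        unfold gc
        refine ((Complex.continuous_ofReal.comp (hχ₁c.comp continuous_fst)).mul
          (Complex.continuous_ofReal.comp (by fun_prop))).mul ((ee_continuous _).comp continuous_snd)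
      · filter_upwards [hmem] with z hz
        rw [norm_mul, norm_mul, norm_ee, mul_one, Complex.norm_real, gc, Complex.norm_real,
          Real.norm_eq_abs, Real.norm_of_nonneg (Real.exp_pos _).le]
        have h3 : Real.exp (-(lam ν k * z.1)) ≤ 1 := by
          refine Real.exp_le_one_iff.2 ?_
          have h4 : 0 ≤ lam ν k := by
            rw [lam]
            have := sq_nonneg' k
            positivity
          have := mul_nonneg h4 hz.1.1.le
          linarith
        exact mul_le_one₀ (hχ₁1 _) (Real.exp_pos _).le h3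
    rw [mu_eq] at h2
    rw [mu_eq, integral_prod _ h2]
    refine setIntegral_congr_fun measurableSet_Ioo fun t ht => ?_
    have h5 : ∀ x : V, (M : ℂ) * ((χ₁ t : ℂ) * gc ν t k * ee (-k) x * (w (t, x) : ℂ))
        = ((χ t : ℂ) * gc ν t k) * (ee (-k) x * (g t x : ℂ)) := by
      intro x
      rw [← hχ₁e t ht]
      push_cast
      ring
    show ∫ x in cube, (M : ℂ) * ((χ₁ t : ℂ) * gc ν t k * ee (-k) x * (w (t, x) : ℂ)) = _
    simp_rw [h5]
    rw [integral_const_mul]
    rfl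
  · intro p hp
    have hp0 : 0 < p := by linarith
    refine le_trans (ENNReal.rpow_le_rpow (lintegral_mono fun x => ?_) (by positivity))
      (mE_norm hν hχ hw hp)
    show ENNReal.ofReal (|M * mm ν T χ₁ w x| ^ p) ≤ mE ν T χ w x ^ p
    rw [← ENNReal.ofReal_rpow_of_nonneg (abs_nonneg _) hp0.le]
    refine ENNReal.rpow_le_rpow ?_ hp0.le
    rw [mm, ← integral_const_mul, ← Real.norm_eq_abs, ofReal_norm]
    refine (enorm_integral_le_lintegral_enorm _).trans (lintegral_mono_ae ?_)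
    filter_upwards [hmem] with z hz
    have e : M * (χ₁ z.1 * G ν z.1 (x - z.2) * w z) = χ z.1 * (G ν z.1 (x - z.2) * w z) := by
      rw [← hχ₁e z.1 hz.1]
      ring
    rw [e, enorm_mul, enorm_mul, Real.enorm_eq_ofReal (G_nonneg hν hz.1.1 _)]
    have h2 : ∀ y : ℝ, ‖y‖ₑ = ENNReal.ofReal |y| := fun y => by
      rw [← ofReal_norm, Real.norm_eq_abs]
    rw [h2, h2]

/-- **Piece NecB.** -/
theorem stmNecB : StmNecB := by
  intro ν T hν hT g hg χ hχ
  obtain ⟨f, h1, h2, h3, h4⟩ := stmNecBq ν T hν hT g hg χ hχ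
  refine ⟨f, h1, h2, h3, fun p hp hN => ?_⟩
  have hp0 : 0 < p := by linarith
  obtain ⟨M, hM⟩ := (isCompact_Icc (a := (0 : ℝ)) (b := T)).exists_bound_of_continuousOn
    hχ.continuousOn
  have h5 : ∫⁻ t in Ioo 0 T, ENNReal.ofReal |χ t| *
      (∫⁻ x in cube, ENNReal.ofReal (|g t x| ^ p)) ^ (1 / p) < ⊤ := by
    calc _ ≤ ∫⁻ t in Ioo 0 T, ENNReal.ofReal M *
          (∫⁻ x in cube, ENNReal.ofReal (|g t x| ^ p)) ^ (1 / p) := by
          refine setLIntegral_mono' measurableSet_Ioo fun t ht => mul_le_mul' ?_ le_rfl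
          exact ENNReal.ofReal_le_ofReal (hM t ⟨ht.1.le, ht.2.le⟩)
      _ = ENNReal.ofReal M * ∫⁻ t in Ioo 0 T,
          (∫⁻ x in cube, ENNReal.ofReal (|g t x| ^ p)) ^ (1 / p) :=
          lintegral_const_mul' _ _ ENNReal.ofReal_ne_top
      _ < ⊤ := ENNReal.mul_lt_top ENNReal.ofReal_lt_top hN.lt_top
  have h6 := lt_of_le_of_lt (h4 p hp) h5
  have h7 := (ENNReal.rpow_lt_top_iff_of_pos (by positivity)).1 h6
  refine ⟨(h2.aestronglyMeasurable.norm.aemeasurable.pow_const p).aestronglyMeasurable, ?_⟩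
  rw [HasFiniteIntegral]
  refine lt_of_le_of_lt (le_of_eq ?_) h7
  refine lintegral_congr fun x => ?_
  rw [Real.enorm_eq_ofReal (Real.rpow_nonneg (abs_nonneg _) _)]

end Pool.Agent.Run7.h744.WQ
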