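import Pool.Agent.Run7.h744.WQ.StpQ

/-!
The sequence of the iteration, with the moments of the stresses.
-/

set_option autoImplicit false

open MeasureTheory Set Filter Topology
open scoped ENNReal ComplexConjugate

namespace Pool.Agent.Run7.h744.WQ

open H459R3.NS Pool.Agent.Run7.h782 Pool.Agent.Run7.h782.GD Pool.Agent.Run7.h782.GS
open Pool.Agent.Run7.h782.WS Pool.Agent.Run7.h969.GS Pool.Agent.Run7 Pool.Agent.Run7.h308.WS
open Pool.Agent.Run7.h744.WS Pool.Agent.Run7.h969.WS Pool.Agent.Run7.h782.WQ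

/-! ### The divergence -/

theorem dvr_zero_mode (r : Mf) : dvr r 0 = 0 := by
  rw [dvr]
  have e0 : (fun i : Fin 3 => ∑ j, ((0 : K3) j : ℂ) * r i j 0) = 0 := by
    funext i
    simp
  rw [e0, prj_zero, smul_zero]

theorem dvr_sub (r r' : Mf) : dvr (r - r') = dvr r - dvr r' := by
  funext k
  rw [Pi.sub_apply, dvr, dvr, dvr, ← smul_sub, ← prj_sub]
  congr 2
  funext i
  simp only [Pi.sub_apply, mul_sub, Finset.sum_sub_distrib]

theorem dv_dvr (r : Mf) : Dv (dvr r) := by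
  intro k
  rw [dvr, kd_smul, kd_prj, mul_zero]

theorem herm_dvr {r : Mf} (hr : Sy r) : Herm (dvr r) := by
  intro k i
  have e1 : (fun i => ∑ j, ((-k) j : ℂ) * r i j (-k))
      = fun i => -(fun i => conj (∑ j, (k j : ℂ) * r i j k)) i := by
    funext i
    simp only [Pi.neg_apply, Int.cast_neg, neg_mul, Finset.sum_neg_distrib, map_sum, map_mul,
      map_intCast, hr.herm]
  have e2 : (fun i => -(fun i => conj (∑ j, (k j : ℂ) * r i j k)) i)
      = (-1 : ℂ) • fun i => conj (∑ j, (k j : ℂ) * r i j k) := by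
    funext i
    simp
  have e3 := prj_neg_conj k (fun i => ∑ j, (k j : ℂ) * r i j k)
  rw [dvr, dvr, e1, e2, prj_smul, e3]
  simp only [Pi.smul_apply, smul_eq_mul, map_mul, Complex.conj_I, Complex.conj_ofReal, map_ofNat]
  ring

theorem dvr_supp {r : Mf} {Z : Finset K3} (hZ : ∀ i j, ∀ k ∉ Z, r i j k = 0) :
    ∀ k ∉ Z.erase 0, dvr r k = 0 := by
  intro k hk
  by_cases h0 : k = 0
  · rw [h0, dvr_zero_mode]
  have hk' : k ∉ Z := fun h => hk (Finset.mem_erase.2 ⟨h0, h⟩)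
  rw [dvr]
  have e0 : (fun i : Fin 3 => ∑ j, (k j : ℂ) * r i j k) = 0 := by
    funext i
    simp [hZ _ _ k hk']
  rw [e0, prj_zero, smul_zero]

theorem norm_mf_le {r : Mf} (hr : R1 r) (i j : Fin 3) (k : K3) : ‖r i j k‖ ≤ rp 1 r := by
  have e := integral_ee_S (-k) (r1s hr i j)
  rw [neg_neg] at e
  rw [← e]
  have hc := S_continuous (r1s hr i j)
  calc ‖∫ x in cube, ee (-k) x * S (r i j) x‖ ≤ ∫ x in cube, ‖S (r i j) x‖ := by
        refine (norm_integral_le_integral_norm _).trans (le_of_eq ?_)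
        refine integral_congr_ae (Eventually.of_forall fun x => ?_)
        simp only [norm_mul, norm_ee, one_mul]
    _ ≤ ∫ x in cube, rn r x ^ (1 : ℝ) := by
        refine integral_mono (integrableOn_cube hc.norm) (int_rpow one_pos (rn_continuous hr))
          fun x => ?_
        rw [Real.rpow_one]
        calc ‖S (r i j) x‖ ≤ ∑ j, ‖S (r i j) x‖ :=
              Finset.single_le_sum (f := fun j => ‖S (r i j) x‖) (fun _ _ => norm_nonneg _)
                (Finset.mem_univ j)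
          _ ≤ rn r x := Finset.single_le_sum (f := fun i => ∑ j, ‖S (r i j) x‖)
              (fun _ _ => Finset.sum_nonneg fun _ _ => norm_nonneg _) (Finset.mem_univ i)

theorem norm_dvr_le {r : Mf} (hr : R1 r) (k : K3) :
    ‖dvr r k‖ ≤ 24 * Real.pi * len k * rp 1 r := by
  have hpi := Real.pi_pos
  have hl := GD.len_nonneg k
  rw [dvr, norm_smul]
  have h1 : ‖(2 * Real.pi * Complex.I : ℂ)‖ = 2 * Real.pi := by
    rw [norm_mul, norm_mul, Complex.norm_I, Complex.norm_real, Real.norm_of_nonneg hpi.le]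
    simp
  have h2 : ‖(fun i => ∑ j, (k j : ℂ) * r i j k : C3)‖ ≤ 3 * len k * rp 1 r := by
    refine (pi_norm_le_iff_of_nonneg (mul_nonneg (by positivity) (rp_nonneg _ _))).2 fun i => ?_
    calc ‖∑ j, (k j : ℂ) * r i j k‖ ≤ ∑ _j : Fin 3, len k * rp 1 r := by
          refine norm_sum_le_of_le _ fun j _ => ?_
          rw [norm_mul, Complex.norm_intCast]
          exact mul_le_mul (GD.abs_le_len k j) (norm_mf_le hr i j k) (norm_nonneg _) hl
      _ = 3 * len k * rp 1 r := by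
          rw [Finset.sum_const, Finset.card_univ, Fintype.card_fin, nsmul_eq_mul]
          push_cast
          ring
  rw [h1]
  calc 2 * Real.pi * ‖prj k fun i => ∑ j, (k j : ℂ) * r i j k‖
      ≤ 2 * Real.pi * (4 * (3 * len k * rp 1 r)) := by
        refine mul_le_mul_of_nonneg_left ((norm_prj_le _ _).trans ?_) (by positivity)
        exact mul_le_mul_of_nonneg_left h2 (by norm_num)
    _ = _ := by ring

theorem sy_zero : Sy (0 : Mf) := ⟨fun _ _ _ => rfl, fun _ _ _ => by simp⟩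

theorem sy_sub {r r' : Mf} (h : Sy r) (h' : Sy r') : Sy (r - r') :=
  ⟨fun i j k => by simp only [Pi.sub_apply]; rw [h.sym, h'.sym],
    fun i j k => by simp only [Pi.sub_apply, map_sub]; rw [h.herm, h'.herm]⟩

theorem rn_neg (r : Mf) (x : V) : rn (-r) x = rn r x := by
  rw [rn, rn]
  refine Finset.sum_congr rfl fun i _ => Finset.sum_congr rfl fun j _ => ?_
  have : S ((-r) i j) x = -S (r i j) x := by
    rw [S, S, ← tsum_neg]
    exact tsum_congr fun k => by simp
  rw [this, norm_neg]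

theorem rp_neg (p : ℝ) (r : Mf) : rp p (-r) = rp p r := by
  rw [rp, rp]
  simp_rw [rn_neg]

theorem rp_sub_le {p : ℝ} (hp : 0 < p) {r r' : Mf} (h : R1 r) (h' : R1 r') :
    rp p (r - r') ≤ 2 ^ p * (rp p r + rp p r') := by
  have h1 : R1 (-r') := fun i j => by simpa using h' i j
  have := stmQ0.1 p r (-r') hp h h1
  rwa [← sub_eq_add_neg, rp_neg] at this

/-- The norm of the antidivergence. -/
theorem al_eq {c : Cf} (h : R1 (anti c)) : al c = rp 1 (anti c) := by
  rw [al, rp]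
  simp_rw [Real.rpow_one, rn]
  rw [integral_finsetSum _ fun i _ => integrableOn_cube
    (continuous_finsetSum _ fun j _ => (S_continuous (r1s h i j)).norm)]
  refine Finset.sum_congr rfl fun i _ => ?_
  rw [integral_finsetSum _ fun j _ => integrableOn_cube (S_continuous (r1s h i j)).norm]

theorem r1_anti {c : Cf} (h : L1 c) : R1 (anti c) := (stmQ0.2.2.2.2.2.2.2.2.1 c (l1_div h)).1

theorem r1_of_supp {r : Mf} {Z : Finset K3} (hZ : ∀ i j, ∀ k ∉ Z, r i j k = 0) : R1 r :=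
  fun i j => (summable_of_ne_finset_zero fun _ hk => hZ i j _ hk : Summable (r i j)).norm

/-! ### The choice of the truncations and the exponents -/

/-- The exponents of the stage `j`. -/
noncomputable def Ex (Q : ℕ → ℝ) (j : ℕ) : Finset ℝ :=
  ((Finset.range (j + 1) ×ˢ Finset.range (j + 1)).image fun x => Q x.1 / 2 ^ x.2)
    ∪ ((Finset.range (j + 1)).image fun i => 2 * Q i) ∪ {1}

theorem ex_pos {Q : ℕ → ℝ} (hQ : ∀ n, 1 ≤ Q n) (j : ℕ) : ∀ p ∈ Ex Q j, 0 < p := by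
  intro p hp
  have h0 : ∀ n, 0 < Q n := fun n => by linarith [hQ n]
  rw [Ex, Finset.mem_union, Finset.mem_union, Finset.mem_image, Finset.mem_image,
    Finset.mem_singleton] at hp
  rcases hp with (⟨x, -, rfl⟩ | ⟨i, -, rfl⟩) | rfl
  · have := h0 x.1
    positivity
  · have := h0 i
    positivity
  · exact one_pos

theorem mem_ex {Q : ℕ → ℝ} {j i k : ℕ} (hi : i ≤ j) (hk : k ≤ j) : Q i / 2 ^ k ∈ Ex Q j := by
  rw [Ex, Finset.mem_union, Finset.mem_union]
  refine Or.inl (Or.inl (Finset.mem_image.2 ⟨(i, k), ?_, rfl⟩))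
  rw [Finset.mem_product, Finset.mem_range, Finset.mem_range]
  exact ⟨by omega, by omega⟩

theorem mem_ex2 {Q : ℕ → ℝ} {j i : ℕ} (hi : i ≤ j) : 2 * Q i ∈ Ex Q j := by
  rw [Ex, Finset.mem_union, Finset.mem_union]
  refine Or.inl (Or.inr (Finset.mem_image.2 ⟨i, ?_, rfl⟩))
  rw [Finset.mem_range]
  omega

theorem mem_ex1 (Q : ℕ → ℝ) (j : ℕ) : (1 : ℝ) ∈ Ex Q j := by
  rw [Ex, Finset.mem_union, Finset.mem_union]
  exact Or.inr (Finset.mem_singleton_self _)

/-- The sum of the constants of the exponents. -/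
noncomputable def Wx (Q : ℕ → ℝ) (j : ℕ) : ℝ := 1 + ∑ p ∈ Ex Q j, (2 : ℝ) ^ p

theorem one_le_wx (Q : ℕ → ℝ) (j : ℕ) : 1 ≤ Wx Q j := by
  rw [Wx]
  have : 0 ≤ ∑ p ∈ Ex Q j, (2 : ℝ) ^ p := Finset.sum_nonneg fun _ _ => by positivity
  linarith

theorem le_wx {Q : ℕ → ℝ} {j : ℕ} {p : ℝ} (hp : p ∈ Ex Q j) : (2 : ℝ) ^ p ≤ Wx Q j := by
  rw [Wx]
  have h1 : (2 : ℝ) ^ p ≤ ∑ p ∈ Ex Q j, (2 : ℝ) ^ p :=
    Finset.single_le_sum (f := fun p => (2 : ℝ) ^ p) (fun _ _ => by positivity) hp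
  linarith

/-- The errors. -/
noncomputable def th (Q : ℕ → ℝ) (j : ℕ) : ℝ := (1 / 4) ^ (j ^ 2) * (1 / 4) ^ j / (2 * Wx Q j)

theorem th_pos (Q : ℕ → ℝ) (j : ℕ) : 0 < th Q j := by
  have := one_le_wx Q j
  rw [th]
  positivity

theorem th_le (Q : ℕ → ℝ) (j : ℕ) : th Q j ≤ (1 / 4) ^ j := by
  have h1 := one_le_wx Q j
  rw [th, div_le_iff₀ (by positivity), mul_comm ((1 / 4 : ℝ) ^ (j ^ 2))]
  refine mul_le_mul_of_nonneg_left ?_ (by positivity)
  have h2 : (1 / 4 : ℝ) ^ (j ^ 2) ≤ 1 := pow_le_one₀ (by norm_num) (by norm_num)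
  linarith

theorem th_le1 (Q : ℕ → ℝ) (j : ℕ) : th Q j ≤ 1 :=
  (th_le Q j).trans (pow_le_one₀ (by norm_num) (by norm_num))

theorem th_wx {Q : ℕ → ℝ} {j : ℕ} {p : ℝ} (hp : p ∈ Ex Q j) :
    2 ^ p * (th Q j + th Q j) ≤ (1 / 4) ^ (j ^ 2) := by
  have h1 := one_le_wx Q j
  have h2 := le_wx hp
  have h3 := th_pos Q j
  calc 2 ^ p * (th Q j + th Q j) ≤ Wx Q j * (th Q j + th Q j) := by gcongr
    _ = (1 / 4) ^ (j ^ 2) * (1 / 4) ^ j := by
        rw [th]
        field_simp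
        ring
    _ ≤ _ := mul_le_of_le_one_right (by positivity) (pow_le_one₀ (by norm_num) (by norm_num))

/-- The choice of the truncations. -/
theorem exists_m {Q : ℕ → ℝ} {c : Cf} {r : ℕ → Mf} (h : DatQ Q c r) :
    ∃ m : ℕ → ℕ, Tendsto m atTop atTop ∧
      (∀ j i k, i ≤ j → k ≤ j → rp (Q i / 2 ^ k) (r (m (j + 1)) - r (m j)) ≤ th Q j) ∧
      ((Summable fun k => ‖c k‖) → ∀ j, ∑' k, ‖dvr (r (m j)) k - c k‖ ≤ (1 / 2) ^ j) := by
  have h1 : ∀ j i : ℕ, ∃ m₀, ∀ m m', m₀ ≤ m → m₀ ≤ m' →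
      rp (Q i) (r m - r m') ≤ th Q j ^ (2 ^ j) := fun j i =>
    h.cau i _ (pow_pos (th_pos Q j) _)
  choose a ha using h1
  have h2 : ∃ b : ℕ → ℕ, (Summable fun k => ‖c k‖) → ∀ j, ∀ n, b j ≤ n →
      ∑' k, ‖dvr (r n) k - c k‖ ≤ (1 / 2) ^ j := by
    by_cases hs : Summable fun k => ‖c k‖
    · have h3 : ∀ j : ℕ, ∃ b, ∀ n, b ≤ n → ∑' k, ‖dvr (r n) k - c k‖ ≤ (1 / 2) ^ j := fun j =>
        eventually_atTop.1 ((h.wie hs).eventually (ge_mem_nhds (by positivity)))
      choose b hb using h3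
      exact ⟨b, fun _ => hb⟩
    · exact ⟨0, fun h => absurd h hs⟩
  obtain ⟨b, hb⟩ := h2
  set m : ℕ → ℕ := fun j => ∑ l ∈ Finset.range (j + 1), (1 + b l + ∑ i ∈ Finset.range (l + 1), a l i)
    with hm
  have hmono : Monotone m := by
    refine monotone_nat_of_le_succ fun j => ?_
    rw [hm]
    simp only
    rw [Finset.sum_range_succ _ (j + 1)]
    omega
  have hterm : ∀ j, 1 + b j + ∑ i ∈ Finset.range (j + 1), a j i ≤ m j := by
    intro j
    exact Finset.single_le_sum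
      (f := fun l => 1 + b l + ∑ i ∈ Finset.range (l + 1), a l i) (fun _ _ => Nat.zero_le _)
      (Finset.mem_range.2 (Nat.lt_succ_self j))
  have hge : ∀ j, j ≤ m j := by
    intro j
    rw [hm]
    simp only
    calc j ≤ ∑ _l ∈ Finset.range (j + 1), 1 := by simp
      _ ≤ _ := Finset.sum_le_sum fun l _ => by omega
  refine ⟨m, tendsto_atTop_mono hge tendsto_id, fun j i k hi hk => ?_, fun hs j => ?_⟩
  · have hai : a j i ≤ m j := by
      have h3 : a j i ≤ ∑ i ∈ Finset.range (j + 1), a j i :=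
        Finset.single_le_sum (f := fun i => a j i) (fun _ _ => Nat.zero_le _)
          (Finset.mem_range.2 (by omega))
      have := hterm j
      omega
    have h4 := ha j i (m (j + 1)) (m j) (hai.trans (hmono (Nat.le_succ j))) hai
    have hr1 : R1 (r (m (j + 1)) - r (m j)) := by
      obtain ⟨Z, hZ⟩ := h.supp (m (j + 1))
      obtain ⟨Z', hZ'⟩ := h.supp (m j)
      exact r1sub (r1_of_supp hZ) (r1_of_supp hZ')
    have hQ : 0 < Q i := by linarith [h.one i]
    have h5 := stmQ0.2.2.1 (Q i / 2 ^ k) (Q i) _ (by positivity)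
      (div_le_self hQ.le (one_le_pow₀ (by norm_num))) hr1
    refine h5.trans ?_
    have e1 : Q i / 2 ^ k / Q i = 1 / 2 ^ k := by field_simp
    rw [e1]
    have ht := th_pos Q j
    calc rp (Q i) (r (m (j + 1)) - r (m j)) ^ (1 / 2 ^ k : ℝ)
        ≤ (th Q j ^ (2 ^ j)) ^ (1 / 2 ^ k : ℝ) :=
          Real.rpow_le_rpow (rp_nonneg _ _) h4 (by positivity)
      _ = th Q j ^ ((2 : ℝ) ^ j * (1 / 2 ^ k)) := by
          rw [← Real.rpow_natCast, ← Real.rpow_mul ht.le]
          push_cast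
          rfl
      _ ≤ th Q j ^ (1 : ℝ) := by
          refine Real.rpow_le_rpow_of_exponent_ge ht (th_le1 Q j) ?_
          rw [mul_one_div, le_div_iff₀ (by positivity), one_mul]
          exact pow_le_pow_right₀ (by norm_num) hk
      _ = th Q j := Real.rpow_one _
  · refine hb hs j (m j) ?_
    have := hterm j
    omega

end Pool.Agent.Run7.h744.WQ
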