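import Pool.Agent.Run7.h744.WQ.IterS

/-!
Pieces IterR and IterQ, from IterS.
-/

set_option autoImplicit false

open MeasureTheory Set Filter Topology
open scoped ENNReal

namespace Pool.Agent.Run7.h744.WQ

open H459R3.NS Pool.Agent.Run7.h782 Pool.Agent.Run7.h782.GD Pool.Agent.Run7.h782.GS
open Pool.Agent.Run7.h782.WQ

/-- `StmIterR` is contained in `StmIterS`. -/
theorem iterR (hStep : StmStepQ) (hLim : StmLim) : StmIterR := by
  intro ν hν U hU Q c r hdat φ hφ δ hδ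
  obtain ⟨b, h1, h2, h3, h4, h5, h6, h7, h8, ⟨a, e, h9⟩, h10⟩ :=
    iterS hStep hLim ν hν U hU Q c r hdat φ hφ δ hδ
  exact ⟨b, h1, h2, h3, h4, h5, h6, h7, h8, ⟨a, e, h9.toLimC⟩, h10⟩

/-- `StmIterQ` is contained in `StmIterR`. -/
theorem iterQ (hStep : StmStepQ) (hLim : StmLim) : StmIterQ := by
  intro ν hν U hU Q c r hdat φ hφ δ hδ
  obtain ⟨b, h1, h2, h3, h4, h5, h6, h7, h8, -, h9⟩ :=
    iterR hStep hLim ν hν U hU Q c r hdat φ hφ δ hδ
  exact ⟨b, h1, h2, h3, h4, h5, h6, h7, h8, h9⟩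

end Pool.Agent.Run7.h744.WQ
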