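import Pool.Agent.Run7.h744.WQ.SeqR
import Pool.Agent.Run7.h782.WQ.Defs2

/-!
The limit of the iteration: the moments, and the approximation by global smooth solutions.
-/

set_option autoImplicit false

open MeasureTheory Set Filter Topology
open scoped ENNReal

namespace Pool.Agent.Run7.h744.WQ

open H459R3.NS Pool.Agent.Run7.h782 Pool.Agent.Run7.h782.GD Pool.Agent.Run7.h782.GS
open Pool.Agent.Run7.h782.WS Pool.Agent.Run7.h969.GS Pool.Agent.Run7 Pool.Agent.Run7.h308.WS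
open Pool.Agent.Run7.h744.WS Pool.Agent.Run7.h969.WS Pool.Agent.Run7.h782.WQ

variable {C : ℝ → ℝ} {ν δ : ℝ} {U : ℝ → Cf} {Q : ℕ → ℝ} {c : Cf} {r : ℕ → Mf} {φ : ℝ → ℝ}
  {m : ℕ → ℕ} {A : ℕ → ℝ → Cf} {ε H : ℕ → ℝ} {b : ℝ → Cf}

theorem SQ.sum (h : SQ C ν δ U Q c r φ m A ε H) : Summable ε :=
  Summable.of_nonneg_of_le (fun n => (h.e0 n).le) h.e1
    (summable_geometric_of_lt_one (by norm_num) (by norm_num))

theorem SQ.cnt (h : SQ C ν δ U Q c r φ m A ε H) (n : ℕ) : Cnt (A n) :=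
  h969.GS.LSol.cnt (h.tgt n).toLSol

theorem SQ.l1t (h : SQ C ν δ U Q c r φ m A ε H) (n : ℕ) {t : ℝ} (ht : 0 ≤ t) : L1 (A n t) :=
  Maj.l1 (h.tgt n).maj ht

/-- The tail sums. -/
noncomputable def Et (ε : ℕ → ℝ) (J : ℕ) : ℝ := ∑' i, ε (i + J)

theorem SQ.et_nonneg (h : SQ C ν δ U Q c r φ m A ε H) (J : ℕ) : 0 ≤ Et ε J :=
  tsum_nonneg fun _ => (h.e0 _).le

theorem SQ.et_tendsto (ε : ℕ → ℝ) : Tendsto (Et ε) atTop (𝓝 0) := tendsto_sum_nat_add ε

theorem SQ.le_et (h : SQ C ν δ U Q c r φ m A ε H) (J : ℕ) : ε J ≤ Et ε J := by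
  have hs := (summable_nat_add_iff J).2 h.sum
  have := hs.le_tsum 0 fun j _ => (h.e0 _).le
  simpa [Et] using this

theorem SQ.tail_sum (h : SQ C ν δ U Q c r φ m A ε H)
    (hlim : ∀ t, 0 < t → ∀ k, Tendsto (fun j => A (j + 1) t k) atTop (𝓝 (b t k))) {t : ℝ}
    (ht : 0 < t) (J : ℕ) :
    ∑' k, ENNReal.ofReal ‖b t k - A J t k‖ ≤ ENNReal.ofReal (Et ε J / Real.sqrt t) := by
  have hss := Real.sqrt_pos.2 ht
  have hs := (summable_nat_add_iff J).2 h.sum
  calc ∑' k, ENNReal.ofReal ‖b t k - A J t k‖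
      ≤ ∑' k, ∑' i, ENNReal.ofReal ‖A (J + i + 1) t k - A (J + i) t k‖ :=
        ENNReal.tsum_le_tsum fun k => tel (hlim t ht) J k
    _ = ∑' i, Sd (A (J + i + 1) t) (A (J + i) t) := ENNReal.tsum_comm
    _ ≤ ∑' i, ENNReal.ofReal (ε (i + J) / Real.sqrt t) := by
        refine ENNReal.tsum_le_tsum fun i => ?_
        rw [add_comm i J]
        exact (h.st (J + i)).pt t ht
    _ = ENNReal.ofReal (Et ε J / Real.sqrt t) := by
        rw [← ENNReal.ofReal_tsum_of_nonneg (fun i => div_nonneg (h.e0 _).le hss.le)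
          (hs.div_const _), tsum_div_const]
        rfl

theorem SQ.tail_summable (h : SQ C ν δ U Q c r φ m A ε H)
    (hlim : ∀ t, 0 < t → ∀ k, Tendsto (fun j => A (j + 1) t k) atTop (𝓝 (b t k))) {t : ℝ}
    (ht : 0 < t) (J : ℕ) : (Summable fun k => ‖b t k - A J t k‖) ∧
      ∑' k, ‖b t k - A J t k‖ ≤ Et ε J / Real.sqrt t := by
  have h1 := h.tail_sum hlim ht J
  have h2 : ∑' k, ENNReal.ofReal ‖b t k - A J t k‖ ≠ ⊤ := ne_top_of_le_ne_top
    ENNReal.ofReal_ne_top h1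
  have h3 : Summable fun k => ‖b t k - A J t k‖ := by
    have := ENNReal.summable_toReal h2
    refine this.congr fun k => ?_
    rw [ENNReal.toReal_ofReal (norm_nonneg _)]
  refine ⟨h3, ?_⟩
  rw [← ENNReal.ofReal_tsum_of_nonneg (fun _ => norm_nonneg _) h3] at h1
  exact (ENNReal.ofReal_le_ofReal_iff
    (div_nonneg (h.et_nonneg J) (Real.sqrt_nonneg _))).1 h1

theorem SQ.l1b (h : SQ C ν δ U Q c r φ m A ε H)
    (hlim : ∀ t, 0 < t → ∀ k, Tendsto (fun j => A (j + 1) t k) atTop (𝓝 (b t k))) {t : ℝ}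
    (ht : 0 < t) : L1 (b t) := by
  have h1 : L1 (b t - A 0 t) := (h.tail_summable hlim ht 0).1
  have h2 := h1.add (h.l1t 0 ht.le)
  rwa [sub_add_cancel] at h2

theorem SQ.tendsto_l1 (h : SQ C ν δ U Q c r φ m A ε H)
    (hlim : ∀ t, 0 < t → ∀ k, Tendsto (fun j => A (j + 1) t k) atTop (𝓝 (b t k))) {t : ℝ}
    (ht : 0 < t) : Tendsto (fun J => ∑' k, ‖A J t k - b t k‖) atTop (𝓝 0) := by
  have h1 : Tendsto (fun J => Et ε J / Real.sqrt t) atTop (𝓝 0) := by
    have := (SQ.et_tendsto ε).div_const (Real.sqrt t)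
    rwa [zero_div] at this
  refine squeeze_zero (fun _ => tsum_nonneg fun _ => norm_nonneg _) (fun J => ?_) h1
  refine le_trans (le_of_eq ?_) (h.tail_summable hlim ht J).2
  exact tsum_congr fun k => norm_sub_rev _ _

/-- Uniform closeness. -/
theorem SQ.close (h : SQ C ν δ U Q c r φ m A ε H)
    (hlim : ∀ t, 0 < t → ∀ k, Tendsto (fun j => A (j + 1) t k) atTop (𝓝 (b t k))) {t : ℝ}
    (ht : 0 < t) (J : ℕ) (hJ : ε J ≤ t) (B : Finset K3) :
    ∑ k ∈ B, ‖A J t k - b t k‖ ≤ Et ε J := by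
  have hs := (summable_nat_add_iff J).2 h.sum
  have h1 : ∀ n, ∑ k ∈ B, ‖A (J + n) t k - A J t k‖ ≤ ∑ i ∈ Finset.range n, ε (i + J) := by
    intro n
    induction n with
    | zero => simp
    | succ n ih =>
      rw [Finset.sum_range_succ]
      have h2 : ε (J + n) ≤ t := (h.ea (Nat.le_add_right J n)).trans hJ
      calc ∑ k ∈ B, ‖A (J + (n + 1)) t k - A J t k‖
          ≤ ∑ k ∈ B, (‖A (J + n + 1) t k - A (J + n) t k‖ + ‖A (J + n) t k - A J t k‖) :=
            Finset.sum_le_sum fun k _ => norm_sub_le_norm_sub_add_norm_sub _ _ _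
        _ = ∑ k ∈ B, ‖A (J + n + 1) t k - A (J + n) t k‖ + ∑ k ∈ B, ‖A (J + n) t k - A J t k‖ :=
            Finset.sum_add_distrib
        _ ≤ _ := by
            have h3 := (h.st (J + n)).close t h2 B
            rw [add_comm n J]
            linarith
  have h2 : Tendsto (fun n => ∑ k ∈ B, ‖A (J + n) t k - A J t k‖) atTop
      (𝓝 (∑ k ∈ B, ‖b t k - A J t k‖)) := by
    refine tendsto_finsetSum _ fun k _ => ?_
    have h3 : Tendsto (fun j => A j t k) atTop (𝓝 (b t k)) :=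
      (tendsto_add_atTop_iff_nat 1).1 (hlim t ht k)
    have h4 : Tendsto (fun n => A (J + n) t k) atTop (𝓝 (b t k)) := by
      have := (tendsto_add_atTop_iff_nat J).2 h3
      refine this.congr fun n => ?_
      rw [add_comm]
    exact (h4.sub tendsto_const_nhds).norm
  have h3 : ∑ k ∈ B, ‖b t k - A J t k‖ ≤ Et ε J :=
    le_of_tendsto' h2 fun n => (h1 n).trans (hs.sum_le_tsum _ fun _ _ => (h.e0 _).le)
  calc ∑ k ∈ B, ‖A J t k - b t k‖ = ∑ k ∈ B, ‖b t k - A J t k‖ :=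
        Finset.sum_congr rfl fun k _ => norm_sub_rev _ _
    _ ≤ _ := h3

/-! ### The moments -/

/-- The norm of `L^q`. -/
noncomputable def nrm (q : ℝ) (c : Cf) : ℝ := fp q c ^ (1 / q)

theorem nrm_nonneg (q : ℝ) (c : Cf) : 0 ≤ nrm q c := Real.rpow_nonneg (fp_nonneg _ _) _

theorem nrm_tel (h : SQ C ν δ U Q c r φ m A ε H) {q : ℝ} (hq : 1 ≤ q) {t : ℝ} (ht : 0 < t)
    (J n : ℕ) : nrm q (A (J + n) t) ≤ nrm q (A J t)
      + ∑ i ∈ Finset.range n, nrm q (A (J + i + 1) t - A (J + i) t) := by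
  induction n with
  | zero => simp
  | succ n ih =>
    rw [Finset.sum_range_succ]
    have h1 := stmQ0.2.2.2.2.2.2.1 q (A (J + n) t) (A (J + n + 1) t - A (J + n) t) hq
      (h.l1t _ ht.le) ((h.l1t _ ht.le).sub (h.l1t _ ht.le))
    rw [add_sub_cancel] at h1
    have h2 : nrm q (A (J + n + 1) t) ≤ nrm q (A (J + n) t)
        + nrm q (A (J + n + 1) t - A (J + n) t) := h1
    refine (h2.trans (add_le_add ih le_rfl)).trans (le_of_eq ?_)
    rw [add_assoc]

theorem nrm_le (h : SQ C ν δ U Q c r φ m A ε H)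
    (hlim : ∀ t, 0 < t → ∀ k, Tendsto (fun j => A (j + 1) t k) atTop (𝓝 (b t k)))
    {q : ℝ} (hq : 1 ≤ q) {t : ℝ} (ht : 0 < t) (J : ℕ) :
    ENNReal.ofReal (nrm q (b t)) ≤ ENNReal.ofReal (nrm q (A J t))
      + ∑' i, ENNReal.ofReal (nrm q (A (J + i + 1) t - A (J + i) t)) := by
  have hq0 : 0 < q := by linarith
  have h1 : Tendsto (fun n => fp q (A (n + J) t)) atTop (𝓝 (fp q (b t))) :=
    stmQ0.2.2.2.2.2.2.2.1 q (b t) hq0 (h.l1b hlim ht) (fun n => A (n + J) t)
      (fun n => h.l1t _ ht.le) ((tendsto_add_atTop_iff_nat J).2 (h.tendsto_l1 hlim ht))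
  have h2 : Tendsto (fun n => ENNReal.ofReal (nrm q (A (J + n) t))) atTop
      (𝓝 (ENNReal.ofReal (nrm q (b t)))) := by
    have h3 := (ENNReal.continuous_ofReal.tendsto _).comp
      (h1.rpow_const (p := 1 / q) (Or.inr (by positivity)))
    refine h3.congr fun n => ?_
    rw [add_comm J n]
    rfl
  refine le_of_tendsto' h2 fun n => ?_
  refine (ENNReal.ofReal_le_ofReal (nrm_tel h hq ht J n)).trans ?_
  rw [ENNReal.ofReal_add (nrm_nonneg _ _) (Finset.sum_nonneg fun _ _ => nrm_nonneg _ _),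
    ENNReal.ofReal_sum_of_nonneg fun _ _ => nrm_nonneg _ _]
  exact add_le_add le_rfl (ENNReal.sum_le_tsum _)

theorem nrm_bd (h : SQ C ν δ U Q c r φ m A ε H) {q : ℝ} (hq : 1 ≤ q) (J : ℕ) :
    ∃ M : ℝ, 0 ≤ M ∧ ∀ t, 0 ≤ t → nrm q (A J t) ≤ M := by
  have hq0 : 0 < q := by linarith
  obtain ⟨M, hM⟩ := (h.tgt J).bd
  have hM0 : 0 ≤ M := by simpa using hM 0 le_rfl ∅
  refine ⟨3 * M, by positivity, fun t ht => ?_⟩
  have h1 := stmQ0.2.2.2.2.2.1 q (A J t) hq0 (h.l1t J ht)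
  have h2 : ∑' k, ‖A J t k‖ ≤ M := Summable.tsum_le_of_sum_le (h.l1t J ht) (hM t ht)
  have h3 : 0 ≤ ∑' k, ‖A J t k‖ := tsum_nonneg fun _ => norm_nonneg _
  calc nrm q (A J t) ≤ ((3 * ∑' k, ‖A J t k‖) ^ q) ^ (1 / q) :=
        Real.rpow_le_rpow (fp_nonneg _ _) h1 (by positivity)
    _ = 3 * ∑' k, ‖A J t k‖ := by
        rw [← Real.rpow_mul (by positivity), mul_one_div_cancel hq0.ne', Real.rpow_one]
    _ ≤ _ := by gcongr

theorem nrm_cont (h : SQ C ν δ U Q c r φ m A ε H) {q : ℝ} (hq : 1 ≤ q) (n : ℕ) :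
    ContinuousOn (fun t => nrm q (A (n + 1) t - A n t)) (Ici 0) :=
  (cont_fp (a := fun t => A (n + 1) t - A n t) (Maj.sub (h.tgt _).maj (h.tgt _).maj)
    (Cnt.sub (h.cnt _) (h.cnt _)) (by linarith)).rpow_const fun _ _ => Or.inr (by positivity)

theorem moments (h : SQ C ν δ U Q c r φ m A ε H) (hC : ∀ p, 0 < C p) (hν : 0 < ν)
    (hlim : ∀ t, 0 < t → ∀ k, Tendsto (fun j => A (j + 1) t k) atTop (𝓝 (b t k))) (i : ℕ) :
    IntegrableOn (fun t => fp (2 * Q i) (b t) ^ (1 / Q i)) (Ioc 0 1) := by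
  have hQ := h.Qpos i
  have hQ1 := h.dat.one i
  set q : ℝ := 2 * Q i with hq
  have hq1 : 1 ≤ q := by linarith
  have hq0 : 0 < q := by linarith
  obtain ⟨K, hK0, hK⟩ := h.tm_le hC hν i
  obtain ⟨M, hM0, hM⟩ := nrm_bd h hq1 i
  have hsqr : ∀ c : Cf, ENNReal.ofReal (nrm q c) ^ (2 : ℝ)
      = ENNReal.ofReal (fp q c ^ (1 / Q i)) := by
    intro c
    rw [ENNReal.ofReal_rpow_of_nonneg (nrm_nonneg _ _) (by norm_num), nrm,
      ← Real.rpow_mul (fp_nonneg _ _)]
    congr 2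
    rw [hq]
    field_simp
  set μ := volume.restrict (Ioc (0 : ℝ) 1) with hμ
  set Ψ : ℕ → ℝ → ℝ≥0∞ := fun j t =>
    ENNReal.ofReal (nrm q (A (i + j + 1) t - A (i + j) t)) with hΨ
  have hΨm : ∀ j, AEMeasurable (Ψ j) μ := fun j =>
    ENNReal.measurable_ofReal.comp_aemeasurable (ContinuousOn.aemeasurable
      ((nrm_cont h hq1 (i + j)).mono fun t ht => ht.1.le) measurableSet_Ioc)
  have hΨn : ∀ j, Nq μ 2 (Ψ j) ≤ ENNReal.ofReal (Real.sqrt K * (1 / 2) ^ j) := by
    intro j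
    rw [Nq]
    have e1 : ∀ t, Ψ j t ^ (2 : ℝ)
        = ENNReal.ofReal (fp q (A (i + j + 1) t - A (i + j) t) ^ (1 / Q i)) := fun t => hsqr _
    simp_rw [e1]
    have h1 := hK (i + j) (Nat.le_add_right _ _)
    refine (ENNReal.rpow_le_rpow h1 (by norm_num)).trans ?_
    rw [ENNReal.ofReal_rpow_of_nonneg (by positivity) (by norm_num), ← Real.sqrt_eq_rpow,
      Real.sqrt_mul hK0]
    refine ENNReal.ofReal_le_ofReal (mul_le_mul_of_nonneg_left ?_ (Real.sqrt_nonneg _))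
    refine Real.sqrt_le_iff.2 ⟨by positivity, ?_⟩
    calc ((1 : ℝ) / 4) ^ (i + j) ≤ (1 / 4) ^ j :=
          pow_le_pow_of_le_one (by norm_num) (by norm_num) (by omega)
      _ = ((1 / 2) ^ j) ^ 2 := by
          rw [← pow_mul, mul_comm j 2, pow_mul]
          norm_num
  have hfin : Nq μ 2 (fun t => ENNReal.ofReal (nrm q (b t))) < ⊤ := by
    calc Nq μ 2 (fun t => ENNReal.ofReal (nrm q (b t)))
        ≤ Nq μ 2 (fun t => ENNReal.ofReal M + ∑' j, Ψ j t) := by
          refine Nq_mono (by norm_num) ?_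
          filter_upwards [self_mem_ae_restrict measurableSet_Ioc] with t ht
          exact (nrm_le h hlim hq1 ht.1 i).trans
            (add_le_add (ENNReal.ofReal_le_ofReal (hM t ht.1.le)) le_rfl)
      _ ≤ Nq μ 2 (fun _ => ENNReal.ofReal M) + ∑' j, Nq μ 2 (Ψ j) :=
          (Nq_add (by norm_num) aemeasurable_const (AEMeasurable.tsum hΨm)).trans
            (add_le_add le_rfl (Nq_tsum (by norm_num) hΨm))
      _ ≤ Nq μ 2 (fun _ => ENNReal.ofReal M)
          + ∑' j : ℕ, ENNReal.ofReal (Real.sqrt K * (1 / 2) ^ j) :=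
          add_le_add le_rfl (ENNReal.tsum_le_tsum hΨn)
      _ < ⊤ := by
          refine ENNReal.add_lt_top.2 ⟨?_, ?_⟩
          · rw [Nq, lintegral_const, hμ, Measure.restrict_apply_univ, Real.volume_Ioc]
            refine ENNReal.rpow_lt_top_of_nonneg (by norm_num) (ENNReal.mul_ne_top ?_
              ENNReal.ofReal_ne_top)
            exact ENNReal.rpow_ne_top_of_nonneg (by norm_num) ENNReal.ofReal_ne_top
          · rw [← ENNReal.ofReal_tsum_of_nonneg (fun j => by positivity)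
              ((summable_geometric_of_lt_one (by norm_num) (by norm_num)).mul_left _)]
            exact ENNReal.ofReal_lt_top
  rw [Nq] at hfin
  have hfin2 := (ENNReal.rpow_lt_top_iff_of_pos (by norm_num)).1 hfin
  simp_rw [hsqr] at hfin2
  have hmeas : AEMeasurable (fun t => fp q (b t)) μ := by
    refine aemeasurable_of_tendsto_metrizable_ae (atTop : Filter ℕ)
      (f := fun n t => fp q (A n t)) (fun n => ?_) ?_
    · exact ContinuousOn.aemeasurable ((cont_fp (h.tgt n).maj (h.cnt n) hq0).mono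
        fun t ht => ht.1.le) measurableSet_Ioc
    · filter_upwards [self_mem_ae_restrict measurableSet_Ioc] with t ht
      exact stmQ0.2.2.2.2.2.2.2.1 q (b t) hq0 (h.l1b hlim ht.1) (fun n => A n t)
        (fun n => h.l1t _ ht.1.le) (h.tendsto_l1 hlim ht.1)
  refine ⟨(hmeas.pow_const _).aestronglyMeasurable, ?_⟩
  rw [HasFiniteIntegral]
  refine lt_of_le_of_lt (le_of_eq ?_) hfin2
  refine lintegral_congr fun t => ?_
  rw [Real.enorm_eq_ofReal (Real.rpow_nonneg (fp_nonneg _ _) _)]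

/-! ### The limit of the solutions -/

theorem limC (h : SQ C ν δ U Q c r φ m A ε H) (hC : ∀ p, 0 < C p) (hν : 0 < ν)
    (hlim : ∀ t, 0 < t → ∀ k, Tendsto (fun j => A (j + 1) t k) atTop (𝓝 (b t k)))
    {K : ℝ} (hzb : ∀ n k, ‖dvr (r (m n)) k‖ ≤ 24 * Real.pi * len k * K) (hK0 : 0 ≤ K)
    (hAz : ∀ k, Tendsto (fun j => A (j + 1) 0 k) atTop (𝓝 (c k))) :
    LimC ν c b (fun j => A (j + 1)) (fun j => Et ε (j + 1)) := by
  have hpi := Real.pi_pos
  obtain ⟨Ka, hKa0, hal⟩ := h.al_le hC hν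
  obtain ⟨Kl, hKl0, hl2⟩ := h.l2_le hC hν
  have hez : Tendsto (fun j => Et ε (j + 1)) atTop (𝓝 0) :=
    (tendsto_add_atTop_iff_nat 1).2 (SQ.et_tendsto ε)
  have hcl : ∀ j t, Et ε (j + 1) ≤ t → 0 < t → ∀ B : Finset K3,
      ∑ k ∈ B, ‖A (j + 1) t k - b t k‖ ≤ Et ε (j + 1) := fun j t ht ht0 B =>
    h.close hlim ht0 (j + 1) ((h.le_et _).trans ht) B
  refine ⟨fun j => (h.st j).csol, hAz, ?_, hez, hcl, ?_⟩
  · refine ⟨6 * Real.pi * Ka + 24 * Real.pi * K, fun j k => ?_⟩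
    have hl := len_nonneg k
    have h4 : L1 (A (j + 1) 0 - dvr (r (m j))) := (h.l1_0 _).sub (l1_dvr h.dat _)
    have h5 : Dv (A (j + 1) 0 - dvr (r (m j))) := dv_sub ((h.st j).csol.div 0 le_rfl) (dv_dvr _)
    have h6 : (A (j + 1) 0 - dvr (r (m j))) 0 = 0 := by
      rw [Pi.sub_apply, (h.st j).csol.zero 0 le_rfl, dvr_zero_mode, sub_zero]
    have h7 := coef_al (l1_div h4) h5 h6 k
    have h8 : ‖A (j + 1) 0 k‖ ≤ ‖(A (j + 1) 0 - dvr (r (m j))) k‖ + ‖dvr (r (m j)) k‖ := by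
      have := norm_add_le ((A (j + 1) 0 - dvr (r (m j))) k) (dvr (r (m j)) k)
      rwa [Pi.sub_apply, sub_add_cancel] at this
    have h9 : al (A (j + 1) 0 - dvr (r (m j))) ≤ Ka :=
      (hal j).trans (mul_le_of_le_one_right hKa0 (pow_le_one₀ (by norm_num) (by norm_num)))
    have h10 : len k ≤ (1 + len k) ^ 2 := by nlinarith
    calc ‖A (j + 1) 0 k‖ ≤ 6 * Real.pi * len k * Ka + 24 * Real.pi * len k * K := by
          refine h8.trans (add_le_add (h7.trans ?_) (hzb j k))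
          exact mul_le_mul_of_nonneg_left h9 (by positivity)
      _ = (6 * Real.pi * Ka + 24 * Real.pi * K) * len k := by ring
      _ ≤ _ := mul_le_mul_of_nonneg_left h10 (by positivity)
  · intro T
    -- the square mean on `(0, 1]`
    have hg : ∀ J, ∫⁻ t in Ioc (0 : ℝ) 1, ENNReal.ofReal (∑' k, ‖A J t k - b t k‖ ^ 2)
        ≤ ENNReal.ofReal (2 * Real.sqrt Kl * (1 / 2) ^ J) ^ (2 : ℝ) := by
      intro J
      set μ := volume.restrict (Ioc (0 : ℝ) 1) with hμ
      set g : ℕ → ℝ → ℝ≥0∞ := fun i t =>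
        l2n (fun k => ENNReal.ofReal ‖A (J + i + 1) t k - A (J + i) t k‖) with hg
      have hgm : ∀ i, AEMeasurable (g i) μ := fun i =>
        (AEMeasurable.tsum fun k => (Sq2_meas (h.cnt _) (h.cnt _) k).pow_const 2).pow_const _
      have hgn : ∀ i, Nq μ 2 (g i) ≤ ENNReal.ofReal (Real.sqrt Kl * (1 / 2) ^ J * (1 / 2) ^ i) := by
        intro i
        rw [Nq]
        have e1 : ∀ t, g i t ^ (2 : ℝ) = Sq2 (A (J + i + 1) t) (A (J + i) t) := fun t => l2n_sq _
        simp_rw [e1]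
        refine (ENNReal.rpow_le_rpow (hl2 (J + i)) (by norm_num)).trans (le_of_eq ?_)
        rw [ENNReal.ofReal_rpow_of_nonneg (by positivity) (by norm_num), ← Real.sqrt_eq_rpow,
          Real.sqrt_mul hKl0]
        congr 1
        have e2 : ((1 : ℝ) / 4) ^ (J + i) = ((1 / 2) ^ J * (1 / 2) ^ i) ^ 2 := by
          rw [← pow_add, ← pow_mul, mul_comm (J + i) 2, pow_mul]
          norm_num
        rw [e2, Real.sqrt_sq (by positivity)]
        ring
      have hN : Nq μ 2 (fun t => l2n (fun k => ENNReal.ofReal ‖b t k - A J t k‖))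
          ≤ ENNReal.ofReal (2 * Real.sqrt Kl * (1 / 2) ^ J) := by
        calc Nq μ 2 (fun t => l2n (fun k => ENNReal.ofReal ‖b t k - A J t k‖))
            ≤ Nq μ 2 (fun t => ∑' i, g i t) := by
              refine Nq_mono (by norm_num) ?_
              filter_upwards [self_mem_ae_restrict measurableSet_Ioc] with t ht
              exact (l2n_mono fun k => tel (hlim t ht.1) J k).trans (l2n_tsum _)
          _ ≤ ∑' i, Nq μ 2 (g i) := Nq_tsum (by norm_num) hgm
          _ ≤ ∑' i : ℕ, ENNReal.ofReal (Real.sqrt Kl * (1 / 2) ^ J * (1 / 2) ^ i) :=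
              ENNReal.tsum_le_tsum hgn
          _ = _ := by
              rw [← ENNReal.ofReal_tsum_of_nonneg (fun j => by positivity)
                ((summable_geometric_of_lt_one (by norm_num) (by norm_num)).mul_left _),
                tsum_mul_left, tsum_geometric_of_lt_one (by norm_num) (by norm_num)]
              congr 1
              ring
      have e3 : ∀ t ∈ Ioc (0 : ℝ) 1, ENNReal.ofReal (∑' k, ‖A J t k - b t k‖ ^ 2)
          = l2n (fun k => ENNReal.ofReal ‖b t k - A J t k‖) ^ (2 : ℝ) := by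
        intro t ht
        rw [l2n_sq]
        have h1 : L1 (A J t - b t) := (h.l1t J ht.1.le).sub (h.l1b hlim ht.1)
        have h2 := summable_nsq h1
        have h2' : Summable fun k => ‖A J t k - b t k‖ ^ 2 := h2
        rw [ENNReal.ofReal_tsum_of_nonneg (fun k => sq_nonneg _) h2']
        refine tsum_congr fun k => ?_
        rw [ENNReal.ofReal_rpow_of_nonneg (norm_nonneg _) (by norm_num), Real.rpow_two,
          norm_sub_rev]
      rw [setLIntegral_congr_fun measurableSet_Ioc e3]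
      rw [Nq] at hN
      have h4 := ENNReal.rpow_le_rpow hN (z := 2) (by norm_num)
      rwa [← ENNReal.rpow_mul, one_div_mul_cancel (by norm_num), ENNReal.rpow_one] at h4
    -- the rest
    have hrest : ∀ᶠ j in atTop, ∫⁻ t in Ioc 0 T,
        ENNReal.ofReal (∑' k, ‖A (j + 1) t k - b t k‖ ^ 2)
          ≤ ENNReal.ofReal (2 * Real.sqrt Kl * (1 / 2) ^ (j + 1)) ^ (2 : ℝ)
            + ENNReal.ofReal (Et ε (j + 1) ^ 2) * ENNReal.ofReal (T - 1) := by
      filter_upwards [hez.eventually (ge_mem_nhds one_pos)] with j hj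
      have hsub : Ioc (0 : ℝ) T ⊆ Ioc 0 1 ∪ Ioc 1 T := by
        intro t ht
        rcases le_or_gt t 1 with h1 | h1
        · exact Or.inl ⟨ht.1, h1⟩
        · exact Or.inr ⟨h1, ht.2⟩
      refine (lintegral_mono_set hsub).trans ((lintegral_union_le _ _ _).trans
        (add_le_add (hg (j + 1)) ?_))
      calc ∫⁻ t in Ioc 1 T, ENNReal.ofReal (∑' k, ‖A (j + 1) t k - b t k‖ ^ 2)
          ≤ ∫⁻ t in Ioc 1 T, ENNReal.ofReal (Et ε (j + 1) ^ 2) := by
            refine setLIntegral_mono' measurableSet_Ioc fun t ht => ENNReal.ofReal_le_ofReal ?_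
            have ht1 : (1 : ℝ) < t := ht.1
            have ht0 : 0 < t := by linarith
            have h1 : L1 (A (j + 1) t - b t) := (h.l1t _ ht0.le).sub (h.l1b hlim ht0)
            have h2 : Summable fun k => ‖A (j + 1) t k - b t k‖ ^ 2 := summable_nsq h1
            refine Summable.tsum_le_of_sum_le h2 fun B => ?_
            refine (sum_sq_le_sq fun k _ => norm_nonneg _).trans ?_
            exact pow_le_pow_left₀ (Finset.sum_nonneg fun _ _ => norm_nonneg _)
              (hcl j t (by linarith) ht0 B) 2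
        _ = _ := by
            rw [setLIntegral_const, Real.volume_Ioc]
    have h1 : Tendsto (fun j : ℕ => ENNReal.ofReal (2 * Real.sqrt Kl * (1 / 2) ^ (j + 1)) ^ (2 : ℝ)
        + ENNReal.ofReal (Et ε (j + 1) ^ 2) * ENNReal.ofReal (T - 1)) atTop (𝓝 0) := by
      have h2 : Tendsto (fun j : ℕ => 2 * Real.sqrt Kl * (1 / 2 : ℝ) ^ (j + 1)) atTop (𝓝 0) := by
        have := ((tendsto_add_atTop_iff_nat 1).2 (tendsto_pow_atTop_nhds_zero_of_lt_one
          (r := (1 / 2 : ℝ)) (by norm_num) (by norm_num))).const_mul (2 * Real.sqrt Kl)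
        rwa [mul_zero] at this
      have h3 := (ENNReal.continuous_rpow_const (y := 2)).tendsto 0 |>.comp
        (by
          have := (ENNReal.continuous_ofReal.tendsto 0).comp h2
          rwa [ENNReal.ofReal_zero] at this)
      rw [ENNReal.zero_rpow_of_pos (by norm_num)] at h3
      have h4 : Tendsto (fun j : ℕ => ENNReal.ofReal (Et ε (j + 1) ^ 2) * ENNReal.ofReal (T - 1))
          atTop (𝓝 0) := by
        have h5 := hez.pow 2
        rw [zero_pow (by norm_num)] at h5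
        have h6 := (ENNReal.continuous_ofReal.tendsto 0).comp h5
        rw [ENNReal.ofReal_zero] at h6
        have h7 := ENNReal.Tendsto.mul_const (b := ENNReal.ofReal (T - 1)) h6
          (Or.inr ENNReal.ofReal_ne_top)
        rwa [zero_mul] at h7
      have h5 := h3.add h4
      rw [add_zero] at h5
      exact h5
    exact tendsto_of_tendsto_of_tendsto_of_le_of_le' tendsto_const_nhds h1
      (Eventually.of_forall fun _ => zero_le) hrest

end Pool.Agent.Run7.h744.WQ
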