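import Pool.Agent.Run7.h744.WQ.Lim
import Pool.Agent.Run7.h782.WQ.Defs4

/-!
The limit of the iteration: convergence of the global smooth solutions in `L² L^q`, and the
representation of their initial values.
-/

set_option autoImplicit false

open MeasureTheory Set Filter Topology
open scoped ENNReal

namespace Pool.Agent.Run7.h744.WQ

open H459R3.NS Pool.Agent.Run7.h782 Pool.Agent.Run7.h782.GD Pool.Agent.Run7.h782.GS
open Pool.Agent.Run7.h782.WS Pool.Agent.Run7.h969.GS Pool.Agent.Run7 Pool.Agent.Run7.h308.WS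
open Pool.Agent.Run7.h744.WS Pool.Agent.Run7.h969.WS Pool.Agent.Run7.h782.WQ

variable {C : ℝ → ℝ} {ν δ : ℝ} {U : ℝ → Cf} {Q : ℕ → ℝ} {c : Cf} {r : ℕ → Mf} {φ : ℝ → ℝ}
  {m : ℕ → ℕ} {A : ℕ → ℝ → Cf} {ε H : ℕ → ℝ} {b : ℝ → Cf}

theorem fn_neg (c : Cf) (x : V) : fn (-c) x = fn c x := by
  rw [fn, fn]
  refine Finset.sum_congr rfl fun i _ => ?_
  have : S (fun k => (-c) k i) x = -S (fun k => c k i) x := by
    rw [S, S, ← tsum_neg]
    exact tsum_congr fun k => by simp
  rw [this, norm_neg]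

theorem fp_neg (p : ℝ) (c : Cf) : fp p (-c) = fp p c := by
  rw [fp, fp]
  simp_rw [fn_neg]

theorem nrm_comm (q : ℝ) (c d : Cf) : nrm q (c - d) = nrm q (d - c) := by
  rw [nrm, nrm, ← neg_sub, fp_neg]

theorem nrm_tel' (h : SQ C ν δ U Q c r φ m A ε H) {q : ℝ} (hq : 1 ≤ q) {t : ℝ} (ht : 0 < t)
    (J n : ℕ) : nrm q (A (J + n) t - A J t)
      ≤ ∑ i ∈ Finset.range n, nrm q (A (J + i + 1) t - A (J + i) t) := by
  have hq0 : 0 < q := by linarith
  induction n with
  | zero =>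
    have e : A (J + 0) t - A J t = (0 : Cf) := by simp
    have h0 : fp q (0 : Cf) = 0 := by
      have h1 := stmQ0.2.2.2.2.2.1 q (0 : Cf) hq0 (L1.of_supp (B := ∅) fun _ _ => rfl)
      have h2 : (3 * ∑' k, ‖(0 : Cf) k‖) ^ q = 0 := by
        simp [hq0.ne']
      rw [h2] at h1
      exact le_antisymm h1 (fp_nonneg _ _)
    rw [e, nrm, h0, Real.zero_rpow (by positivity)]
    simp
  | succ n ih =>
    rw [Finset.sum_range_succ]
    have h1 := stmQ0.2.2.2.2.2.2.1 q (A (J + n) t - A J t) (A (J + n + 1) t - A (J + n) t) hq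
      ((h.l1t _ ht.le).sub (h.l1t _ ht.le)) ((h.l1t _ ht.le).sub (h.l1t _ ht.le))
    have e : A (J + n) t - A J t + (A (J + n + 1) t - A (J + n) t) = A (J + (n + 1)) t - A J t := by
      rw [show J + (n + 1) = J + n + 1 by omega]
      abel
    rw [e] at h1
    exact le_trans h1 (add_le_add ih le_rfl)

theorem nrm_tail (h : SQ C ν δ U Q c r φ m A ε H)
    (hlim : ∀ t, 0 < t → ∀ k, Tendsto (fun j => A (j + 1) t k) atTop (𝓝 (b t k)))
    {q : ℝ} (hq : 1 ≤ q) {t : ℝ} (ht : 0 < t) (J : ℕ) :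
    ENNReal.ofReal (nrm q (A J t - b t))
      ≤ ∑' i, ENNReal.ofReal (nrm q (A (J + i + 1) t - A (J + i) t)) := by
  have hq0 : 0 < q := by linarith
  have hb := h.l1b hlim ht
  have h1 : Tendsto (fun n => fp q (A (n + J) t - A J t)) atTop (𝓝 (fp q (b t - A J t))) := by
    refine stmQ0.2.2.2.2.2.2.2.1 q (b t - A J t) hq0 (hb.sub (h.l1t _ ht.le))
      (fun n => A (n + J) t - A J t) (fun n => (h.l1t _ ht.le).sub (h.l1t _ ht.le)) ?_
    refine ((tendsto_add_atTop_iff_nat J).2 (h.tendsto_l1 hlim ht)).congr fun n => ?_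
    exact tsum_congr fun k => by rw [Pi.sub_apply, Pi.sub_apply, sub_sub_sub_cancel_right]
  have h2 : Tendsto (fun n => ENNReal.ofReal (nrm q (A (J + n) t - A J t))) atTop
      (𝓝 (ENNReal.ofReal (nrm q (b t - A J t)))) := by
    have h3 := (ENNReal.continuous_ofReal.tendsto _).comp
      (h1.rpow_const (p := 1 / q) (Or.inr (by positivity)))
    refine h3.congr fun n => ?_
    rw [add_comm J n]
    rfl
  rw [nrm_comm]
  refine le_of_tendsto' h2 fun n => ?_
  refine (ENNReal.ofReal_le_ofReal (nrm_tel' h hq ht J n)).trans ?_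
  rw [ENNReal.ofReal_sum_of_nonneg fun _ _ => nrm_nonneg _ _]
  exact ENNReal.sum_le_tsum _

theorem lq_tendsto (h : SQ C ν δ U Q c r φ m A ε H) (hC : ∀ p, 0 < C p) (hν : 0 < ν)
    (hlim : ∀ t, 0 < t → ∀ k, Tendsto (fun j => A (j + 1) t k) atTop (𝓝 (b t k))) (i : ℕ) (T : ℝ) :
    Tendsto (fun j => ∫⁻ t in Ioc 0 T,
      ENNReal.ofReal (fp (2 * Q i) (A (j + 1) t - b t) ^ (1 / Q i))) atTop (𝓝 0) := by
  have hQ := h.Qpos i
  have hQ1 := h.dat.one i
  set q : ℝ := 2 * Q i with hq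
  have hq1 : 1 ≤ q := by linarith
  have hq0 : 0 < q := by linarith
  obtain ⟨K, hK0, hK⟩ := h.tm_le hC hν i
  have hez : Tendsto (fun j => Et ε (j + 1)) atTop (𝓝 0) :=
    (tendsto_add_atTop_iff_nat 1).2 (SQ.et_tendsto ε)
  have hsqr : ∀ c : Cf, ENNReal.ofReal (nrm q c) ^ (2 : ℝ)
      = ENNReal.ofReal (fp q c ^ (1 / Q i)) := by
    intro c
    rw [ENNReal.ofReal_rpow_of_nonneg (nrm_nonneg _ _) (by norm_num), nrm,
      ← Real.rpow_mul (fp_nonneg _ _)]
    congr 2
    rw [hq]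
    field_simp
  -- the interval `(0, 1]`
  have hg : ∀ J, i ≤ J → ∫⁻ t in Ioc (0 : ℝ) 1, ENNReal.ofReal (fp q (A J t - b t) ^ (1 / Q i))
      ≤ ENNReal.ofReal (2 * Real.sqrt K * (1 / 2) ^ J) ^ (2 : ℝ) := by
    intro J hJ
    set μ := volume.restrict (Ioc (0 : ℝ) 1) with hμ
    set Ψ : ℕ → ℝ → ℝ≥0∞ := fun j t =>
      ENNReal.ofReal (nrm q (A (J + j + 1) t - A (J + j) t)) with hΨ
    have hΨm : ∀ j, AEMeasurable (Ψ j) μ := fun j =>
      ENNReal.measurable_ofReal.comp_aemeasurable (ContinuousOn.aemeasurable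
        ((nrm_cont h hq1 (J + j)).mono fun t ht => ht.1.le) measurableSet_Ioc)
    have hΨn : ∀ j, Nq μ 2 (Ψ j) ≤ ENNReal.ofReal (Real.sqrt K * (1 / 2) ^ J * (1 / 2) ^ j) := by
      intro j
      rw [Nq]
      have e1 : ∀ t, Ψ j t ^ (2 : ℝ)
          = ENNReal.ofReal (fp q (A (J + j + 1) t - A (J + j) t) ^ (1 / Q i)) := fun t => hsqr _
      simp_rw [e1]
      refine (ENNReal.rpow_le_rpow (hK (J + j) (by omega)) (by norm_num)).trans (le_of_eq ?_)
      rw [ENNReal.ofReal_rpow_of_nonneg (by positivity) (by norm_num), ← Real.sqrt_eq_rpow,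
        Real.sqrt_mul hK0]
      congr 1
      have e2 : ((1 : ℝ) / 4) ^ (J + j) = ((1 / 2) ^ J * (1 / 2) ^ j) ^ 2 := by
        rw [← pow_add, ← pow_mul, mul_comm (J + j) 2, pow_mul]
        norm_num
      rw [e2, Real.sqrt_sq (by positivity)]
      ring
    have hN : Nq μ 2 (fun t => ENNReal.ofReal (nrm q (A J t - b t)))
        ≤ ENNReal.ofReal (2 * Real.sqrt K * (1 / 2) ^ J) := by
      calc Nq μ 2 (fun t => ENNReal.ofReal (nrm q (A J t - b t)))
          ≤ Nq μ 2 (fun t => ∑' j, Ψ j t) := by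
            refine Nq_mono (by norm_num) ?_
            filter_upwards [self_mem_ae_restrict measurableSet_Ioc] with t ht
            exact nrm_tail h hlim hq1 ht.1 J
        _ ≤ ∑' j, Nq μ 2 (Ψ j) := Nq_tsum (by norm_num) hΨm
        _ ≤ ∑' j : ℕ, ENNReal.ofReal (Real.sqrt K * (1 / 2) ^ J * (1 / 2) ^ j) :=
            ENNReal.tsum_le_tsum hΨn
        _ = _ := by
            rw [← ENNReal.ofReal_tsum_of_nonneg (fun j => by positivity)
              ((summable_geometric_of_lt_one (by norm_num) (by norm_num)).mul_left _),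
              tsum_mul_left, tsum_geometric_of_lt_one (by norm_num) (by norm_num)]
            congr 1
            ring
    rw [Nq] at hN
    have h4 := ENNReal.rpow_le_rpow hN (z := 2) (by norm_num)
    rw [← ENNReal.rpow_mul, one_div_mul_cancel (by norm_num), ENNReal.rpow_one] at h4
    simp_rw [hsqr] at h4
    exact h4
  -- the rest
  have hrest : ∀ᶠ j in atTop, ∫⁻ t in Ioc 0 T,
      ENNReal.ofReal (fp q (A (j + 1) t - b t) ^ (1 / Q i))
        ≤ ENNReal.ofReal (2 * Real.sqrt K * (1 / 2) ^ (j + 1)) ^ (2 : ℝ)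
          + ENNReal.ofReal ((3 * Et ε (j + 1)) ^ 2) * ENNReal.ofReal (T - 1) := by
    filter_upwards [hez.eventually (ge_mem_nhds one_pos), eventually_ge_atTop i] with j hj hji
    have hsub : Ioc (0 : ℝ) T ⊆ Ioc 0 1 ∪ Ioc 1 T := by
      intro t ht
      rcases le_or_gt t 1 with h1 | h1
      · exact Or.inl ⟨ht.1, h1⟩
      · exact Or.inr ⟨h1, ht.2⟩
    refine (lintegral_mono_set hsub).trans ((lintegral_union_le _ _ _).trans
      (add_le_add (hg (j + 1) (by omega)) ?_))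
    calc ∫⁻ t in Ioc 1 T, ENNReal.ofReal (fp q (A (j + 1) t - b t) ^ (1 / Q i))
        ≤ ∫⁻ t in Ioc 1 T, ENNReal.ofReal ((3 * Et ε (j + 1)) ^ 2) := by
          refine setLIntegral_mono' measurableSet_Ioc fun t ht => ENNReal.ofReal_le_ofReal ?_
          have ht1 : (1 : ℝ) < t := ht.1
          have ht0 : 0 < t := by linarith
          have h1 : L1 (A (j + 1) t - b t) := (h.l1t _ ht0.le).sub (h.l1b hlim ht0)
          have h2 := stmQ0.2.2.2.2.2.1 q _ hq0 h1
          have h3 : ∑' k, ‖(A (j + 1) t - b t) k‖ ≤ Et ε (j + 1) :=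
            Summable.tsum_le_of_sum_le h1 fun B =>
              h.close hlim ht0 (j + 1) (((h.le_et _).trans hj).trans ht1.le) B
          have h4 : 0 ≤ ∑' k, ‖(A (j + 1) t - b t) k‖ := tsum_nonneg fun _ => norm_nonneg _
          have h5 : fp q (A (j + 1) t - b t) ≤ (3 * Et ε (j + 1)) ^ q :=
            h2.trans (Real.rpow_le_rpow (by positivity) (by linarith) hq0.le)
          have h6 : 0 ≤ Et ε (j + 1) := h.et_nonneg _
          calc fp q (A (j + 1) t - b t) ^ (1 / Q i) ≤ ((3 * Et ε (j + 1)) ^ q) ^ (1 / Q i) :=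
                Real.rpow_le_rpow (fp_nonneg _ _) h5 (by positivity)
            _ = (3 * Et ε (j + 1)) ^ 2 := by
                rw [← Real.rpow_mul (by positivity), ← Real.rpow_two]
                congr 1
                rw [hq]
                field_simp
      _ = _ := by
          rw [setLIntegral_const, Real.volume_Ioc]
  have h1 : Tendsto (fun j : ℕ => ENNReal.ofReal (2 * Real.sqrt K * (1 / 2) ^ (j + 1)) ^ (2 : ℝ)
      + ENNReal.ofReal ((3 * Et ε (j + 1)) ^ 2) * ENNReal.ofReal (T - 1)) atTop (𝓝 0) := by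
    have h2 : Tendsto (fun j : ℕ => 2 * Real.sqrt K * (1 / 2 : ℝ) ^ (j + 1)) atTop (𝓝 0) := by
      have := ((tendsto_add_atTop_iff_nat 1).2 (tendsto_pow_atTop_nhds_zero_of_lt_one
        (r := (1 / 2 : ℝ)) (by norm_num) (by norm_num))).const_mul (2 * Real.sqrt K)
      rwa [mul_zero] at this
    have h3 := (ENNReal.continuous_rpow_const (y := 2)).tendsto 0 |>.comp
      (by
        have := (ENNReal.continuous_ofReal.tendsto 0).comp h2
        rwa [ENNReal.ofReal_zero] at this)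
    rw [ENNReal.zero_rpow_of_pos (by norm_num)] at h3
    have h4 : Tendsto (fun j : ℕ => ENNReal.ofReal ((3 * Et ε (j + 1)) ^ 2)
        * ENNReal.ofReal (T - 1)) atTop (𝓝 0) := by
      have h5 := (hez.const_mul 3).pow 2
      rw [mul_zero, zero_pow (by norm_num)] at h5
      have h6 := (ENNReal.continuous_ofReal.tendsto 0).comp h5
      rw [ENNReal.ofReal_zero] at h6
      have h7 := ENNReal.Tendsto.mul_const (b := ENNReal.ofReal (T - 1)) h6
        (Or.inr ENNReal.ofReal_ne_top)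
      rwa [zero_mul] at h7
    have h5 := h3.add h4
    rw [add_zero] at h5
    exact h5
  exact tendsto_of_tendsto_of_tendsto_of_le_of_le' tendsto_const_nhds h1
    (Eventually.of_forall fun _ => zero_le) hrest

theorem sy_add {r r' : Mf} (h : Sy r) (h' : Sy r') : Sy (r + r') :=
  ⟨fun i j k => by simp only [Pi.add_apply]; rw [h.sym, h'.sym],
    fun i j k => by simp only [Pi.add_apply, map_add]; rw [h.herm, h'.herm]⟩

theorem dvr_add (r r' : Mf) : dvr (r + r') = dvr r + dvr r' := by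
  have h := dvr_sub (r + r') r'
  rw [add_sub_cancel_right] at h
  rw [h, sub_add_cancel]

theorem limS (h : SQ C ν δ U Q c r φ m A ε H) (hC : ∀ p, 0 < C p) (hν : 0 < ν)
    (hlim : ∀ t, 0 < t → ∀ k, Tendsto (fun j => A (j + 1) t k) atTop (𝓝 (b t k)))
    {K : ℝ} (hzb : ∀ n k, ‖dvr (r (m n)) k‖ ≤ 24 * Real.pi * len k * K) (hK0 : 0 ≤ K)
    (hAz : ∀ k, Tendsto (fun j => A (j + 1) 0 k) atTop (𝓝 (c k))) :
    LimS ν Q c r b (fun j => A (j + 1)) (fun j => Et ε (j + 1)) := by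
  refine ⟨limC h hC hν hlim hzb hK0 hAz, fun n T => lq_tendsto h hC hν hlim n T, ?_⟩
  have hl : ∀ j, L1 (A (j + 1) 0 - dvr (r (m j))) := fun j => (h.l1_0 _).sub (l1_dvr h.dat _)
  have hdv : ∀ j, Dv (A (j + 1) 0 - dvr (r (m j))) := fun j =>
    dv_sub ((h.st j).csol.div 0 le_rfl) (dv_dvr _)
  have h0 : ∀ j, (A (j + 1) 0 - dvr (r (m j))) 0 = 0 := fun j => by
    rw [Pi.sub_apply, (h.st j).csol.zero 0 le_rfl, dvr_zero_mode, sub_zero]
  have hh : ∀ j, Herm (A (j + 1) 0 - dvr (r (m j))) := fun j k i => by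
    simp only [Pi.sub_apply, map_sub]
    rw [(h.st j).csol.herm 0 le_rfl k i, herm_dvr (h.dat.sy _) k i]
  refine ⟨fun j => r (m j) + anti (A (j + 1) 0 - dvr (r (m j))), m, fun j => ?_, fun j => ?_,
    fun j k => ?_, h.top, fun n => ?_⟩
  · exact sy_add (h.dat.sy _) (stmQ0.2.2.2.2.2.2.2.2.2.1 _ (hh j))
  · exact r1add (dat_r1 h.dat _) (r1_anti (hl j))
  · rw [dvr_add, stmQ0.2.2.2.2.2.2.2.2.2.2 _ (hdv j) (h0 j), add_sub_cancel]
  · have hQ := h.Qpos n
    obtain ⟨K, hK0, hK⟩ := h.decay hC hν n 1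
    have e : ∀ j, r (m j) + anti (A (j + 1) 0 - dvr (r (m j))) - r (m j)
        = (r (m (j + 1)) - r (m j)) - rho r m A (j + 1) := by
      intro j
      have : rho r m A (j + 1) = r (m (j + 1)) - r (m j) - anti (A (j + 1) 0 - dvr (r (m j))) :=
        rfl
      rw [this]
      abel
    simp_rw [e]
    have h1 : ∀ᶠ j in atTop, rp (Q n) ((r (m (j + 1)) - r (m j)) - rho r m A (j + 1))
        ≤ 2 ^ Q n * ((1 / 4) ^ j + K * (1 / 4) ^ (j + 1)) := by
      filter_upwards [eventually_ge_atTop n] with j hj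
      refine (rp_sub_le hQ (r1sub (dat_r1 h.dat _) (dat_r1 h.dat _)) (h.r1 _)).trans ?_
      have h2 := h.dif j n 0 hj (Nat.zero_le _)
      rw [pow_zero, div_one] at h2
      have h3 := hK (j + 1)
      rw [quarter_rpow] at h3
      exact mul_le_mul_of_nonneg_left (add_le_add (h2.trans (th_le Q j)) h3) (by positivity)
    have h4 : Tendsto (fun j : ℕ => 2 ^ Q n * ((1 / 4 : ℝ) ^ j + K * (1 / 4) ^ (j + 1))) atTop
        (𝓝 0) := by
      have h5 : Tendsto (fun j : ℕ => (1 / 4 : ℝ) ^ j) atTop (𝓝 0) :=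
        tendsto_pow_atTop_nhds_zero_of_lt_one (by norm_num) (by norm_num)
      have h6 := (h5.add (((tendsto_add_atTop_iff_nat 1).2 h5).const_mul K)).const_mul
        ((2 : ℝ) ^ Q n)
      rwa [mul_zero, add_zero, mul_zero] at h6
    exact squeeze_zero' (Eventually.of_forall fun j => rp_nonneg _ _) h1 h4

end Pool.Agent.Run7.h744.WQ
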