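import Pool.Agent.Run7.h782.WQ.Defs

/-!
Piece RecQ: the abstract recursion.
-/

set_option autoImplicit false

open Set Filter Topology

namespace Pool.Agent.Run7.h744.WQ

open Pool.Agent.Run7.h782.WQ

theorem exists_all {f : ℕ → ℝ} {N : ℕ} {C : ℝ} (h : ∀ j, N ≤ j → f j ≤ C) :
    ∃ A : ℝ, 0 ≤ A ∧ ∀ j, f j ≤ A := by
  refine ⟨|C| + ∑ i ∈ Finset.range N, |f i|, by positivity, fun j => ?_⟩
  have h0 : 0 ≤ ∑ i ∈ Finset.range N, |f i| := Finset.sum_nonneg fun _ _ => abs_nonneg _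
  by_cases hj : N ≤ j
  · linarith [h j hj, le_abs_self C]
  · have h1 : |f j| ≤ ∑ i ∈ Finset.range N, |f i| :=
      Finset.single_le_sum (f := fun i => |f i|) (fun _ _ => abs_nonneg _)
        (Finset.mem_range.2 (not_le.1 hj))
    linarith [le_abs_self (f j), abs_nonneg C]

theorem sq_le (c : ℝ) (j : ℕ) :
    (1 / 4 : ℝ) ^ (j ^ 2) ≤ (1 / 4 : ℝ) ^ (-(c ^ 2 / 4)) * (1 / 4 : ℝ) ^ (c * j) := by
  rw [← Real.rpow_add (by norm_num), ← Real.rpow_natCast]
  refine Real.rpow_le_rpow_of_exponent_ge (by norm_num) (by norm_num) ?_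
  push_cast
  nlinarith [sq_nonneg ((j : ℝ) - c / 2)]

/-- One step. -/
theorem rec_one {x : ℕ → ℝ} {B c : ℝ} {n₀ : ℕ} 
    (h : ∀ j, n₀ ≤ j → x (j + 1) ≤ B * (1 / 4 : ℝ) ^ (c * j) + (1 / 4) ^ (j ^ 2)) :
    ∃ A : ℝ, 0 ≤ A ∧ ∀ j : ℕ, x j ≤ A * (1 / 4 : ℝ) ^ (c * j) := by
  obtain ⟨A, hA0, hA⟩ := exists_all (f := fun j : ℕ => x j / (1 / 4 : ℝ) ^ (c * j)) (N := n₀ + 1)
    (C := (B + (1 / 4 : ℝ) ^ (-(c ^ 2 / 4))) * (1 / 4 : ℝ) ^ (-c)) (by
      intro j hj
      obtain ⟨i, rfl⟩ : ∃ i, j = i + 1 := ⟨j - 1, by omega⟩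
      have h1 := h i (by omega)
      rw [div_le_iff₀ (by positivity)]
      have h2 : (1 / 4 : ℝ) ^ (-c) * (1 / 4 : ℝ) ^ (c * ((i + 1 : ℕ) : ℝ))
          = (1 / 4 : ℝ) ^ (c * i) := by
        rw [← Real.rpow_add (by norm_num)]
        congr 1
        push_cast
        ring
      rw [mul_assoc, h2]
      have h3 := sq_le c i
      linarith)
  refine ⟨A, hA0, fun j => ?_⟩
  have := hA j
  rwa [div_le_iff₀ (by positivity)] at this

/-- **Piece RecQ.** -/
theorem stmRecQ : StmRecQ := by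
  intro x K q hq hx hK hmono hrec
  -- large `m`
  obtain ⟨M, hM⟩ : ∃ M : ℕ, ∀ m, M ≤ m → q / 2 ^ (m + 1) ≤ 1 / 2 := by
    obtain ⟨M, hM⟩ := pow_unbounded_of_one_lt q (show (1 : ℝ) < 2 by norm_num)
    refine ⟨M, fun m hm => ?_⟩
    rw [div_le_iff₀ (by positivity)]
    have h1 : (2 : ℝ) ^ M ≤ 2 ^ m := pow_le_pow_right₀ (by norm_num) hm
    rw [pow_succ]
    linarith
  -- boundedness
  have hbd : ∀ m, M ≤ m → ∃ A : ℝ, 0 ≤ A ∧ ∀ j : ℕ, x j m ≤ A := by
    intro m hm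
    obtain ⟨n₀, hn₀⟩ := hrec m
    have ht : Tendsto (fun j : ℕ => K m * (1 / 2 : ℝ) ^ j) atTop (𝓝 0) := by
      have := (tendsto_pow_atTop_nhds_zero_of_lt_one (r := (1 / 2 : ℝ)) (by norm_num)
        (by norm_num)).const_mul (K m)
      rwa [mul_zero] at this
    obtain ⟨n₁, hn₁⟩ := eventually_atTop.1 (ht.eventually (ge_mem_nhds (show (0 : ℝ) < 1 / 2 by
      norm_num)))
    set N := max n₀ n₁ with hN
    have hstep : ∀ j, N ≤ j → x (j + 1) m ≤ 1 / 2 * (1 + x j m) + 1 := by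
      intro j hj
      have h1 := hn₀ j ((le_max_left _ _).trans hj)
      have h2 := hn₁ j ((le_max_right _ _).trans hj)
      have h3 : (1 / 4 : ℝ) ^ ((j : ℝ) * (1 - q / 2 ^ (m + 1))) ≤ (1 / 2 : ℝ) ^ j := by
        calc (1 / 4 : ℝ) ^ ((j : ℝ) * (1 - q / 2 ^ (m + 1))) ≤ (1 / 4 : ℝ) ^ ((1 / 2 : ℝ) * j) := by
              refine Real.rpow_le_rpow_of_exponent_ge (by norm_num) (by norm_num) ?_
              have h4 := hM m hm
              have h5 : (0 : ℝ) ≤ j := Nat.cast_nonneg j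
              nlinarith
          _ = (1 / 2 : ℝ) ^ j := by
              rw [Real.rpow_mul (by norm_num), Real.rpow_natCast, ← Real.sqrt_eq_rpow,
                show (1 / 4 : ℝ) = (1 / 2) ^ 2 by norm_num, Real.sqrt_sq (by norm_num)]
      have h4 : K m * (1 / 4 : ℝ) ^ ((j : ℝ) * (1 - q / 2 ^ (m + 1))) ≤ 1 / 2 :=
        (mul_le_mul_of_nonneg_left h3 (hK m)).trans h2
      have h5 := hmono j m (m + 1) (Nat.le_succ m)
      have h6 : (1 / 4 : ℝ) ^ (j ^ 2) ≤ 1 := pow_le_one₀ (by norm_num) (by norm_num)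
      have h7 : K m * (1 / 4 : ℝ) ^ ((j : ℝ) * (1 - q / 2 ^ (m + 1))) * x j (m + 1)
          ≤ 1 / 2 * (1 + x j m) := mul_le_mul h4 h5 (hx _ _) (by norm_num)
      linarith
    have hb : ∀ j, N ≤ j → x j m ≤ x N m + 3 := by
      intro j hj
      induction j, hj using Nat.le_induction with
      | base => linarith
      | succ j hj ih =>
        have := hstep j hj
        have h0 := hx N m
        linarith
    exact exists_all hb
  -- arbitrary rates for large `m`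
  have hrate : ∀ n : ℕ, ∀ m, M ≤ m → ∃ A : ℝ, 0 ≤ A ∧ ∀ j : ℕ,
      x j m ≤ A * (1 / 4 : ℝ) ^ ((n : ℝ) / 2 * j) := by
    intro n
    induction n with
    | zero =>
      intro m hm
      obtain ⟨A, hA0, hA⟩ := hbd m hm
      refine ⟨A, hA0, fun j => ?_⟩
      simpa using hA j
    | succ n ih =>
      intro m hm
      obtain ⟨A, hA0, hA⟩ := ih (m + 1) (by omega)
      obtain ⟨n₀, hn₀⟩ := hrec m
      refine rec_one (n₀ := n₀) (B := K m * A) fun j hj => ?_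
      refine (hn₀ j hj).trans (add_le_add ?_ le_rfl)
      calc K m * (1 / 4 : ℝ) ^ ((j : ℝ) * (1 - q / 2 ^ (m + 1))) * x j (m + 1)
          ≤ K m * (1 / 4 : ℝ) ^ ((j : ℝ) * (1 - q / 2 ^ (m + 1)))
            * (A * (1 / 4 : ℝ) ^ ((n : ℝ) / 2 * j)) :=
            mul_le_mul_of_nonneg_left (hA j) (mul_nonneg (hK m) (by positivity))
        _ = K m * A * (1 / 4 : ℝ) ^ ((j : ℝ) * (1 - q / 2 ^ (m + 1)) + (n : ℝ) / 2 * j) := by
            rw [Real.rpow_add (by norm_num)]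
            ring
        _ ≤ K m * A * (1 / 4 : ℝ) ^ (((n + 1 : ℕ) : ℝ) / 2 * j) := by
            refine mul_le_mul_of_nonneg_left ?_ (mul_nonneg (hK m) hA0)
            refine Real.rpow_le_rpow_of_exponent_ge (by norm_num) (by norm_num) ?_
            have h4 := hM m hm
            have h5 : (0 : ℝ) ≤ j := Nat.cast_nonneg j
            push_cast
            nlinarith
  -- all `m`
  have hall : ∀ n : ℕ, ∀ m, M ≤ m + n → ∀ e : ℝ, ∃ A : ℝ, 0 ≤ A ∧ ∀ j : ℕ,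
      x j m ≤ A * (1 / 4 : ℝ) ^ (e * j) := by
    intro n
    induction n with
    | zero =>
      intro m hm e
      obtain ⟨k, hk⟩ := exists_nat_gt (2 * e)
      obtain ⟨A, hA0, hA⟩ := hrate k m hm
      refine ⟨A, hA0, fun j => (hA j).trans (mul_le_mul_of_nonneg_left ?_ hA0)⟩
      refine Real.rpow_le_rpow_of_exponent_ge (by norm_num) (by norm_num) ?_
      have h5 : (0 : ℝ) ≤ j := Nat.cast_nonneg j
      nlinarith
    | succ n ih =>
      intro m hm e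
      obtain ⟨A, hA0, hA⟩ := ih (m + 1) (by omega) (e + q)
      obtain ⟨n₀, hn₀⟩ := hrec m
      refine rec_one (n₀ := n₀) (B := K m * A) fun j hj => ?_
      refine (hn₀ j hj).trans (add_le_add ?_ le_rfl)
      calc K m * (1 / 4 : ℝ) ^ ((j : ℝ) * (1 - q / 2 ^ (m + 1))) * x j (m + 1)
          ≤ K m * (1 / 4 : ℝ) ^ ((j : ℝ) * (1 - q / 2 ^ (m + 1)))
            * (A * (1 / 4 : ℝ) ^ ((e + q) * j)) :=
            mul_le_mul_of_nonneg_left (hA j) (mul_nonneg (hK m) (by positivity))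
        _ = K m * A * (1 / 4 : ℝ) ^ ((j : ℝ) * (1 - q / 2 ^ (m + 1)) + (e + q) * j) := by
            rw [Real.rpow_add (by norm_num)]
            ring
        _ ≤ K m * A * (1 / 4 : ℝ) ^ (e * j) := by
            refine mul_le_mul_of_nonneg_left ?_ (mul_nonneg (hK m) hA0)
            refine Real.rpow_le_rpow_of_exponent_ge (by norm_num) (by norm_num) ?_
            have h4 : q / 2 ^ (m + 1) ≤ q := div_le_self hq.le (one_le_pow₀ (by norm_num))
            have h5 : (0 : ℝ) ≤ j := Nat.cast_nonneg j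
            nlinarith
  intro e
  obtain ⟨A, -, hA⟩ := hall M 0 (by omega) e
  exact ⟨A, hA⟩

end Pool.Agent.Run7.h744.WQ
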