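import Pool.Agent.Run7.h744.WQ.SeqQ

/-!
The recursion and the decay of the stresses.
-/

set_option autoImplicit false

open MeasureTheory Set Filter Topology
open scoped ENNReal ComplexConjugate

namespace Pool.Agent.Run7.h744.WQ

open H459R3.NS Pool.Agent.Run7.h782 Pool.Agent.Run7.h782.GD Pool.Agent.Run7.h782.GS
open Pool.Agent.Run7.h782.WS Pool.Agent.Run7.h969.GS Pool.Agent.Run7 Pool.Agent.Run7.h308.WS
open Pool.Agent.Run7.h744.WS Pool.Agent.Run7.h969.WS Pool.Agent.Run7.h782.WQ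

/-- The stress of the previous stage. -/
noncomputable def pst (r : ℕ → Mf) (m : ℕ → ℕ) : ℕ → Mf
  | 0 => 0
  | (j + 1) => r (m j)

/-- The stress which has to be produced at the stage `j`. -/
noncomputable def sts (r : ℕ → Mf) (m : ℕ → ℕ) (j : ℕ) (a : Cf) : Mf :=
  r (m j) - pst r m j - anti (a - dvr (pst r m j))

theorem dat_r1 {Q : ℕ → ℝ} {c : Cf} {r : ℕ → Mf} (h : DatQ Q c r) (m : ℕ) : R1 (r m) := by
  obtain ⟨Z, hZ⟩ := h.supp m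
  exact r1_of_supp hZ

theorem r1_zero : R1 (0 : Mf) := fun i j => by simp

theorem pst_r1 {Q : ℕ → ℝ} {c : Cf} {r : ℕ → Mf} (h : DatQ Q c r) (m : ℕ → ℕ) (j : ℕ) :
    R1 (pst r m j) := by
  cases j with
  | zero => exact r1_zero
  | succ j => exact dat_r1 h _

theorem pst_sy {Q : ℕ → ℝ} {c : Cf} {r : ℕ → Mf} (h : DatQ Q c r) (m : ℕ → ℕ) (j : ℕ) :
    Sy (pst r m j) := by
  cases j with
  | zero => exact sy_zero
  | succ j => exact h.sy _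

theorem l1_dvr {Q : ℕ → ℝ} {c : Cf} {r : ℕ → Mf} (h : DatQ Q c r) (m : ℕ) : L1 (dvr (r m)) := by
  obtain ⟨Z, hZ⟩ := h.supp m
  exact L1.of_supp (dvr_supp hZ)

theorem dvr_zero : dvr (0 : Mf) = 0 := by
  have := dvr_sub (0 : Mf) 0
  rwa [sub_zero, sub_self] at this

theorem l1_pst {Q : ℕ → ℝ} {c : Cf} {r : ℕ → Mf} (h : DatQ Q c r) (m : ℕ → ℕ) (j : ℕ) :
    L1 (dvr (pst r m j)) := by
  cases j with
  | zero =>
    have : dvr (pst r m 0) = 0 := dvr_zero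
    rw [this]
    exact L1.of_supp (B := ∅) fun _ _ => rfl
  | succ j => exact l1_dvr h _

theorem sts_r1 {Q : ℕ → ℝ} {c : Cf} {r : ℕ → Mf} (h : DatQ Q c r) (m : ℕ → ℕ) (j : ℕ) {a : Cf}
    (ha : L1 a) : R1 (sts r m j a) :=
  r1sub (r1sub (dat_r1 h _) (pst_r1 h m j)) (r1_anti (ha.sub (l1_pst h m j)))

theorem sts_sy {Q : ℕ → ℝ} {c : Cf} {r : ℕ → Mf} (h : DatQ Q c r) (m : ℕ → ℕ) (j : ℕ) {a : Cf}
    (ha : Herm a) : Sy (sts r m j a) := by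
  refine sy_sub (sy_sub (h.sy _) (pst_sy h m j)) (stmQ0.2.2.2.2.2.2.2.2.2.1 _ ?_)
  intro k i
  simp only [Pi.sub_apply, map_sub]
  rw [ha k i, herm_dvr (pst_sy h m j) k i]

theorem dv_sub {a b : Cf} (ha : Dv a) (hb : Dv b) : Dv (a - b) := by
  intro k
  have h : (a - b) k = a k + (-1 : ℂ) • b k := by
    rw [Pi.sub_apply, neg_one_smul, sub_eq_add_neg]
  rw [h, kd_add, kd_smul, ha k, hb k, mul_zero, add_zero]

theorem sts_dvr (r : ℕ → Mf) (m : ℕ → ℕ) (j : ℕ) {a : Cf} (ha : Dv a) (h0 : a 0 = 0) (k : K3) :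
    dvr (sts r m j a) k = dvr (r (m j)) k - a k := by
  rw [sts, dvr_sub, dvr_sub, stmQ0.2.2.2.2.2.2.2.2.2.2 _ (dv_sub ha (dv_dvr _)) (by
    rw [Pi.sub_apply, h0, dvr_zero_mode, sub_zero])]
  simp only [Pi.sub_apply]
  abel

/-- The sequence. -/
structure SQ (C : ℝ → ℝ) (ν δ : ℝ) (U : ℝ → Cf) (Q : ℕ → ℝ) (c : Cf) (r : ℕ → Mf) (φ : ℝ → ℝ)
    (m : ℕ → ℕ) (A : ℕ → ℝ → Cf) (ε H : ℕ → ℝ) : Prop where
  dat : DatQ Q c r
  init : A 0 = U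
  tgt : ∀ n, Tg ν (A n)
  top : Tendsto m atTop atTop
  dif : ∀ j i k, i ≤ j → k ≤ j → rp (Q i / 2 ^ k) (r (m (j + 1)) - r (m j)) ≤ th Q j
  wie : (Summable fun k => ‖c k‖) → ∀ j, ∑' k, ‖dvr (r (m j)) k - c k‖ ≤ (1 / 2) ^ j
  st : ∀ n, StpQ C ν ((1 / 4) ^ n) (th Q n) (H n) (Ex Q n) (A n) (dvr (r (m n)))
    (sts r m n (A n 0)) (ε n) (A (n + 1))
  sg : ∀ n, StpG φ ((1 / 2) ^ n) ((1 / 2) ^ n) (12 * 2 ^ n) (A n) (dvr (r (m n))) (ε n) (A (n + 1))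
  e0 : ∀ n, 0 < ε n
  e1 : ∀ n, ε n ≤ (1 / 2) ^ n
  e2 : ∀ n, ε n ≤ δ * (1 / 2) ^ (n + 1)
  ea : Antitone ε
  H0 : ∀ n, 0 ≤ H n

theorem exists_sq (hStep : StmStepQ) : ∃ C : ℝ → ℝ, (∀ p, 0 < C p) ∧ ∀ (ν : ℝ), 0 < ν →
    ∀ U : ℝ → Cf, Tg ν U → ∀ (Q : ℕ → ℝ) (c : Cf) (r : ℕ → Mf), DatQ Q c r →
    ∀ φ : ℝ → ℝ, Gauge φ → ∀ δ : ℝ, 0 < δ →
    ∃ (m : ℕ → ℕ) (A : ℕ → ℝ → Cf) (ε H : ℕ → ℝ), SQ C ν δ U Q c r φ m A ε H := by
  obtain ⟨C, hC, Hs⟩ := stpq_of_step hStep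
  refine ⟨C, hC, fun ν hν U hU Q c r hdat φ hφ δ hδ => ?_⟩
  obtain ⟨m, hm1, hm2, hm3⟩ := exists_m hdat
  obtain ⟨f, hf0, hP, hR⟩ := exists_rec (X := (ℝ → Cf) × ℝ)
    (fun x => Tg ν x.1 ∧ 0 < x.2)
    (fun n x y => ∃ H' : ℝ, 0 ≤ H' ∧ StpQ C ν ((1 / 4) ^ n) (th Q n) H' (Ex Q n) x.1
      (dvr (r (m n))) (sts r m n (x.1 0)) y.2 y.1 ∧
      StpG φ ((1 / 2) ^ n) ((1 / 2) ^ n) (12 * 2 ^ n) x.1 (dvr (r (m n))) y.2 y.1 ∧
      y.2 ≤ x.2 ∧ y.2 ≤ (1 / 2) ^ n ∧ y.2 ≤ δ * (1 / 2) ^ (n + 1))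
    (U, 1) ⟨hU, one_pos⟩ (by
      rintro n ⟨a, e⟩ ⟨ha, he⟩
      obtain ⟨Z, hZ⟩ := hdat.supp (m n)
      have hl : L1 (a 0) := Maj.l1 ha.maj le_rfl
      obtain ⟨H', hH0, hH'⟩ := Hs ν hν ((1 / 4) ^ n) (by positivity)
        (pow_le_one₀ (by norm_num) (by norm_num)) (Ex Q n) (ex_pos hdat.one n) a ha (Z.erase 0)
        (dvr (r (m n))) (Finset.notMem_erase _ _) (dvr_supp hZ) (herm_dvr (hdat.sy _))
        (dv_dvr _) (sts r m n (a 0)) (sts_sy hdat m n (ha.herm 0 le_rfl)) (sts_r1 hdat m n hl)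
        (sts_dvr r m n (ha.div 0 le_rfl) (ha.zero 0 le_rfl)) (th Q n) (th_pos Q n)
      have e1 : ∀ᶠ ε in 𝓝[>] (0 : ℝ), 0 < ε := self_mem_nhdsWithin
      have e2 : ∀ κ : ℝ, 0 < κ → ∀ᶠ ε in 𝓝[>] (0 : ℝ), ε ≤ κ := fun κ hκ =>
        nhdsWithin_le_nhds (ge_mem_nhds hκ)
      have e3 : th Q n ≤ (1 / 2) ^ n :=
        (th_le Q n).trans (pow_le_pow_left₀ (by norm_num) (by norm_num) n)
      obtain ⟨ε, h1, h2, h3, h4, b, hb, hb'⟩ := (e1.and ((e2 e he).and ((e2 ((1 / 2) ^ n)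
        (by positivity)).and ((e2 (δ * (1 / 2) ^ (n + 1)) (by positivity)).and
          (hH' φ hφ (12 * 2 ^ n) ((1 / 2) ^ n) ((1 / 2) ^ n) (by positivity) (by positivity)
            e3))))).exists
      exact ⟨(b, ε), ⟨hb.tg, h1⟩, H', hH0, hb, hb', h2, h3, h4⟩)
  choose H' hH0 hst hsg h1 h2 h3 using hR
  exact ⟨m, fun n => (f n).1, fun n => (f (n + 1)).2, H',
    { dat := hdat
      init := by simp [hf0]
      tgt := fun n => (hP n).1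
      top := hm1
      dif := hm2
      wie := hm3
      st := hst
      sg := hsg
      e0 := fun n => (hP (n + 1)).2
      e1 := h2
      e2 := h3
      ea := antitone_nat_of_succ_le fun n => h1 (n + 1)
      H0 := hH0 }⟩

section decay

variable {C : ℝ → ℝ} {ν δ : ℝ} {U : ℝ → Cf} {Q : ℕ → ℝ} {c : Cf} {r : ℕ → Mf} {φ : ℝ → ℝ}
  {m : ℕ → ℕ} {A : ℕ → ℝ → Cf} {ε H : ℕ → ℝ}

/-- The stress of the stage `n`. -/
noncomputable def rho (r : ℕ → Mf) (m : ℕ → ℕ) (A : ℕ → ℝ → Cf) (n : ℕ) : Mf := sts r m n (A n 0)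

theorem SQ.l1_0 (h : SQ C ν δ U Q c r φ m A ε H) (n : ℕ) : L1 (A n 0) :=
  Maj.l1 (h.tgt n).maj le_rfl

theorem SQ.r1 (h : SQ C ν δ U Q c r φ m A ε H) (n : ℕ) : R1 (rho r m A n) :=
  sts_r1 h.dat m n (h.l1_0 n)

theorem SQ.Qpos (h : SQ C ν δ U Q c r φ m A ε H) (i : ℕ) : 0 < Q i := by linarith [h.dat.one i]

/-- The next stress by the error of the step. -/
theorem SQ.next (h : SQ C ν δ U Q c r φ m A ε H) {p : ℝ} (hp : 0 < p) (n : ℕ) :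
    rp p (rho r m A (n + 1)) ≤ 2 ^ p * (rp p (r (m (n + 1)) - r (m n))
      + rp p (anti (A (n + 1) 0 - dvr (r (m n))))) :=
  rp_sub_le hp (r1sub (dat_r1 h.dat _) (dat_r1 h.dat _))
    (r1_anti ((h.l1_0 (n + 1)).sub (l1_dvr h.dat _)))

/-- The decay of the moments of the stresses. -/
theorem SQ.decay (h : SQ C ν δ U Q c r φ m A ε H) (hC : ∀ p, 0 < C p) (hν : 0 < ν) (i : ℕ)
    (e : ℝ) : ∃ K : ℝ, 0 ≤ K ∧ ∀ n : ℕ, rp (Q i) (rho r m A n) ≤ K * (1 / 4 : ℝ) ^ (e * n) := by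
  have hQ := h.Qpos i
  have hmono : ∀ j a b, a ≤ b → rp (Q i / 2 ^ b) (rho r m A j)
      ≤ 1 + rp (Q i / 2 ^ a) (rho r m A j) := by
    intro j a b hab
    refine stmQ0.2.2.2.1 _ _ _ (by positivity) ?_ (h.r1 j)
    exact div_le_div_of_nonneg_left hQ.le (by positivity) (pow_le_pow_right₀ (by norm_num) hab)
  have hK : ∀ a : ℕ, 0 ≤ 2 ^ (Q i / 2 ^ a) * (C (Q i / 2 ^ a) * ν ^ (Q i / 2 ^ a / 2)) := by
    intro a
    have := (hC (Q i / 2 ^ a)).le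
    positivity
  obtain ⟨K, hKK⟩ := stmRecQ (fun j a => rp (Q i / 2 ^ a) (rho r m A j))
    (fun a => 2 ^ (Q i / 2 ^ a) * (C (Q i / 2 ^ a) * ν ^ (Q i / 2 ^ a / 2))) (Q i) hQ
    (fun j a => rp_nonneg _ _) hK hmono (fun a => ⟨max i a, fun j hj => by
      have hij : i ≤ j := (le_max_left _ _).trans hj
      have haj : a ≤ j := (le_max_right _ _).trans hj
      have hp : 0 < Q i / 2 ^ a := by positivity
      have hmem := mem_ex (Q := Q) hij haj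
      have h1 := h.next hp j
      have h2 := h.dif j i a hij haj
      have h3 := (h.st j).st _ hmem
      have h4 := th_wx hmem
      have e1 : Q i / 2 ^ a / 2 = Q i / 2 ^ (a + 1) := by
        rw [pow_succ, div_div]
      have e2 : (((1 : ℝ) / 4) ^ j) ^ (1 - Q i / 2 ^ a / 2)
          = (1 / 4 : ℝ) ^ ((j : ℝ) * (1 - Q i / 2 ^ (a + 1))) := by
        rw [e1, ← Real.rpow_natCast, ← Real.rpow_mul (by norm_num)]
      rw [e2] at h3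
      have h5 : (0 : ℝ) < 2 ^ (Q i / 2 ^ a) := by positivity
      calc rp (Q i / 2 ^ a) (rho r m A (j + 1))
          ≤ 2 ^ (Q i / 2 ^ a) * (th Q j + (C (Q i / 2 ^ a) * ν ^ (Q i / 2 ^ a / 2)
            * (1 / 4 : ℝ) ^ ((j : ℝ) * (1 - Q i / 2 ^ (a + 1)))
            * rp (Q i / 2 ^ a / 2) (rho r m A j) + th Q j)) :=
            h1.trans (mul_le_mul_of_nonneg_left (add_le_add h2 h3) h5.le)
        _ = 2 ^ (Q i / 2 ^ a) * (C (Q i / 2 ^ a) * ν ^ (Q i / 2 ^ a / 2))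
            * (1 / 4 : ℝ) ^ ((j : ℝ) * (1 - Q i / 2 ^ (a + 1)))
            * rp (Q i / 2 ^ (a + 1)) (rho r m A j)
            + 2 ^ (Q i / 2 ^ a) * (th Q j + th Q j) := by
            rw [e1]
            ring
        _ ≤ _ := add_le_add le_rfl h4⟩) e
  refine ⟨max K 0, le_max_right _ _, fun n => ?_⟩
  have h1 := hKK n
  simp only [pow_zero, div_one] at h1
  refine h1.trans (mul_le_mul_of_nonneg_right (le_max_left _ _) (by positivity))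

/-- The norms of the stresses. -/
theorem SQ.decay' (h : SQ C ν δ U Q c r φ m A ε H) (hC : ∀ p, 0 < C p) (hν : 0 < ν) (i : ℕ)
    (e : ℝ) : ∃ K : ℝ, 0 ≤ K ∧ ∀ n : ℕ,
      rp (Q i) (rho r m A n) ^ (1 / Q i) ≤ K * (1 / 4 : ℝ) ^ (e * n) := by
  have hQ := h.Qpos i
  obtain ⟨K, hK0, hK⟩ := h.decay hC hν i (Q i * e)
  refine ⟨K ^ (1 / Q i), by positivity, fun n => ?_⟩
  refine (Real.rpow_le_rpow (rp_nonneg _ _) (hK n) (by positivity)).trans (le_of_eq ?_)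
  rw [Real.mul_rpow hK0 (by positivity), ← Real.rpow_mul (by norm_num)]
  congr 2
  field_simp

theorem quarter_rpow (n : ℕ) : ((1 : ℝ) / 4) ^ ((1 : ℝ) * n) = (1 / 4) ^ n := by
  rw [one_mul, Real.rpow_natCast]

/-- The errors of the steps. -/
theorem SQ.al_le (h : SQ C ν δ U Q c r φ m A ε H) (hC : ∀ p, 0 < C p) (hν : 0 < ν) :
    ∃ K : ℝ, 0 ≤ K ∧ ∀ n : ℕ, al (A (n + 1) 0 - dvr (r (m n))) ≤ K * (1 / 2) ^ n := by
  have hQ := h.Qpos 0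
  have hQ1 := h.dat.one 0
  have hC1 := hC 1
  obtain ⟨K, hK0, hK⟩ := h.decay hC hν 0 0
  refine ⟨C 1 * ν ^ ((1 : ℝ) / 2) * (1 + K) + 1, by positivity, fun n => ?_⟩
  have h1 := (h.st n).st 1 (mem_ex1 Q n)
  have h2 : rp (1 / 2) (rho r m A n) ≤ 1 + K := by
    have h3 := stmQ0.2.2.2.1 (1 / 2) (Q 0) _ (by norm_num) (by linarith) (h.r1 n)
    have h4 := hK n
    rw [zero_mul, Real.rpow_zero, mul_one] at h4
    linarith
  have e1 : (((1 : ℝ) / 4) ^ n) ^ ((1 : ℝ) - 1 / 2) = (1 / 2) ^ n := by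
    rw [show (1 : ℝ) - 1 / 2 = 1 / 2 by norm_num, ← Real.sqrt_eq_rpow,
      show ((1 : ℝ) / 4) ^ n = ((1 / 2) ^ n) ^ 2 by
        rw [← pow_mul, mul_comm n 2, pow_mul]; norm_num, Real.sqrt_sq (by positivity)]
  rw [al_eq (r1_anti ((h.l1_0 (n + 1)).sub (l1_dvr h.dat _)))]
  rw [e1] at h1
  have h5 : th Q n ≤ (1 / 2) ^ n :=
    (th_le Q n).trans (pow_le_pow_left₀ (by norm_num) (by norm_num) n)
  calc _ ≤ _ := h1
    _ ≤ C 1 * ν ^ ((1 : ℝ) / 2) * (1 / 2) ^ n * (1 + K) + (1 / 2) ^ n := by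
        refine add_le_add (mul_le_mul_of_nonneg_left h2 (by positivity)) h5
    _ = _ := by ring

/-- The square mean of the steps. -/
theorem SQ.l2_le (h : SQ C ν δ U Q c r φ m A ε H) (hC : ∀ p, 0 < C p) (hν : 0 < ν) :
    ∃ K : ℝ, 0 ≤ K ∧ ∀ n : ℕ, ∫⁻ t in Ioc (0 : ℝ) 1, Sq2 (A (n + 1) t) (A n t)
      ≤ ENNReal.ofReal (K * (1 / 4) ^ n) := by
  have hC2 := hC 2
  obtain ⟨K, hK0, hK⟩ := h.decay' hC hν 0 1
  refine ⟨C 2 * (K + 1), by positivity, fun n => ?_⟩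
  refine ((h.st n).l2).trans (ENNReal.ofReal_le_ofReal ?_)
  have h1 := stmQ0.2.2.1 1 (Q 0) _ one_pos (h.dat.one 0) (h.r1 n)
  have h2 := hK n
  rw [quarter_rpow] at h2
  rw [mul_assoc]
  refine mul_le_mul_of_nonneg_left ?_ hC2.le
  have h3 := th_le Q n
  calc rp 1 (sts r m n (A n 0)) + th Q n ≤ K * (1 / 4) ^ n + (1 / 4) ^ n :=
        add_le_add (h1.trans h2) h3
    _ = _ := by ring

/-- The moments of the steps. -/
theorem SQ.tm_le (h : SQ C ν δ U Q c r φ m A ε H) (hC : ∀ p, 0 < C p) (hν : 0 < ν) (i : ℕ) :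
    ∃ K : ℝ, 0 ≤ K ∧ ∀ n : ℕ, i ≤ n →
      ∫⁻ t in Ioc (0 : ℝ) 1, ENNReal.ofReal (fp (2 * Q i) (A (n + 1) t - A n t) ^ (1 / Q i))
        ≤ ENNReal.ofReal (K * (1 / 4) ^ n) := by
  have hQ := h.Qpos i
  have hQ1 := h.dat.one i
  have hCq := hC (2 * Q i)
  obtain ⟨K, hK0, hK⟩ := h.decay' hC hν i 2
  refine ⟨C (2 * Q i) * K + 1, by positivity, fun n hn => ?_⟩
  have h1 := (h.st n).tm (2 * Q i) (mem_ex2 hn) (by linarith)
  have e1 : 2 / (2 * Q i) = 1 / Q i := by field_simp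
  have e2 : 2 * Q i / 2 = Q i := by ring
  rw [e1, e2] at h1
  refine h1.trans (ENNReal.ofReal_le_ofReal ?_)
  have h2 := hK n
  have h3 := th_le Q n
  have h4 : (((1 : ℝ) / 4) ^ n) ^ (1 / Q i - 1) ≤ 4 ^ n := by
    rw [← Real.rpow_natCast, ← Real.rpow_mul (by norm_num)]
    have e3 : (4 : ℝ) ^ n = (1 / 4 : ℝ) ^ (-(n : ℝ)) := by
      rw [Real.rpow_neg (by norm_num), Real.rpow_natCast, one_div, inv_pow, inv_inv]
    rw [e3]
    refine Real.rpow_le_rpow_of_exponent_ge (by norm_num) (by norm_num) ?_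
    have h5 : 0 ≤ 1 / Q i := by positivity
    have h6 : (0 : ℝ) ≤ n := Nat.cast_nonneg n
    nlinarith
  have e4 : (1 / 4 : ℝ) ^ ((2 : ℝ) * n) = (1 / 4) ^ n * (1 / 4) ^ n := by
    rw [two_mul, Real.rpow_add (by norm_num), Real.rpow_natCast]
  rw [e4] at h2
  have h7 : (4 : ℝ) ^ n * (1 / 4) ^ n = 1 := by
    rw [← mul_pow]
    norm_num
  calc C (2 * Q i) * (((1 : ℝ) / 4) ^ n) ^ (1 / Q i - 1)
        * rp (Q i) (sts r m n (A n 0)) ^ (1 / Q i) + th Q n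
      ≤ C (2 * Q i) * 4 ^ n * (K * ((1 / 4) ^ n * (1 / 4) ^ n)) + (1 / 4) ^ n := by
        refine add_le_add (mul_le_mul (mul_le_mul_of_nonneg_left h4 hCq.le) h2
          (Real.rpow_nonneg (rp_nonneg _ _) _) (by positivity)) h3
    _ = (C (2 * Q i) * K * (4 ^ n * (1 / 4) ^ n) + 1) * (1 / 4) ^ n := by ring
    _ = _ := by rw [h7, mul_one]

end decay

end Pool.Agent.Run7.h744.WQ
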